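import Pool.Agent.Wey.Targets

/-!
# MP_5ab805_an, CNV: convolution with a complex Gaussian on `L²` (helper87)
-/

set_option autoImplicit false

namespace Wey

open MeasureTheory Set Filter
open scoped ENNReal NNReal Topology
open Pool.Agent.Restr (u E QQ measurable_u norm_u plancherel2)
open TriL (Sq n2)

theorem CNV_gauss1 {a : ℂ} (ha : 0 < a.re) (t : ℝ) :
    ∫ k : ℝ, Complex.exp (Complex.I * t * k) * Complex.exp (-(1 / (4 * a)) * (k : ℂ) ^ 2) =
      (4 * Real.pi * a) ^ (1 / 2 : ℂ) * Complex.exp (-(a * (t : ℂ) ^ 2)) := by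
  have ha0 : a ≠ 0 := by
    intro h
    rw [h] at ha
    simp at ha
  have hb : 0 < (1 / (4 * a)).re := by
    rw [one_div, Complex.inv_re]
    apply div_pos
    · simpa using ha
    · rw [Complex.normSq_pos]
      exact mul_ne_zero (by norm_num) ha0
  have h := fourierIntegral_gaussian hb (t : ℂ)
  rw [h]
  congr 1
  · congr 1
    field_simp
  · congr 1
    field_simp

theorem CNV_int1 {a : ℂ} (ha : 0 < a.re) (t : ℝ) :
    Integrable fun k : ℝ =>
      Complex.exp (Complex.I * t * k) * Complex.exp (-(1 / (4 * a)) * (k : ℂ) ^ 2) := by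
  have ha0 : a ≠ 0 := by
    intro h
    rw [h] at ha
    simp at ha
  have hb : 0 < (1 / (4 * a)).re := by
    rw [one_div, Complex.inv_re]
    apply div_pos
    · simpa using ha
    · rw [Complex.normSq_pos]
      exact mul_ne_zero (by norm_num) ha0
  have h := integrable_cexp_quadratic hb (Complex.I * t) 0
  refine h.congr (Eventually.of_forall fun k => ?_)
  simp only
  rw [← Complex.exp_add]
  congr 1
  ring

/-- the Gaussian weight in the frequency variable -/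
noncomputable def CNV_w (a : ℂ) (k : ℝ × ℝ) : ℂ := Complex.exp (-(1 / (4 * a)) * ((nq k : ℝ) : ℂ))

theorem CNV_int2 {a : ℂ} (ha : 0 < a.re) (z : ℝ × ℝ) :
    Integrable fun k : ℝ × ℝ => u (-(k.1 * z.1 + k.2 * z.2)) * CNV_w a k := by
  have h := (CNV_int1 ha z.1).mul_prod (CNV_int1 ha z.2)
  refine h.congr (Eventually.of_forall fun k => ?_)
  simp only [CNV_w, u, nq]
  rw [← Complex.exp_add, ← Complex.exp_add, ← Complex.exp_add, ← Complex.exp_add]
  congr 1
  push_cast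
  ring

theorem CNV_gauss2 {a : ℂ} (ha : 0 < a.re) (z : ℝ × ℝ) :
    ∫ k : ℝ × ℝ, u (-(k.1 * z.1 + k.2 * z.2)) * CNV_w a k =
      4 * Real.pi * a * Complex.exp (-(a * ((nq z : ℝ) : ℂ))) := by
  have ha0 : a ≠ 0 := by
    intro h
    rw [h] at ha
    simp at ha
  have h : ∀ k : ℝ × ℝ, u (-(k.1 * z.1 + k.2 * z.2)) * CNV_w a k =
      (Complex.exp (Complex.I * z.1 * k.1) * Complex.exp (-(1 / (4 * a)) * (k.1 : ℂ) ^ 2)) *
      (Complex.exp (Complex.I * z.2 * k.2) * Complex.exp (-(1 / (4 * a)) * (k.2 : ℂ) ^ 2)) := by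
    intro k
    simp only [CNV_w, u, nq]
    rw [← Complex.exp_add, ← Complex.exp_add, ← Complex.exp_add, ← Complex.exp_add]
    congr 1
    push_cast
    ring
  simp_rw [h]
  rw [show (volume : Measure (ℝ × ℝ)) = (volume : Measure ℝ).prod volume from rfl,
    integral_prod_mul (fun k : ℝ => Complex.exp (Complex.I * z.1 * k) *
      Complex.exp (-(1 / (4 * a)) * (k : ℂ) ^ 2)) (fun k : ℝ => Complex.exp (Complex.I * z.2 * k) *
      Complex.exp (-(1 / (4 * a)) * (k : ℂ) ^ 2)), CNV_gauss1 ha, CNV_gauss1 ha]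
  have hne : (4 * Real.pi * a : ℂ) ≠ 0 :=
    mul_ne_zero (mul_ne_zero (by norm_num) (by exact_mod_cast Real.pi_ne_zero)) ha0
  have h2 : (4 * Real.pi * a : ℂ) ^ (1 / 2 : ℂ) * (4 * Real.pi * a : ℂ) ^ (1 / 2 : ℂ) =
      4 * Real.pi * a := by
    rw [← Complex.cpow_add _ _ hne]
    norm_num
  have h3 : Complex.exp (-(a * ((nq z : ℝ) : ℂ))) =
      Complex.exp (-(a * (z.1 : ℂ) ^ 2)) * Complex.exp (-(a * (z.2 : ℂ) ^ 2)) := by
    rw [← Complex.exp_add]
    congr 1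
    simp only [nq]
    push_cast
    ring
  rw [h3]
  linear_combination (Complex.exp (-(a * (z.1 : ℂ) ^ 2)) * Complex.exp (-(a * (z.2 : ℂ) ^ 2))) * h2

theorem CNV_w_norm {a : ℂ} (ha : 0 < a.re) (k : ℝ × ℝ) : ‖CNV_w a k‖ ≤ 1 := by
  have ha0 : a ≠ 0 := by
    intro h
    rw [h] at ha
    simp at ha
  have hb : 0 < (1 / (4 * a)).re := by
    rw [one_div, Complex.inv_re]
    apply div_pos
    · simpa using ha
    · rw [Complex.normSq_pos]
      exact mul_ne_zero (by norm_num) ha0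
  unfold CNV_w
  rw [Complex.norm_exp]
  apply Real.exp_le_one_iff.mpr
  have h1 : (-(1 / (4 * a)) * ((nq k : ℝ) : ℂ)).re = -((1 / (4 * a)).re * nq k) := by
    rw [Complex.re_mul_ofReal]
    simp
  rw [h1]
  have h2 : 0 ≤ nq k := by unfold nq; positivity
  nlinarith [mul_nonneg hb.le h2]

theorem CNV_w_meas (a : ℂ) : Measurable (CNV_w a) := by
  unfold CNV_w nq
  fun_prop

/-- the function on the frequency side -/
noncomputable def CNV_G (a : ℂ) (B : ℝ × ℝ → ℂ) (k : ℝ × ℝ) : ℂ :=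
  CNV_w a k * ∫ y : ℝ × ℝ, u (k.1 * y.1 + k.2 * y.2) * B y

theorem CNV_hat_meas {B : ℝ × ℝ → ℂ} (hB : Measurable B) :
    Measurable fun k : ℝ × ℝ => ∫ y : ℝ × ℝ, u (k.1 * y.1 + k.2 * y.2) * B y := by
  have h1 : StronglyMeasurable
      (fun k : ℝ × ℝ => ∫ y : ℝ × ℝ, u (k.1 * y.1 + k.2 * y.2) * B y) := by
    apply StronglyMeasurable.integral_prod_right
      (f := fun (k : ℝ × ℝ) (y : ℝ × ℝ) => u (k.1 * y.1 + k.2 * y.2) * B y)
    apply Measurable.stronglyMeasurable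
    refine Measurable.mul ?_ (hB.comp measurable_snd)
    exact measurable_u.comp (by fun_prop)
  exact h1.measurable

theorem CNV_repr {a : ℂ} (ha : 0 < a.re) {B : ℝ × ℝ → ℂ} (hB : Measurable B) (hi : Integrable B)
    (x : ℝ × ℝ) :
    ∫ k : ℝ × ℝ, u (x.1 * (-k.1) + x.2 * (-k.2)) * CNV_G a B k =
      4 * Real.pi * a *
        ∫ y : ℝ × ℝ, Complex.exp (-(a * ((nq (x.1 - y.1, x.2 - y.2) : ℝ) : ℂ))) * B y := by
  have hF : Integrable (fun p : (ℝ × ℝ) × (ℝ × ℝ) =>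
      u (x.1 * (-p.1.1) + x.2 * (-p.1.2)) * (CNV_w a p.1 * (u (p.1.1 * p.2.1 + p.1.2 * p.2.2) *
        B p.2))) (volume.prod volume) := by
    have h0 : Integrable (fun k : ℝ × ℝ => CNV_w a k) := by
      have := CNV_int2 ha (0 : ℝ × ℝ)
      refine this.congr (Eventually.of_forall fun k => ?_)
      simp [u]
    have h1 := h0.mul_prod hi
    refine h1.mono ?_ (Eventually.of_forall fun p => ?_)
    · apply Measurable.aestronglyMeasurable
      refine Measurable.mul (measurable_u.comp (by fun_prop)) (Measurable.mul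
        ((CNV_w_meas a).comp measurable_fst) (Measurable.mul (measurable_u.comp (by fun_prop))
          (hB.comp measurable_snd)))
    · rw [norm_mul, norm_mul, norm_mul, norm_u, norm_u, norm_mul]
      simp
  calc ∫ k : ℝ × ℝ, u (x.1 * (-k.1) + x.2 * (-k.2)) * CNV_G a B k
      = ∫ k : ℝ × ℝ, ∫ y : ℝ × ℝ, u (x.1 * (-k.1) + x.2 * (-k.2)) * (CNV_w a k *
          (u (k.1 * y.1 + k.2 * y.2) * B y)) := by
        refine integral_congr_ae (Eventually.of_forall fun k => ?_)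
        simp only [CNV_G]
        rw [← integral_const_mul, ← integral_const_mul]
    _ = ∫ y : ℝ × ℝ, ∫ k : ℝ × ℝ, u (x.1 * (-k.1) + x.2 * (-k.2)) * (CNV_w a k *
          (u (k.1 * y.1 + k.2 * y.2) * B y)) := integral_integral_swap hF
    _ = ∫ y : ℝ × ℝ, 4 * Real.pi * a *
          (Complex.exp (-(a * ((nq (x.1 - y.1, x.2 - y.2) : ℝ) : ℂ))) * B y) := by
        refine integral_congr_ae (Eventually.of_forall fun y => ?_)
        simp only
        have h2 := CNV_gauss2 ha (x.1 - y.1, x.2 - y.2)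
        rw [← mul_assoc, ← h2, ← integral_mul_const]
        refine integral_congr_ae (Eventually.of_forall fun k => ?_)
        simp only
        have h3 : u (-(k.1 * (x.1 - y.1) + k.2 * (x.2 - y.2))) =
            u (x.1 * (-k.1) + x.2 * (-k.2)) * u (k.1 * y.1 + k.2 * y.2) := by
          unfold u
          rw [← Complex.exp_add]
          congr 1
          push_cast
          ring
        rw [h3]
        ring
    _ = _ := integral_const_mul _ _

theorem p_CNV : T_CNV := by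
  intro a B ha hB hi
  have ha0 : a ≠ 0 := by
    intro h
    rw [h] at ha
    simp at ha
  have hna : 0 < ‖a‖ := norm_pos_iff.mpr ha0
  have hpi := Real.pi_pos
  -- second Plancherel inequality
  have hP2 : ∫⁻ k : ℝ × ℝ, ‖∫ y : ℝ × ℝ, u (k.1 * y.1 + k.2 * y.2) * B y‖ₑ ^ 2 ≤
      1 * (ENNReal.ofReal (2 * Real.pi) * ENNReal.ofReal (2 * Real.pi)) * ∫⁻ y, ‖B y‖ₑ ^ 2 :=
    plancherel2 (μ := volume) (s := fun y : ℝ × ℝ => y) measurable_id
      (fun φ _ => by rw [one_mul]) hB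
  have hG : ∫⁻ k : ℝ × ℝ, ‖CNV_G a B k‖ₑ ^ 2 ≤
      ∫⁻ k : ℝ × ℝ, ‖∫ y : ℝ × ℝ, u (k.1 * y.1 + k.2 * y.2) * B y‖ₑ ^ 2 := by
    refine lintegral_mono fun k => ?_
    unfold CNV_G
    rw [enorm_mul]
    gcongr
    have : ‖CNV_w a k‖ₑ ≤ 1 := by
      rw [← ofReal_norm]
      exact ENNReal.ofReal_le_one.mpr (CNV_w_norm ha k)
    calc ‖CNV_w a k‖ₑ * _ ≤ 1 * _ := by gcongr
      _ = _ := one_mul _
  have hGm : Measurable (CNV_G a B) := (CNV_w_meas a).mul (CNV_hat_meas hB)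
  have hP1 : ∫⁻ x : ℝ × ℝ, ‖∫ k : ℝ × ℝ, u (x.1 * (-k.1) + x.2 * (-k.2)) * CNV_G a B k‖ₑ ^ 2 ≤
      1 * (ENNReal.ofReal (2 * Real.pi) * ENNReal.ofReal (2 * Real.pi)) *
        ∫⁻ k, ‖CNV_G a B k‖ₑ ^ 2 := by
    refine plancherel2 (μ := volume) (s := fun k : ℝ × ℝ => (-k.1, -k.2)) (by fun_prop)
      (fun φ _ => ?_) hGm
    rw [one_mul]
    have := lintegral_neg_eq_self (μ := (volume : Measure (ℝ × ℝ))) φ
    exact this.le
  have hrep : ∀ x : ℝ × ℝ,
      ∫ y : ℝ × ℝ, Complex.exp (-(a * ((nq (x.1 - y.1, x.2 - y.2) : ℝ) : ℂ))) * B y =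
      (4 * Real.pi * a)⁻¹ * ∫ k : ℝ × ℝ, u (x.1 * (-k.1) + x.2 * (-k.2)) * CNV_G a B k := by
    intro x
    rw [CNV_repr ha hB hi x, ← mul_assoc, inv_mul_cancel₀, one_mul]
    exact mul_ne_zero (mul_ne_zero (by norm_num) (by exact_mod_cast Real.pi_ne_zero)) ha0
  have hc : ‖((4 * Real.pi * a)⁻¹ : ℂ)‖ₑ = ENNReal.ofReal (1 / (4 * Real.pi * ‖a‖)) := by
    rw [← ofReal_norm]
    congr 1
    rw [norm_inv, norm_mul, norm_mul]
    simp [abs_of_pos hpi]
  calc ∫⁻ x : ℝ × ℝ, ‖∫ y : ℝ × ℝ, Complex.exp (-(a * ((nq (x.1 - y.1, x.2 - y.2) : ℝ) : ℂ))) *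
        B y‖ₑ ^ 2
      = ∫⁻ x : ℝ × ℝ, ENNReal.ofReal (1 / (4 * Real.pi * ‖a‖)) ^ 2 *
          ‖∫ k : ℝ × ℝ, u (x.1 * (-k.1) + x.2 * (-k.2)) * CNV_G a B k‖ₑ ^ 2 := by
        refine lintegral_congr fun x => ?_
        rw [hrep x, enorm_mul, hc, mul_pow]
    _ = ENNReal.ofReal (1 / (4 * Real.pi * ‖a‖)) ^ 2 *
          ∫⁻ x : ℝ × ℝ, ‖∫ k : ℝ × ℝ, u (x.1 * (-k.1) + x.2 * (-k.2)) * CNV_G a B k‖ₑ ^ 2 := by
        rw [lintegral_const_mul']
        exact ENNReal.pow_ne_top ENNReal.ofReal_ne_top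
    _ ≤ ENNReal.ofReal (1 / (4 * Real.pi * ‖a‖)) ^ 2 *
          (1 * (ENNReal.ofReal (2 * Real.pi) * ENNReal.ofReal (2 * Real.pi)) *
            (1 * (ENNReal.ofReal (2 * Real.pi) * ENNReal.ofReal (2 * Real.pi)) *
              ∫⁻ y, ‖B y‖ₑ ^ 2)) := by
        gcongr
        exact hP1.trans (by gcongr; exact hG.trans hP2)
    _ = ENNReal.ofReal ((Real.pi / ‖a‖) ^ 2) * ∫⁻ y, ‖B y‖ₑ ^ 2 := by
        simp only [one_mul]
        rw [← ENNReal.ofReal_pow (by positivity), ← ENNReal.ofReal_mul (by positivity),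
          ← mul_assoc, ← mul_assoc, ← ENNReal.ofReal_mul (by positivity),
          ← ENNReal.ofReal_mul (by positivity)]
        congr 2
        field_simp
        ring

end Wey
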