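import Pool.Agent.Wey.Targets

/-!
# MP_5ab805_an, exponential sums as partners of every function: WIE (cut-offs)
-/

set_option autoImplicit false

namespace Wey

open MeasureTheory Set Filter
open scoped ENNReal NNReal Topology
open Pool.Agent.Restr (u E QQ)
open TriL (Sq n2)

namespace WIE_

open scoped FourierTransform ContDiff

/-- the bump function -/
noncomputable def bb : ContDiffBump (0 : ℝ) := ⟨1 / 2, 1, by norm_num, by norm_num⟩

/-- the cut-off `exp(s²)` -/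
noncomputable def th (s : ℝ) : ℂ := (bb s : ℂ) * Complex.exp ((s : ℂ) ^ 2)

lemma th_contDiff : ContDiff ℝ ∞ th := by
  unfold th
  have h1 : ContDiff ℝ ∞ fun s : ℝ => ((bb s : ℝ) : ℂ) :=
    Complex.ofRealCLM.contDiff.comp bb.contDiff
  have h2 : ContDiff ℝ ∞ fun s : ℝ => Complex.exp ((s : ℂ) ^ 2) := by
    have h3 : ContDiff ℝ ∞ fun s : ℝ => (s : ℂ) := Complex.ofRealCLM.contDiff
    exact Complex.contDiff_exp.comp (h3.pow 2)
  exact h1.mul h2

lemma th_support : HasCompactSupport th := by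
  unfold th
  have h : HasCompactSupport fun s : ℝ => ((bb s : ℝ) : ℂ) :=
    bb.hasCompactSupport.comp_left (g := fun r : ℝ => (r : ℂ)) (by simp)
  exact h.mul_right

lemma th_eq (s : ℝ) (hs : s ∈ Icc (-(1 / 2) : ℝ) (1 / 2)) :
    th s = ((Real.exp (s ^ 2) : ℝ) : ℂ) := by
  unfold th
  have h : bb s = 1 := by
    apply bb.one_of_mem_closedBall
    rw [Metric.mem_closedBall, Real.dist_eq, sub_zero]
    exact abs_le.2 ⟨hs.1, hs.2⟩
  rw [h]
  push_cast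
  ring

/-- the Fourier transform -/
noncomputable def kk (w : ℝ) : ℂ := ((2 * Real.pi)⁻¹ : ℝ) * 𝓕 th ((2 * Real.pi)⁻¹ * w)

lemma F_integrable : Integrable (𝓕 th) := by
  have h := (𝓕 (th_support.toSchwartzMap th_contDiff)).integrable (μ := volume)
  rw [SchwartzMap.fourier_coe] at h
  exact h

lemma kk_integrable : Integrable kk := by
  unfold kk
  have hpi : (2 * Real.pi)⁻¹ ≠ 0 := by positivity
  exact (F_integrable.comp_mul_left' hpi).const_mul _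

lemma kk_eq (s : ℝ) : th s = ∫ w : ℝ, u (-(w * s)) * kk w := by
  have h1 : 𝓕⁻ (𝓕 th) s = th s := by
    rw [th_contDiff.continuous.fourierInv_fourier_eq
      (th_contDiff.continuous.integrable_of_hasCompactSupport th_support) F_integrable]
  rw [← h1, Real.fourierInv_eq']
  have hpi : (0 : ℝ) < (2 * Real.pi)⁻¹ := by positivity
  have h2 := Measure.integral_comp_mul_left
    (fun v : ℝ => Complex.exp (↑(2 * Real.pi * inner ℝ v s) * Complex.I) • 𝓕 th v)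
    (2 * Real.pi)⁻¹
  rw [inv_inv, abs_of_pos (by positivity)] at h2
  have h3 : ∫ w : ℝ, u (-(w * s)) * kk w = ((2 * Real.pi)⁻¹ : ℝ) •
      ∫ x : ℝ, (fun v : ℝ => Complex.exp (↑(2 * Real.pi * inner ℝ v s) * Complex.I) • 𝓕 th v)
        ((2 * Real.pi)⁻¹ * x) := by
    rw [← integral_smul]
    congr 1
    funext w
    unfold kk u
    have h4 : Complex.exp (-(Complex.I * ((-(w * s) : ℝ) : ℂ))) =
        Complex.exp (((2 * Real.pi * inner ℝ ((2 * Real.pi)⁻¹ * w) s : ℝ) : ℂ) * Complex.I) := by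
      congr 1
      have h5 : 2 * Real.pi * inner ℝ ((2 * Real.pi)⁻¹ * w) s = w * s := by
        simp only [RCLike.inner_apply, conj_trivial]
        field_simp
      rw [h5]
      push_cast
      ring
    rw [h4]
    simp only [Complex.real_smul, smul_eq_mul]
    ring
  rw [h3, h2, smul_smul, inv_mul_cancel₀ (by positivity), one_smul]

/-- the product -/
noncomputable def k2 (w : ℝ × ℝ) : ℂ := kk w.1 * kk w.2

lemma k2_integrable : Integrable k2 := kk_integrable.mul_prod kk_integrable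

lemma u_add (a b : ℝ) : u (a + b) = u a * u b := by
  unfold u
  rw [← Complex.exp_add]
  congr 1
  push_cast
  ring

lemma norm_u (a : ℝ) : ‖u a‖ = 1 := by
  unfold u
  rw [Complex.norm_exp]
  simp

lemma continuous_u : Continuous u := by
  unfold u
  fun_prop

lemma k2_eq (x : ℝ × ℝ) : th x.1 * th x.2 =
    ∫ w : ℝ × ℝ, u (-(w.1 * x.1 + w.2 * x.2)) * k2 w := by
  rw [kk_eq, kk_eq, ← integral_prod_mul]
  congr 1
  funext w
  have h : -(w.1 * x.1 + w.2 * x.2) = -(w.1 * x.1) + -(w.2 * x.2) := by ring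
  rw [h, u_add]
  unfold k2
  ring

lemma gup_eq (χ : ℝ × ℝ → ℂ) (hχ : ∀ x, x ∉ QQ → χ x = 0) (x : ℝ × ℝ) :
    gup χ x = th x.1 * th x.2 * χ x := by
  by_cases hx : x ∈ QQ
  · have hx' : x.1 ∈ Icc (-(1 / 2) : ℝ) (1 / 2) ∧ x.2 ∈ Icc (-(1 / 2) : ℝ) (1 / 2) := hx
    rw [gup, nq, th_eq _ hx'.1, th_eq _ hx'.2, Real.exp_add]
    push_cast
    ring
  · rw [gup, hχ x hx]
    simp

/-- the convolution -/
noncomputable def cv (κ : ℝ × ℝ → ℂ) (y : ℝ × ℝ) : ℂ := ∫ w : ℝ × ℝ, k2 w * κ (y - w)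

lemma integrand (κ : ℝ × ℝ → ℂ) (hκ : Integrable κ) :
    Integrable (fun p : (ℝ × ℝ) × (ℝ × ℝ) => k2 p.2 * κ (p.1 - p.2))
      ((volume : Measure (ℝ × ℝ)).prod volume) := by
  have h := k2_integrable.convolution_integrand (ContinuousLinearMap.mul ℝ ℂ) hκ
    (μ := volume) (ν := volume)
  simpa using h

lemma cv_integrable (κ : ℝ × ℝ → ℂ) (hκ : Integrable κ) : Integrable (cv κ) :=
  (integrand κ hκ).integral_prod_left

lemma cv_norm (κ : ℝ × ℝ → ℂ) (hκ : Integrable κ) :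
    ∫⁻ y, ‖cv κ y‖ₑ ≤ (∫⁻ w, ‖k2 w‖ₑ) * ∫⁻ w, ‖κ w‖ₑ := by
  calc ∫⁻ y, ‖cv κ y‖ₑ ≤ ∫⁻ y : ℝ × ℝ, ∫⁻ w : ℝ × ℝ, ‖k2 w * κ (y - w)‖ₑ :=
        lintegral_mono fun y => enorm_integral_le_lintegral_enorm _
    _ = ∫⁻ w : ℝ × ℝ, ∫⁻ y : ℝ × ℝ, ‖k2 w * κ (y - w)‖ₑ := by
        apply lintegral_lintegral_swap
        exact (integrand κ hκ).aestronglyMeasurable.enorm
    _ = ∫⁻ w : ℝ × ℝ, ‖k2 w‖ₑ * ∫⁻ y : ℝ × ℝ, ‖κ y‖ₑ := by
        congr 1
        funext w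
        have h1 : ∫⁻ y : ℝ × ℝ, ‖k2 w * κ (y - w)‖ₑ = ∫⁻ y : ℝ × ℝ, ‖k2 w‖ₑ * ‖κ (y - w)‖ₑ := by
          congr 1
          funext y
          rw [enorm_mul]
        rw [h1, lintegral_const_mul' _ _ enorm_ne_top,
          lintegral_sub_right_eq_self (fun y => ‖κ y‖ₑ) w]
    _ = (∫⁻ w, ‖k2 w‖ₑ) * ∫⁻ w, ‖κ w‖ₑ := by
        rw [lintegral_mul_const']
        exact hκ.2.ne

lemma cv_eq (κ : ℝ × ℝ → ℂ) (hκ : Integrable κ) (x : ℝ × ℝ) :
    ∫ y : ℝ × ℝ, u (-(y.1 * x.1 + y.2 * x.2)) * cv κ y =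
      (∫ w : ℝ × ℝ, u (-(w.1 * x.1 + w.2 * x.2)) * k2 w) *
        ∫ w : ℝ × ℝ, u (-(w.1 * x.1 + w.2 * x.2)) * κ w := by
  have hint : Integrable (fun p : (ℝ × ℝ) × (ℝ × ℝ) =>
      u (-(p.1.1 * x.1 + p.1.2 * x.2)) * (k2 p.2 * κ (p.1 - p.2)))
      ((volume : Measure (ℝ × ℝ)).prod volume) := by
    apply (integrand κ hκ).bdd_mul (c := 1)
    · exact (continuous_u.comp (by fun_prop)).aestronglyMeasurable
    · exact Eventually.of_forall fun p => (norm_u _).le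
  calc ∫ y : ℝ × ℝ, u (-(y.1 * x.1 + y.2 * x.2)) * cv κ y
      = ∫ y : ℝ × ℝ, ∫ w : ℝ × ℝ, u (-(y.1 * x.1 + y.2 * x.2)) * (k2 w * κ (y - w)) := by
        congr 1
        funext y
        unfold cv
        rw [← integral_const_mul]
    _ = ∫ w : ℝ × ℝ, ∫ y : ℝ × ℝ, u (-(y.1 * x.1 + y.2 * x.2)) * (k2 w * κ (y - w)) :=
        integral_integral_swap hint
    _ = ∫ w : ℝ × ℝ, (u (-(w.1 * x.1 + w.2 * x.2)) * k2 w) *
        ∫ w : ℝ × ℝ, u (-(w.1 * x.1 + w.2 * x.2)) * κ w := by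
        congr 1
        funext w
        rw [← integral_sub_right_eq_self
          (fun y : ℝ × ℝ => u (-(y.1 * x.1 + y.2 * x.2)) * κ y) w, ← integral_const_mul]
        congr 1
        funext y
        have h : -(y.1 * x.1 + y.2 * x.2) =
            -(w.1 * x.1 + w.2 * x.2) + -((y - w).1 * x.1 + (y - w).2 * x.2) := by
          simp only [Prod.fst_sub, Prod.snd_sub]
          ring
        rw [h, u_add]
        ring
    _ = _ := integral_mul_const _ _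

end WIE_

open WIE_

/-- WIE: cut-offs -/
theorem p_WIE : T_WIE := by
  have hfin : ∫⁻ w, ‖k2 w‖ₑ ≠ ⊤ := k2_integrable.2.ne
  refine ⟨(∫⁻ w, ‖k2 w‖ₑ).toNNReal, ?_⟩
  rintro K χ ⟨κ, hκ, hK, hχ⟩ h0
  refine ⟨cv κ, cv_integrable κ hκ, ?_, ?_⟩
  · refine (cv_norm κ hκ).trans ?_
    rw [ENNReal.coe_mul, ENNReal.coe_toNNReal hfin]
    gcongr
  · intro x
    rw [cv_eq κ hκ x, gup_eq χ h0 x, k2_eq x, hχ x]

end Wey
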