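import Pool.Agent.Wey.Targets
import Pool.Agent.TriL.SUM

/-!
# MP_5ab805_an, exponential sums as partners of every function: assembly on the square (helper69)
-/

set_option autoImplicit false

namespace Wey

open MeasureTheory Set Filter
open scoped ENNReal NNReal Topology
open Pool.Agent.Restr (u E QQ enorm_u norm_u continuous_u measurable_u measurable_E L2_slice vol_QQ
  lin_q lin_2 eLpNorm_le_of_lin)
open TriL (Sq n2)

namespace ASM_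

/-! ### Slabs -/

theorem reorder {G : ℝ × ℝ × ℝ → ℝ≥0∞} (hG : Measurable G) :
    ∫⁻ ξ, G ξ = ∫⁻ t, ∫⁻ w : ℝ × ℝ, G (w.1, w.2, t) := by
  rw [Measure.volume_eq_prod (α := ℝ) (β := ℝ × ℝ), lintegral_prod_symm _ hG.aemeasurable]
  have hm1 : Measurable (fun y : ℝ × ℝ => ∫⁻ x, G (x, y)) :=
    Measurable.lintegral_prod_right' (f := fun q' : (ℝ × ℝ) × ℝ => G (q'.2, q'.1))
      (hG.comp (by fun_prop : Measurable fun q' : (ℝ × ℝ) × ℝ => (q'.2, q'.1)))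
  rw [Measure.volume_eq_prod, lintegral_prod_symm _ hm1.aemeasurable]
  refine lintegral_congr fun t => ?_
  have hm2 : Measurable (fun w : ℝ × ℝ => G (w.1, w.2, t)) := by fun_prop
  rw [lintegral_prod_symm _ hm2.aemeasurable]

theorem meas_Tk (k : ℕ) : MeasurableSet (Tk k) := by
  unfold Tk
  split_ifs
  · exact measurableSet_le (f := fun t : ℝ => |t|) (by fun_prop) measurable_const
  · exact (measurableSet_le (g := fun t : ℝ => |t|) measurable_const (by fun_prop)).inter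
      (measurableSet_le (f := fun t : ℝ => |t|) (by fun_prop) measurable_const)

theorem meas_Sl (k : ℕ) : MeasurableSet (Sl k) := by
  unfold Sl
  exact (meas_Tk k).preimage (by fun_prop : Measurable fun ξ : ℝ × ℝ × ℝ => ξ.2.2)

theorem vol_Tk (k : ℕ) : volume (Tk k) ≤ 4 * 2 ^ k := by
  unfold Tk
  split_ifs with h
  · subst h
    have e : {t : ℝ | |t| ≤ 2} = Icc (-2) 2 := by
      ext t
      simp [abs_le]
    rw [e, Real.volume_Icc]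
    norm_num
  · have e : {t : ℝ | 2 ^ k ≤ |t| ∧ |t| ≤ 2 ^ (k + 1)} ⊆
        Icc (2 ^ k) (2 ^ (k + 1)) ∪ Icc (-(2 ^ (k + 1))) (-(2 ^ k)) := by
      rintro t ⟨h1, h2⟩
      rcases le_total 0 t with h3 | h3
      · rw [abs_of_nonneg h3] at h1 h2
        exact Or.inl ⟨h1, h2⟩
      · rw [abs_of_nonpos h3] at h1 h2
        exact Or.inr ⟨by linarith, by linarith⟩
    refine (measure_mono e).trans ((measure_union_le _ _).trans ?_)
    rw [Real.volume_Icc, Real.volume_Icc]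
    have e1 : (2 : ℝ) ^ (k + 1) - 2 ^ k = 2 ^ k := by ring
    have e2 : (-(2 : ℝ) ^ k) - -(2 ^ (k + 1)) = 2 ^ k := by ring
    rw [e1, e2, ENNReal.ofReal_pow (by norm_num)]
    rw [show ENNReal.ofReal 2 = 2 by norm_num, ← two_mul]
    gcongr
    norm_num

theorem slab_L2 {f : ℝ × ℝ → ℂ} (hf : Measurable f) (k : ℕ) :
    ∫⁻ ξ in Sl k, ‖E f ξ‖ₑ ^ 2 ≤ 160 * 2 ^ k * n2 f := by
  have hm : Measurable (fun ξ => ‖E f ξ‖ₑ ^ 2) := (measurable_E hf).enorm.pow_const 2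
  rw [← lintegral_indicator (meas_Sl k), reorder (hm.indicator (meas_Sl k))]
  have h1 : ∀ t : ℝ, ∫⁻ w : ℝ × ℝ, (Sl k).indicator (fun ξ => ‖E f ξ‖ₑ ^ 2) (w.1, w.2, t) ≤
      (Tk k).indicator (fun _ => ENNReal.ofReal (4 * Real.pi ^ 2) * n2 f) t := by
    intro t
    by_cases ht : t ∈ Tk k
    · rw [indicator_of_mem ht]
      refine le_trans (lintegral_mono fun w => ?_) (L2_slice hf t)
      exact indicator_le_self _ _ _
    · rw [indicator_of_notMem ht]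
      have : ∀ w : ℝ × ℝ, (Sl k).indicator (fun ξ => ‖E f ξ‖ₑ ^ 2) (w.1, w.2, t) = 0 :=
        fun w => indicator_of_notMem (s := Sl k) (a := (w.1, w.2, t)) ht _
      simp [this]
  refine (lintegral_mono h1).trans ?_
  rw [lintegral_indicator (meas_Tk k), setLIntegral_const]
  have h2 : ENNReal.ofReal (4 * Real.pi ^ 2) ≤ 40 := by
    rw [show (40 : ℝ≥0∞) = ENNReal.ofReal 40 by norm_num]
    refine ENNReal.ofReal_le_ofReal ?_
    have h3 := Real.pi_lt_d2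
    have h4 := Real.pi_pos
    nlinarith
  calc ENNReal.ofReal (4 * Real.pi ^ 2) * n2 f * volume (Tk k)
      ≤ 40 * n2 f * (4 * 2 ^ k) := by
        gcongr
        exact vol_Tk k
    _ = 160 * 2 ^ k * n2 f := by ring

/-- Cauchy–Schwarz -/
theorem cs {α : Type*} [MeasurableSpace α] {μ : Measure α} {F G : α → ℝ≥0∞} (hF : AEMeasurable F μ)
    (hG : AEMeasurable G μ) : (∫⁻ x, F x * G x ∂μ) ^ 2 ≤ (∫⁻ x, F x ^ 2 ∂μ) * ∫⁻ x, G x ^ 2 ∂μ := by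
  have h := ENNReal.lintegral_mul_norm_pow_le (μ := μ) (f := fun x => F x ^ 2)
    (g := fun x => G x ^ 2) (hF.pow_const 2) (hG.pow_const 2) (p := 1 / 2) (q := 1 / 2)
    (by norm_num) (by norm_num) (by norm_num)
  have e : ∀ y : ℝ≥0∞, (y ^ 2) ^ (1 / 2 : ℝ) = y := by
    intro y
    rw [← ENNReal.rpow_natCast y 2, ← ENNReal.rpow_mul]
    norm_num
  have e' : ∀ y : ℝ≥0∞, (y ^ (1 / 2 : ℝ)) ^ 2 = y := by
    intro y
    rw [← ENNReal.rpow_natCast _ 2, ← ENNReal.rpow_mul]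
    norm_num
  simp only [e] at h
  calc (∫⁻ x, F x * G x ∂μ) ^ 2
      ≤ ((∫⁻ x, F x ^ 2 ∂μ) ^ (1 / 2 : ℝ) * (∫⁻ x, G x ^ 2 ∂μ) ^ (1 / 2 : ℝ)) ^ 2 := by gcongr
    _ = _ := by rw [mul_pow, e', e']

/-! ### The cut-off -/

theorem wi_cont {K : ℝ≥0} {χ : ℝ × ℝ → ℂ} (h : Wi K χ) : Continuous χ := by
  obtain ⟨κ, hκ, -, e⟩ := h
  have e' : χ = fun x => ∫ w : ℝ × ℝ, u (-(w.1 * x.1 + w.2 * x.2)) * κ w := funext e
  rw [e']
  refine continuous_of_dominated (bound := fun w => ‖κ w‖) (fun x => ?_)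
    (fun x => Eventually.of_forall fun w => ?_) hκ.norm (Eventually.of_forall fun w => ?_)
  · exact ((continuous_u.comp (by fun_prop)).aestronglyMeasurable).mul hκ.1
  · rw [norm_mul, norm_u, one_mul]
  · exact (continuous_u.comp (by fun_prop)).mul continuous_const

theorem wi_le {K : ℝ≥0} {χ : ℝ × ℝ → ℂ} (h : Wi K χ) (x : ℝ × ℝ) : ‖χ x‖ₑ ≤ K := by
  obtain ⟨κ, hκ, hK, e⟩ := h
  rw [e x]
  refine (enorm_integral_le_lintegral_enorm _).trans (le_trans (le_of_eq ?_) hK)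
  refine lintegral_congr fun w => ?_
  rw [enorm_mul, enorm_u, one_mul]

theorem Gs_meas (h : ℝ) (ψ : ℤ → ℝ) (s : Finset ℤ) (a : ℤ → ℂ) : Measurable (Gs h ψ s a) := by
  unfold Gs
  refine Finset.measurable_fun_sum _ fun n _ => ?_
  exact measurable_const.mul (measurable_u.comp (by fun_prop))

theorem sq_chi {K : ℝ≥0} {χ : ℝ × ℝ → ℂ} (h : Wi K χ) (h0 : ∀ x, x ∉ QQ → χ x = 0)
    (hh : ℝ) (ψ : ℤ → ℝ) (s : Finset ℤ) (a : ℤ → ℂ) : Sq (fun x => χ x * Gs hh ψ s a x) :=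
  ⟨(wi_cont h).measurable.mul (Gs_meas _ _ _ _), fun x hx => by
    simp only
    rw [h0 x hx, zero_mul]⟩

theorem meas_QQ : MeasurableSet QQ := measurableSet_Icc.prod measurableSet_Icc

/-- the norm of the second factor -/
theorem n2_chi {K : ℝ≥0} {χ : ℝ × ℝ → ℂ} (h : Wi K χ) (h0 : ∀ x, x ∉ QQ → χ x = 0)
    (hh : ℝ) (ψ : ℤ → ℝ) (s : Finset ℤ) (a : ℤ → ℂ) : n2 (fun x => χ x * Gs hh ψ s a x) ≤
      (K : ℝ≥0∞) ^ 2 * ∫⁻ x in QQ, ‖Gs hh ψ s a x‖ₑ ^ 2 := by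
  unfold n2
  have h1 : ∀ x, ‖χ x * Gs hh ψ s a x‖ₑ ^ 2 ≤
      QQ.indicator (fun x => (K : ℝ≥0∞) ^ 2 * ‖Gs hh ψ s a x‖ₑ ^ 2) x := by
    intro x
    by_cases hx : x ∈ QQ
    · rw [indicator_of_mem hx, enorm_mul, mul_pow]
      gcongr
      exact wi_le h x
    · rw [indicator_of_notMem hx, h0 x hx]
      simp
  refine (lintegral_mono h1).trans ?_
  rw [lintegral_indicator meas_QQ, lintegral_const_mul _ ((Gs_meas _ _ _ _).enorm.pow_const 2)]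

/-! ### The estimate on slabs -/

/-- the statement of CUT for fixed `ε` and `C` -/
def CutS (ε : ℝ) (C : ℝ≥0) : Prop := ∀ (m : ℕ) (h : ℝ) (ψ : ℤ → ℝ) (s : Finset ℤ)
  (a : ℤ → ℂ) (χ f : ℝ × ℝ → ℂ) (K : ℝ≥0) (N : ℝ≥0∞) (k : ℕ), 1 ≤ m → 1 ≤ h → Ann m h ψ s →
  Wi K χ → (∀ x, x ∉ QQ → χ x = 0) → Sq f → Integrable f → SQ h ψ s a f N →
  ∫⁻ ξ in Sl k, XX h ψ s a χ f ξ ^ 2 ≤
    C * (K : ℝ≥0∞) ^ 2 * m * ENNReal.ofReal (2 ^ ((-1 + ε) * k)) * N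

/-- the constant -/
noncomputable def cN (C K R : ℝ≥0) (m : ℕ) : ℝ≥0 :=
  (3 * NNReal.sqrt C + 480) * K * NNReal.sqrt m * R

theorem meas_XX {h : ℝ} {ψ : ℤ → ℝ} {s : Finset ℤ} {a : ℤ → ℂ} {χ f : ℝ × ℝ → ℂ} {K : ℝ≥0}
    (hW : Wi K χ) (h0 : ∀ x, x ∉ QQ → χ x = 0) (hf : Sq f) : Measurable (XX h ψ s a χ f) := by
  unfold XX
  exact (measurable_E hf.1).enorm.mul (measurable_E (sq_chi hW h0 h ψ s a).1).enorm

theorem slab1 {ε : ℝ} {C : ℝ≥0} (hC : CutS ε C) {m : ℕ} {h : ℝ} {ψ : ℤ → ℝ} {s : Finset ℤ}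
    {a : ℤ → ℂ} {χ f : ℝ × ℝ → ℂ} {K R : ℝ≥0} (hm : 1 ≤ m) (hh : 1 ≤ h) (hA : Ann m h ψ s)
    (hW : Wi K χ) (h0 : ∀ x, x ∉ QQ → χ x = 0) (hf : Sq f) (hi : Integrable f)
    (hS : SQ h ψ s a f (9 * (R : ℝ≥0∞) ^ 2)) (k : ℕ) :
    ∫⁻ ξ in Sl k, XX h ψ s a χ f ξ ^ 2 ≤
      (cN C K R m : ℝ≥0∞) ^ 2 * ENNReal.ofReal (2 ^ ((-1 + ε) * k)) := by
  refine (hC m h ψ s a χ f K _ k hm hh hA hW h0 hf hi hS).trans ?_
  have h1 : (C : ℝ≥0∞) * (K : ℝ≥0∞) ^ 2 * m * (9 * (R : ℝ≥0∞) ^ 2) ≤ (cN C K R m : ℝ≥0∞) ^ 2 := by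
    have h2 : C * K ^ 2 * m * (9 * R ^ 2) ≤ cN C K R m ^ 2 := by
      have h3 : C * K ^ 2 * m * (9 * R ^ 2) = (3 * NNReal.sqrt C * K * NNReal.sqrt m * R) ^ 2 := by
        rw [mul_pow, mul_pow, mul_pow, mul_pow, NNReal.sq_sqrt, NNReal.sq_sqrt]
        ring
      rw [h3]
      unfold cN
      gcongr
      exact le_self_add
    exact_mod_cast h2
  calc (C : ℝ≥0∞) * (K : ℝ≥0∞) ^ 2 * m * ENNReal.ofReal (2 ^ ((-1 + ε) * k)) *
        (9 * (R : ℝ≥0∞) ^ 2)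
      = (C : ℝ≥0∞) * (K : ℝ≥0∞) ^ 2 * m * (9 * (R : ℝ≥0∞) ^ 2) *
        ENNReal.ofReal (2 ^ ((-1 + ε) * k)) := by ring
    _ ≤ _ := by gcongr

theorem slab2 (C : ℝ≥0) {m : ℕ} {h : ℝ} {ψ : ℤ → ℝ} {s : Finset ℤ}
    {a : ℤ → ℂ} {χ f : ℝ × ℝ → ℂ} {K R : ℝ≥0} (hm : 1 ≤ m)
    (hW : Wi K χ) (h0 : ∀ x, x ∉ QQ → χ x = 0) (hf : Sq f) (hR : n2 f ≤ (R : ℝ≥0∞) ^ 2)
    (hG : n2 (fun x => χ x * Gs h ψ s a x) ≤ 9 * (K : ℝ≥0∞) ^ 2) (k : ℕ) :
    ∫⁻ ξ in Sl k, XX h ψ s a χ f ξ ≤ (cN C K R m : ℝ≥0∞) * 2 ^ k := by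
  have h1 : (∫⁻ ξ in Sl k, XX h ψ s a χ f ξ) ^ 2 ≤ (480 * K * R * 2 ^ k) ^ 2 := by
    unfold XX
    refine (cs (measurable_E hf.1).enorm.aemeasurable
      (measurable_E (sq_chi hW h0 h ψ s a).1).enorm.aemeasurable).trans ?_
    calc (∫⁻ ξ in Sl k, ‖E f ξ‖ₑ ^ 2) *
          ∫⁻ ξ in Sl k, ‖E (fun x => χ x * Gs h ψ s a x) ξ‖ₑ ^ 2
        ≤ (160 * 2 ^ k * n2 f) * (160 * 2 ^ k * n2 (fun x => χ x * Gs h ψ s a x)) :=
          mul_le_mul' (slab_L2 hf.1 k) (slab_L2 (sq_chi hW h0 h ψ s a).1 k)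
      _ ≤ (160 * 2 ^ k * (R : ℝ≥0∞) ^ 2) * (160 * 2 ^ k * (9 * (K : ℝ≥0∞) ^ 2)) := by gcongr
      _ = _ := by ring
  have h2 : ∫⁻ ξ in Sl k, XX h ψ s a χ f ξ ≤ 480 * K * R * 2 ^ k :=
    (ENNReal.pow_le_pow_left_iff two_ne_zero).1 h1
  refine h2.trans ?_
  have h3 : 480 * K * R ≤ cN C K R m := by
    unfold cN
    have h4 : (1 : ℝ≥0) ≤ NNReal.sqrt m := by
      rw [NNReal.le_sqrt_iff_sq_le]
      simpa using hm
    calc 480 * K * R = 480 * K * 1 * R := by ring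
      _ ≤ (3 * NNReal.sqrt C + 480) * K * NNReal.sqrt m * R := by
        gcongr
        exact le_add_self
  have h5 : (480 * K * R : ℝ≥0∞) ≤ (cN C K R m : ℝ≥0∞) := by exact_mod_cast h3
  gcongr

/-! ### Norms -/

theorem fin1 {r : ℝ} (hr : 0 < r) {C1 N : ℝ≥0} {h : ℝ} {ψ : ℤ → ℝ} {s : Finset ℤ}
    {a : ℤ → ℂ} {χ f : ℝ × ℝ → ℂ}
    (hb : ∫⁻ ξ, XX h ψ s a χ f ξ ^ r ≤ C1 * (N : ℝ≥0∞) ^ r) :
    eLpNorm (fun ξ => E f ξ * E (fun x => χ x * Gs h ψ s a x) ξ) (ENNReal.ofReal r) volume ≤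
      ((C1 ^ (1 / r) : ℝ≥0) : ℝ≥0∞) * N := by
  refine eLpNorm_le_of_lin hr ?_
  have e : ∀ ξ, ‖E f ξ * E (fun x => χ x * Gs h ψ s a x) ξ‖ₑ ^ r = XX h ψ s a χ f ξ ^ r := by
    intro ξ
    unfold XX
    rw [enorm_mul]
  simp only [e]
  refine hb.trans (le_of_eq ?_)
  rw [ENNReal.mul_rpow_of_nonneg _ _ hr.le, ENNReal.coe_rpow_of_nonneg _ (by positivity),
    ← ENNReal.rpow_mul, one_div_mul_cancel hr.ne', ENNReal.rpow_one]

theorem fin2 {r : ℝ} (hr : 0 < r) {C1 N : ℝ≥0} {h : ℝ} {ψ : ℤ → ℝ} {s : Finset ℤ}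
    {a : ℤ → ℂ} {χ f g : ℝ × ℝ → ℂ}
    (hb : ∫⁻ ξ, (XX h ψ s a χ f ξ * ‖E g ξ‖ₑ) ^ r ≤ C1 * (N : ℝ≥0∞) ^ r * n2 g ^ (r / 2)) :
    eLpNorm (fun ξ => E f ξ * E g ξ * E (fun x => χ x * Gs h ψ s a x) ξ)
      (ENNReal.ofReal r) volume ≤ ((C1 ^ (1 / r) : ℝ≥0) : ℝ≥0∞) * N * eLpNorm g 2 volume := by
  refine eLpNorm_le_of_lin hr ?_
  have e : ∀ ξ, ‖E f ξ * E g ξ * E (fun x => χ x * Gs h ψ s a x) ξ‖ₑ ^ r =
      (XX h ψ s a χ f ξ * ‖E g ξ‖ₑ) ^ r := by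
    intro ξ
    unfold XX
    rw [enorm_mul, enorm_mul]
    congr 1
    ring
  simp only [e]
  refine hb.trans (le_of_eq ?_)
  have e2 : n2 g = eLpNorm g 2 volume ^ 2 := lin_2
  rw [ENNReal.mul_rpow_of_nonneg _ _ hr.le, ENNReal.mul_rpow_of_nonneg _ _ hr.le,
    ENNReal.coe_rpow_of_nonneg _ (by positivity),
    ← ENNReal.rpow_mul, one_div_mul_cancel hr.ne', ENNReal.rpow_one, e2,
    ← ENNReal.rpow_natCast (eLpNorm g 2 volume) 2, ← ENNReal.rpow_mul]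
  congr 2
  push_cast
  ring

theorem n2_le_one {f : ℝ × ℝ → ℂ} (hf : Sq f) (h1 : ∀ x, ‖f x‖ ≤ 1) : n2 f ≤ 1 := by
  have h2 : ∀ x, ‖f x‖ₑ ^ 2 ≤ QQ.indicator (fun _ => (1 : ℝ≥0∞)) x := by
    intro x
    by_cases hx : x ∈ QQ
    · rw [indicator_of_mem hx]
      have h3 : ‖f x‖ₑ ≤ 1 := by
        rw [← ofReal_norm]
        exact ENNReal.ofReal_le_one.2 (h1 x)
      exact pow_le_one₀ zero_le h3
    · rw [hf.2 x hx]
      simp
  unfold n2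
  refine (lintegral_mono h2).trans ?_
  rw [lintegral_indicator meas_QQ, setLIntegral_const, vol_QQ, one_mul]

theorem SQ_mono {h : ℝ} {ψ : ℤ → ℝ} {s : Finset ℤ} {a : ℤ → ℂ} {f : ℝ × ℝ → ℂ} {N N' : ℝ≥0∞}
    (hN : N ≤ N') (hS : SQ h ψ s a f N) : SQ h ψ s a f N' :=
  ⟨fun i => (hS.1 i).trans (by gcongr), fun n hn => (hS.2 n hn).trans hN⟩

theorem E_zero_of_ae {g : ℝ × ℝ → ℂ} (hg : g =ᵐ[volume] 0) (ξ : ℝ × ℝ × ℝ) : E g ξ = 0 := by
  unfold E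
  rw [← integral_zero (ℝ × ℝ) ℂ (μ := volume)]
  refine integral_congr_ae ?_
  filter_upwards [hg] with x hx
  rw [hx]
  simp

end ASM_

open ASM_ in
theorem p_ASM (h1 : T_CUT) (h2 : T_SQA) (h3 : T_SQB) (h4 : T_IN1) (h5 : T_IN2) : T_ASM := by
  intro q hq hq4
  obtain ⟨ε1, hε1, C1, hC1⟩ := h4 (q / 2) (by linarith) (by linarith)
  obtain ⟨ε2, hε2, C2, hC2⟩ := h5 (q / 3) (by linarith) (by linarith)
  obtain ⟨D1, hD1⟩ := h1 ε1 hε1
  obtain ⟨D2, hD2⟩ := h1 ε2 hε2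
  set C : ℝ≥0 := C1 ^ (1 / (q / 2)) * (3 * NNReal.sqrt D1 + 480) +
    C2 ^ (1 / (q / 3)) * (3 * NNReal.sqrt D2 + 480) + 1 with hC
  refine ⟨C, ?_⟩
  intro m h ψ s a χ K hm hh hA hW h0
  have hCa : C1 ^ (1 / (q / 2)) * (3 * NNReal.sqrt D1 + 480) ≤ C := by
    rw [hC, add_assoc]
    exact le_self_add
  have hCb : C2 ^ (1 / (q / 3)) * (3 * NNReal.sqrt D2 + 480) ≤ C := by
    rw [hC, add_assoc, add_left_comm]
    exact le_self_add
  have hC0 : (C : ℝ≥0∞) ≠ 0 := by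
    have : C ≠ 0 := by
      rw [hC]
      positivity
    exact_mod_cast this
  have hm0 : ((NNReal.sqrt m : ℝ≥0) : ℝ≥0∞) ≠ 0 := by
    have : NNReal.sqrt m ≠ 0 := by
      rw [Ne, NNReal.sqrt_eq_zero]
      exact_mod_cast (by omega : m ≠ 0)
    exact_mod_cast this
  -- the general case
  have main : ∀ (f : ℝ × ℝ → ℂ) (R : ℝ≥0), Sq f → n2 f ≤ (R : ℝ≥0∞) ^ 2 →
      SQ h ψ s a f (9 * (R : ℝ≥0∞) ^ 2) →
      n2 (fun x => χ x * Gs h ψ s a x) ≤ 9 * (K : ℝ≥0∞) ^ 2 →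
      eLpNorm (fun ξ => E f ξ * E (fun x => χ x * Gs h ψ s a x) ξ)
        (ENNReal.ofReal (q / 2)) volume ≤ C * K * NNReal.sqrt m * R ∧
      ∀ g : ℝ × ℝ → ℂ, Sq g →
        eLpNorm (fun ξ => E f ξ * E g ξ * E (fun x => χ x * Gs h ψ s a x) ξ)
        (ENNReal.ofReal (q / 3)) volume ≤ C * K * NNReal.sqrt m * R * eLpNorm g 2 volume := by
    intro f R hf hR hS hG
    have hi : Integrable f := TriL.SUM_.integrable_of_Sq hf
      (ne_top_of_le_ne_top (by finiteness) hR)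
    constructor
    · have hb := hC1 (XX h ψ s a χ f) (cN D1 K R m) (meas_XX hW h0 hf)
        (slab1 hD1 hm hh hA hW h0 hf hi hS) (slab2 D1 hm hW h0 hf hR hG)
      refine (fin1 (by linarith) hb).trans ?_
      have e : C1 ^ (1 / (q / 2)) * cN D1 K R m ≤ C * K * NNReal.sqrt m * R := by
        calc C1 ^ (1 / (q / 2)) * cN D1 K R m
            = C1 ^ (1 / (q / 2)) * (3 * NNReal.sqrt D1 + 480) * K * NNReal.sqrt m * R := by
              unfold cN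
              ring
          _ ≤ _ := by gcongr
      exact_mod_cast e
    · intro g hg
      have hb := hC2 (XX h ψ s a χ f) (cN D2 K R m) g (meas_XX hW h0 hf) hg.1
        (slab1 hD2 hm hh hA hW h0 hf hi hS)
      refine (fin2 (by linarith) hb).trans ?_
      have e : C2 ^ (1 / (q / 3)) * cN D2 K R m ≤ C * K * NNReal.sqrt m * R := by
        calc C2 ^ (1 / (q / 3)) * cN D2 K R m
            = C2 ^ (1 / (q / 3)) * (3 * NNReal.sqrt D2 + 480) * K * NNReal.sqrt m * R := by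
              unfold cN
              ring
          _ ≤ _ := by gcongr
      have e' : ((C2 ^ (1 / (q / 3)) : ℝ≥0) : ℝ≥0∞) * (cN D2 K R m : ℝ≥0∞) ≤
          C * K * NNReal.sqrt m * R := by exact_mod_cast e
      exact mul_le_mul_left e' _
  constructor
  · -- bounded exponential sum
    intro hB f hf
    have hG : n2 (fun x => χ x * Gs h ψ s a x) ≤ 9 * (K : ℝ≥0∞) ^ 2 := by
      refine (n2_chi hW h0 h ψ s a).trans ?_
      have h6 : ∫⁻ x in QQ, ‖Gs h ψ s a x‖ₑ ^ 2 ≤ ∫⁻ _ in QQ, 1 := by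
        refine setLIntegral_mono' meas_QQ fun x hx => ?_
        have h7 : ‖Gs h ψ s a x‖ₑ ≤ 1 := by
          rw [← ofReal_norm]
          exact ENNReal.ofReal_le_one.2 (hB x (abs_le.2 hx.2))
        exact pow_le_one₀ zero_le h7
      rw [setLIntegral_const, vol_QQ, one_mul] at h6
      calc (K : ℝ≥0∞) ^ 2 * ∫⁻ x in QQ, ‖Gs h ψ s a x‖ₑ ^ 2 ≤ (K : ℝ≥0∞) ^ 2 * 9 := by
            gcongr
            exact h6.trans (by norm_num)
        _ = _ := mul_comm _ _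
    by_cases hfin : eLpNorm f 2 volume = ⊤
    · by_cases hK : K = 0
      · -- everything vanishes
        have hχ : ∀ x, χ x = 0 := by
          intro x
          have := wi_le hW x
          rw [hK, ENNReal.coe_zero, nonpos_iff_eq_zero, enorm_eq_zero] at this
          exact this
        have hE : ∀ ξ, E (fun x => χ x * Gs h ψ s a x) ξ = 0 := fun ξ =>
          E_zero_of_ae (Eventually.of_forall fun x => by simp [hχ x]) ξ
        refine ⟨?_, fun g _ => ?_⟩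
        · simp [hE]
        · simp [hE]
      · have hK' : (K : ℝ≥0∞) ≠ 0 := by exact_mod_cast hK
        have htop : (C : ℝ≥0∞) * K * NNReal.sqrt m * eLpNorm f 2 volume = ⊤ := by
          rw [hfin]
          exact ENNReal.mul_top (mul_ne_zero (mul_ne_zero hC0 hK') hm0)
        refine ⟨?_, fun g hg => ?_⟩
        · rw [htop]
          exact le_top
        · by_cases hg0 : eLpNorm g 2 volume = 0
          · have hg1 : g =ᵐ[volume] 0 := by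
              rwa [eLpNorm_eq_zero_iff hg.1.aestronglyMeasurable (by norm_num)] at hg0
            have hE : ∀ ξ, E g ξ = 0 := fun ξ => E_zero_of_ae hg1 ξ
            simp [hE]
          · rw [htop, ENNReal.top_mul hg0]
            exact le_top
    · have hR : ((eLpNorm f 2 volume).toNNReal : ℝ≥0∞) = eLpNorm f 2 volume :=
        ENNReal.coe_toNNReal hfin
      have e2 : n2 f = eLpNorm f 2 volume ^ 2 := lin_2
      have h6 := main f (eLpNorm f 2 volume).toNNReal hf (by rw [hR, e2])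
        (by rw [hR, ← e2]; exact h2 h ψ s a f hh hf hB) hG
      rw [hR] at h6
      exact h6
  · intro ha f hf hf1
    obtain ⟨h6, h7⟩ := h3 h ψ s a f 1 hh hf (by simpa using hf1)
    have ha' : ∑ n ∈ s, ‖a n‖ₑ ^ 2 ≤ 1 := by
      have e : ∑ n ∈ s, ‖a n‖ₑ ^ 2 = ENNReal.ofReal (∑ n ∈ s, ‖a n‖ ^ 2) := by
        rw [ENNReal.ofReal_sum_of_nonneg fun n _ => by positivity]
        refine Finset.sum_congr rfl fun n _ => ?_
        rw [ENNReal.ofReal_pow (norm_nonneg _), ofReal_norm]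
      rw [e]
      exact ENNReal.ofReal_le_one.2 ha
    have hG : n2 (fun x => χ x * Gs h ψ s a x) ≤ 9 * (K : ℝ≥0∞) ^ 2 := by
      refine (n2_chi hW h0 h ψ s a).trans ?_
      calc (K : ℝ≥0∞) ^ 2 * ∫⁻ x in QQ, ‖Gs h ψ s a x‖ₑ ^ 2 ≤ (K : ℝ≥0∞) ^ 2 * (8 * 1) := by
            gcongr
            exact h7.trans (by gcongr)
        _ ≤ (K : ℝ≥0∞) ^ 2 * 9 := by
            gcongr
            norm_num
        _ = _ := mul_comm _ _
    have hSQ : SQ h ψ s a f (9 * ((1 : ℝ≥0) : ℝ≥0∞) ^ 2) := by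
      refine SQ_mono ?_ h6
      simp only [ENNReal.coe_one, one_pow, mul_one]
      calc 8 * ∑ n ∈ s, ‖a n‖ₑ ^ 2 ≤ 8 * 1 := by gcongr
        _ ≤ 9 := by norm_num
    have h8 := main f 1 hf (by simpa using n2_le_one hf hf1) hSQ hG
    simpa using h8

end Wey
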