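import Pool.Agent.Wey.Targets
import Pool.Agent.Restr.Blocks

/-!
# MP_5ab805_an, exponential sums as partners of every function: summation, trilinear form
(helper38)
-/

set_option autoImplicit false

namespace Wey

open MeasureTheory Set Filter
open scoped ENNReal NNReal Topology
open Pool.Agent.Restr (u E QQ measurable_E L2_slice tomas_stein)
open TriL (Sq n2)

theorem IN2_meas_Tk (k : ℕ) : MeasurableSet (Tk k) := by
  unfold Tk
  split_ifs
  · exact measurableSet_le continuous_abs.measurable measurable_const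
  · exact (measurableSet_le measurable_const continuous_abs.measurable).inter
      (measurableSet_le continuous_abs.measurable measurable_const)

theorem IN2_meas_Sl (k : ℕ) : MeasurableSet (Sl k) :=
  (by fun_prop : Measurable fun ξ : ℝ × ℝ × ℝ => ξ.2.2) (IN2_meas_Tk k)

theorem IN2_union : (⋃ k : ℕ, Sl k) = univ := by
  refine eq_univ_of_forall fun ξ => ?_
  rw [mem_iUnion]
  by_cases h : |ξ.2.2| ≤ 2
  · exact ⟨0, by simp [Sl, Tk, h]⟩
  · push Not at h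
    obtain ⟨n, hn1, hn2⟩ := exists_nat_pow_near (x := |ξ.2.2|) (y := 2) (by linarith)
      (by norm_num)
    refine ⟨n, ?_⟩
    have hn : n ≠ 0 := by
      rintro rfl
      norm_num at hn2
      linarith
    simp only [Sl, Tk, hn, if_false, mem_ofPred_eq]
    exact ⟨hn1, hn2.le⟩

theorem IN2_vol_Tk (k : ℕ) : volume (Tk k) ≤ ENNReal.ofReal (4 * 2 ^ k) := by
  have h1 : Tk k ⊆ Icc (-(2 * (2:ℝ) ^ k)) (2 * (2:ℝ) ^ k) := by
    intro t ht
    unfold Tk at ht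
    split_ifs at ht with h
    · subst h
      have : |t| ≤ 2 := ht
      rw [pow_zero, mul_one]
      exact abs_le.1 this
    · have h2 : |t| ≤ 2 ^ (k + 1) := ht.2
      rw [pow_succ] at h2
      rw [mul_comm]
      exact abs_le.1 h2
  refine (measure_mono h1).trans ?_
  rw [Real.volume_Icc]
  apply ENNReal.ofReal_le_ofReal
  linarith

theorem IN2_fub {Φ : ℝ × ℝ × ℝ → ℝ≥0∞} (hΦ : Measurable Φ) :
    ∫⁻ ξ, Φ ξ = ∫⁻ t, ∫⁻ b, ∫⁻ a, Φ (a, b, t) := by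
  rw [Measure.volume_eq_prod (α := ℝ) (β := ℝ × ℝ), lintegral_prod_symm _ hΦ.aemeasurable]
  have hm1 : Measurable (fun y : ℝ × ℝ => ∫⁻ x, Φ (x, y)) :=
    Measurable.lintegral_prod_right' (f := fun q : (ℝ × ℝ) × ℝ => Φ (q.2, q.1))
      (hΦ.comp (by fun_prop : Measurable fun q : (ℝ × ℝ) × ℝ => (q.2, q.1)))
  rw [Measure.volume_eq_prod, lintegral_prod_symm _ hm1.aemeasurable]

theorem IN2_L2 {f : ℝ × ℝ → ℂ} (hf : Measurable f) (k : ℕ) :
    ∫⁻ ξ in Sl k, ‖E f ξ‖ₑ ^ 2 ≤ ENNReal.ofReal (16 * Real.pi ^ 2 * 2 ^ k) * n2 f := by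
  have hN : Measurable (fun p => ‖E f p‖ₑ ^ 2) := (measurable_E hf).enorm.pow_const 2
  rw [← lintegral_indicator (IN2_meas_Sl k), IN2_fub (hN.indicator (IN2_meas_Sl k))]
  calc ∫⁻ t, ∫⁻ b, ∫⁻ a, (Sl k).indicator (fun p => ‖E f p‖ₑ ^ 2) (a, b, t)
      ≤ ∫⁻ t, (Tk k).indicator (fun _ => ENNReal.ofReal (4 * Real.pi ^ 2) * n2 f) t := by
        refine lintegral_mono fun t => ?_
        by_cases ht : t ∈ Tk k
        · rw [indicator_of_mem ht]
          have e : ∀ a b : ℝ, (Sl k).indicator (fun p => ‖E f p‖ₑ ^ 2) (a, b, t) =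
              ‖E f (a, b, t)‖ₑ ^ 2 := fun a b => indicator_of_mem (by exact ht) _
          simp only [e]
          refine le_trans (le_of_eq ?_) (L2_slice hf t)
          have hm : Measurable (fun w : ℝ × ℝ => ‖E f (w.1, w.2, t)‖ₑ ^ 2) := hN.comp
            (by fun_prop : Measurable fun w : ℝ × ℝ => (w.1, w.2, t))
          rw [Measure.volume_eq_prod, lintegral_prod_symm _ hm.aemeasurable]
        · have e : ∀ a b : ℝ, (Sl k).indicator (fun p => ‖E f p‖ₑ ^ 2) (a, b, t) = 0 :=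
            fun a b => indicator_of_notMem (by exact ht) _
          simp only [e, lintegral_zero, zero_le]
    _ = (ENNReal.ofReal (4 * Real.pi ^ 2) * n2 f) * volume (Tk k) := by
        rw [lintegral_indicator (IN2_meas_Tk k), setLIntegral_const]
    _ ≤ (ENNReal.ofReal (4 * Real.pi ^ 2) * n2 f) * ENNReal.ofReal (4 * 2 ^ k) := by
        gcongr
        exact IN2_vol_Tk k
    _ = _ := by
        rw [mul_right_comm, ← ENNReal.ofReal_mul (by positivity)]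
        congr 2
        ring

theorem IN2_L4 {f : ℝ × ℝ → ℂ} (hf : Measurable f) (k : ℕ) :
    ∫⁻ ξ in Sl k, ‖E f ξ‖ₑ ^ 4 ≤ ENNReal.ofReal (4 * Real.pi ^ 4) * n2 f ^ 2 :=
  (setLIntegral_le_lintegral _ _).trans (tomas_stein hf)

theorem IN2_slab {r ε : ℝ} (hr : 1 < r) (hr2 : r < 4 / 3) (X : ℝ × ℝ × ℝ → ℝ≥0∞) (N : ℝ≥0)
    (f : ℝ × ℝ → ℂ) (hX : Measurable X) (hf : Measurable f) (k : ℕ)
    (h2 : ∫⁻ ξ in Sl k, X ξ ^ 2 ≤ (N : ℝ≥0∞) ^ 2 * ENNReal.ofReal (2 ^ ((-1 + ε) * k))) :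
    ∫⁻ ξ in Sl k, (X ξ * ‖E f ξ‖ₑ) ^ r ≤
      ENNReal.ofReal ((16 * Real.pi ^ 2) ^ (2 - 3 * r / 2) * (4 * Real.pi ^ 4) ^ (r - 1)) *
      ENNReal.ofReal (2 ^ ((2 - 2 * r + ε * r / 2) * k)) * ((N : ℝ≥0∞) ^ r * n2 f ^ (r / 2)) := by
  have hE : Measurable (fun ξ => ‖E f ξ‖ₑ) := (measurable_E hf).enorm
  have ha : 0 ≤ r / 2 := by linarith
  have hb : 0 ≤ 2 - 3 * r / 2 := by linarith
  have hc : 0 ≤ r - 1 := by linarith
  have key := ENNReal.lintegral_prod_norm_pow_le (μ := volume.restrict (Sl k))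
    (s := (Finset.univ : Finset (Fin 3)))
    (f := ![fun ξ => X ξ ^ 2, fun ξ => ‖E f ξ‖ₑ ^ 2, fun ξ => ‖E f ξ‖ₑ ^ 4])
    (p := ![r / 2, 2 - 3 * r / 2, r - 1])
    (by
      intro i _
      fin_cases i
      · exact (hX.pow_const 2).aemeasurable
      · exact (hE.pow_const 2).aemeasurable
      · exact (hE.pow_const 4).aemeasurable)
    (by
      simp only [Fin.sum_univ_three, Matrix.cons_val_zero, Matrix.cons_val_one,
        Matrix.cons_val_two, Matrix.head_cons, Matrix.tail_cons]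
      ring)
    (by
      intro i _
      fin_cases i
      · exact ha
      · exact hb
      · exact hc)
  simp only [Fin.prod_univ_three, Matrix.cons_val_zero, Matrix.cons_val_one,
    Matrix.cons_val_two, Matrix.head_cons, Matrix.tail_cons] at key
  have e1 : ∀ ξ, (X ξ * ‖E f ξ‖ₑ) ^ r =
      (X ξ ^ 2) ^ (r / 2) * (‖E f ξ‖ₑ ^ 2) ^ (2 - 3 * r / 2) * (‖E f ξ‖ₑ ^ 4) ^ (r - 1) := by
    intro ξ
    rw [ENNReal.mul_rpow_of_nonneg _ _ (by linarith), ← ENNReal.rpow_natCast (X ξ) 2,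
      ← ENNReal.rpow_natCast _ 2, ← ENNReal.rpow_natCast _ 4, ← ENNReal.rpow_mul,
      ← ENNReal.rpow_mul, ← ENNReal.rpow_mul, mul_assoc,
      ← ENNReal.rpow_add_of_nonneg _ _ (by positivity) (by positivity)]
    congr 2
    · push_cast; ring
    · push_cast; ring
  simp only [e1]
  refine key.trans ?_
  have g1 := ENNReal.rpow_le_rpow h2 ha
  have g2 := ENNReal.rpow_le_rpow (IN2_L2 hf k) hb
  have g3 := ENNReal.rpow_le_rpow (IN2_L4 hf k) hc
  refine (mul_le_mul' (mul_le_mul' g1 g2) g3).trans (le_of_eq ?_)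
  have p1 : (0:ℝ) ≤ 16 * Real.pi ^ 2 * 2 ^ k := by positivity
  have p2 : (0:ℝ) ≤ 4 * Real.pi ^ 4 := by positivity
  have p3 : (0:ℝ) ≤ 2 ^ ((-1 + ε) * k) := by positivity
  rw [ENNReal.mul_rpow_of_nonneg _ _ ha, ENNReal.mul_rpow_of_nonneg _ _ hb,
    ENNReal.mul_rpow_of_nonneg _ _ hc, ENNReal.ofReal_rpow_of_nonneg p1 hb,
    ENNReal.ofReal_rpow_of_nonneg p2 hc, ENNReal.ofReal_rpow_of_nonneg p3 ha]
  have q1 : ((N : ℝ≥0∞) ^ 2) ^ (r / 2) = (N : ℝ≥0∞) ^ r := by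
    rw [← ENNReal.rpow_natCast, ← ENNReal.rpow_mul]
    congr 1
    push_cast; ring
  have q2 : n2 f ^ (2 - 3 * r / 2) * (n2 f ^ 2) ^ (r - 1) = n2 f ^ (r / 2) := by
    rw [← ENNReal.rpow_natCast, ← ENNReal.rpow_mul,
      ← ENNReal.rpow_add_of_nonneg _ _ hb (by positivity)]
    congr 1
    push_cast; ring
  have q3 : ((2:ℝ) ^ ((-1 + ε) * k)) ^ (r / 2) * (16 * Real.pi ^ 2 * 2 ^ k) ^ (2 - 3 * r / 2) *
      (4 * Real.pi ^ 4) ^ (r - 1) =
      ((16 * Real.pi ^ 2) ^ (2 - 3 * r / 2) * (4 * Real.pi ^ 4) ^ (r - 1)) *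
        2 ^ ((2 - 2 * r + ε * r / 2) * k) := by
    rw [Real.mul_rpow (by positivity) (by positivity), ← Real.rpow_mul (by norm_num),
      ← Real.rpow_natCast 2 k, ← Real.rpow_mul (by norm_num)]
    have : (2:ℝ) ^ ((2 - 2 * r + ε * r / 2) * k) =
        2 ^ ((-1 + ε) * k * (r / 2)) * 2 ^ ((k:ℝ) * (2 - 3 * r / 2)) := by
      rw [← Real.rpow_add (by norm_num)]
      congr 1
      ring
    rw [this]
    ring
  calc (N ^ 2 : ℝ≥0∞) ^ (r / 2) * ENNReal.ofReal ((2 ^ ((-1 + ε) * k)) ^ (r / 2)) *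
        (ENNReal.ofReal ((16 * Real.pi ^ 2 * 2 ^ k) ^ (2 - 3 * r / 2)) *
          n2 f ^ (2 - 3 * r / 2)) *
        (ENNReal.ofReal ((4 * Real.pi ^ 4) ^ (r - 1)) * (n2 f ^ 2) ^ (r - 1))
      = (ENNReal.ofReal ((2 ^ ((-1 + ε) * k)) ^ (r / 2)) *
          ENNReal.ofReal ((16 * Real.pi ^ 2 * 2 ^ k) ^ (2 - 3 * r / 2)) *
          ENNReal.ofReal ((4 * Real.pi ^ 4) ^ (r - 1))) *
          ((N ^ 2 : ℝ≥0∞) ^ (r / 2) * (n2 f ^ (2 - 3 * r / 2) * (n2 f ^ 2) ^ (r - 1))) := by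
        ring
    _ = _ := by
        rw [q1, q2, ← ENNReal.ofReal_mul (by positivity), ← ENNReal.ofReal_mul (by positivity),
          q3, ENNReal.ofReal_mul (by positivity)]

/-- summation, trilinear form -/
theorem p_IN2 : T_IN2 := by
  intro r hr hr2
  set ε : ℝ := 2 * (r - 1) / r with hε
  have hε0 : 0 < ε := by
    rw [hε]
    apply div_pos <;> linarith
  set K0 : ℝ := (16 * Real.pi ^ 2) ^ (2 - 3 * r / 2) * (4 * Real.pi ^ 4) ^ (r - 1) with hK0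
  have hK0p : 0 ≤ K0 := by positivity
  set y : ℝ := 2 ^ (1 - r) with hy
  have hy0 : 0 ≤ y := by positivity
  have hy1 : y < 1 := Real.rpow_lt_one_of_one_lt_of_neg (by norm_num) (by linarith)
  have hexp : 2 - 2 * r + ε * r / 2 = 1 - r := by
    rw [hε]
    field_simp
    ring
  have hgeo : ∑' k : ℕ, ENNReal.ofReal (2 ^ ((2 - 2 * r + ε * r / 2) * k)) =
      ENNReal.ofReal ((1 - y)⁻¹) := by
    have e : ∀ k : ℕ, (2:ℝ) ^ ((2 - 2 * r + ε * r / 2) * k) = y ^ k := by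
      intro k
      rw [hexp, Real.rpow_mul (by norm_num), Real.rpow_natCast]
    simp only [e]
    rw [← ENNReal.ofReal_tsum_of_nonneg (fun k => pow_nonneg hy0 k)
      (summable_geometric_of_lt_one hy0 hy1), tsum_geometric_of_lt_one hy0 hy1]
  refine ⟨ε, hε0, (K0 * (1 - y)⁻¹).toNNReal, ?_⟩
  intro X N f hX hf h2
  have hu : ∫⁻ ξ, (X ξ * ‖E f ξ‖ₑ) ^ r = ∫⁻ ξ in ⋃ k : ℕ, Sl k, (X ξ * ‖E f ξ‖ₑ) ^ r := by
    rw [IN2_union, setLIntegral_univ]
  rw [hu]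
  refine (lintegral_iUnion_le _ _).trans ?_
  refine (ENNReal.tsum_le_tsum fun k => IN2_slab hr hr2 X N f hX hf k (h2 k)).trans ?_
  rw [ENNReal.tsum_mul_right, ENNReal.tsum_mul_left, hgeo, ← ENNReal.ofReal_mul hK0p,
    ← mul_assoc (ENNReal.ofReal _)]
  exact le_rfl

end Wey
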