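import Pool.Agent.Wey.Targets

/-!
# MP_5ab805_an, exponential sums as partners of every function: windows and dyadic intervals
(helper65)
-/

set_option autoImplicit false

namespace Wey

open MeasureTheory Set Filter
open scoped ENNReal NNReal Topology

namespace DYA_

/-- Cauchy-Schwarz -/
theorem cs {ι : Type*} (D : Finset ι) (b : ι → ℂ) (K : ℕ) (hK : D.card ≤ K) :
    ‖∑ d ∈ D, b d‖ₑ ^ 2 ≤ (K : ℝ≥0∞) * ∑ d ∈ D, ‖b d‖ₑ ^ 2 := by
  have h0 : (0 : ℝ) ≤ ∑ d ∈ D, ‖b d‖ ^ 2 := Finset.sum_nonneg fun d _ => by positivity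
  have h1 : ‖∑ d ∈ D, b d‖ ^ 2 ≤ (K : ℝ) * ∑ d ∈ D, ‖b d‖ ^ 2 := by
    calc ‖∑ d ∈ D, b d‖ ^ 2 ≤ (∑ d ∈ D, ‖b d‖) ^ 2 := by
          gcongr
          exact norm_sum_le _ _
      _ ≤ D.card * ∑ d ∈ D, ‖b d‖ ^ 2 := sq_sum_le_card_mul_sum_sq
      _ ≤ _ := by
          gcongr
  have h2 : ∀ x : ℂ, ‖x‖ₑ ^ 2 = ENNReal.ofReal (‖x‖ ^ 2) := by
    intro x
    rw [← ofReal_norm_eq_enorm, ENNReal.ofReal_pow (norm_nonneg _)]
  rw [h2]
  simp_rw [h2]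
  rw [← ENNReal.ofReal_sum_of_nonneg (fun d _ => by positivity), ← ENNReal.ofReal_natCast,
    ← ENNReal.ofReal_mul (Nat.cast_nonneg _)]
  exact ENNReal.ofReal_le_ofReal h1

/-- the first coordinate of a point of the window -/
theorem loc {h : ℝ} (hh : 1 ≤ h) {ψ : ℤ → ℝ} {σ : ℝ × ℝ} {M : ℝ} {n : ℤ}
    (hn : nu h ψ σ n ≤ M) : |(n : ℝ) - σ.1 / (2 * h)| ≤ √M / 2 := by
  have h0 : 0 < h := by linarith
  have h1 : (σ.1 - 2 * (h * n)) ^ 2 ≤ M := by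
    unfold nu at hn
    nlinarith [sq_nonneg (σ.2 - 2 * ψ n)]
  have h2 : |σ.1 - 2 * (h * n)| ≤ √M := Real.abs_le_sqrt h1
  have h3 : σ.1 - 2 * (h * n) = -(2 * h) * ((n : ℝ) - σ.1 / (2 * h)) := by
    field_simp
    ring
  rw [h3, abs_mul, abs_neg, abs_of_pos (by linarith : (0 : ℝ) < 2 * h)] at h2
  have h4 : 0 ≤ |(n : ℝ) - σ.1 / (2 * h)| := abs_nonneg _
  nlinarith

theorem win {m : ℕ} {h : ℝ} {ψ : ℤ → ℝ} {s : Finset ℤ} (hD : T_DEC) (hh : 1 ≤ h)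
    (hA : Ann m h ψ s) (c : ℤ → ℂ) (σ : ℝ × ℝ) (M T τ : ℝ) (ℓ : ℕ) (hl : √M + 2 ≤ 2 ^ ℓ)
    (W : Finset ℤ) (hW : W = s.filter fun n => nu h ψ σ n ≤ M ∧ τ - 8 * T < nu h ψ σ n ∧
      nu h ψ σ n ≤ τ) :
    ∃ DD : Finset (ℕ × ℤ), DD.card ≤ m * (2 * ℓ + 2) ∧
      (∀ d ∈ DD, d.1 ≤ ℓ ∧ ∀ n ∈ s, n / 2 ^ d.1 = d.2 → n ∈ W) ∧
      ∑ n ∈ W, c n = ∑ d ∈ DD, blk s c d.1 d.2 := by
  classical
  obtain ⟨P, hP1, hP2, hP3⟩ := hA (σ.1 / 2) (σ.2 / 2) ((τ - 8 * T) / 4) (min M τ / 4)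
  have hnu : ∀ n : ℤ, nu h ψ σ n = 4 * ((h * n - σ.1 / 2) ^ 2 + (ψ n - σ.2 / 2) ^ 2) := by
    intro n
    unfold nu
    ring
  have hWP : ∀ n ∈ s, n ∈ W ↔ ∃ i, n ∈ P i := by
    intro n hn
    rw [← hP3 n hn, hW, Finset.mem_filter, hnu]
    constructor
    · rintro ⟨_, h1, h2, h3⟩
      refine ⟨by linarith, ?_⟩
      have := le_min h1 h3
      linarith
    · rintro ⟨h1, h2⟩
      have h4 := min_le_left M τ
      have h5 := min_le_right M τ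
      exact ⟨hn, by linarith, by linarith, by linarith⟩
  have hWs : ∀ n ∈ W, n ∈ s := by
    intro n hn
    rw [hW] at hn
    exact (Finset.mem_filter.1 hn).1
  set Q : Fin m → Set ℤ := fun k => {x | ∃ n ∈ W, ∃ n' ∈ W, n ∈ P k ∧ n' ∈ P k ∧ n ≤ x ∧ x ≤ n'}
    with hQ
  have hQP : ∀ k, Q k ⊆ P k := by
    rintro k x ⟨n, _, n', _, h1, h2, h3, h4⟩
    exact (hP1 k).out h1 h2 ⟨h3, h4⟩
  have hQo : ∀ k, (Q k).OrdConnected := by
    intro k
    refine ⟨?_⟩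
    rintro x ⟨n, hn, _, _, h1, _, h3, _⟩ y ⟨_, _, n', hn', _, h2, _, h4⟩ z ⟨h5, h6⟩
    exact ⟨n, hn, n', hn', h1, h2, h3.trans h5, h6.trans h4⟩
  set α : ℤ := ⌊σ.1 / (2 * h) - √M / 2⌋ with hα
  have hWα : ∀ n ∈ W, α ≤ n ∧ n < α + 2 ^ ℓ := by
    intro n hn
    rw [hW] at hn
    have h1 := abs_le.1 (loc hh (Finset.mem_filter.1 hn).2.1)
    have h2 := Int.floor_le (σ.1 / (2 * h) - √M / 2)
    have h3 := Int.lt_floor_add_one (σ.1 / (2 * h) - √M / 2)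
    rw [← hα] at h2 h3
    constructor
    · have : (α : ℝ) ≤ n := by linarith [h1.1]
      exact_mod_cast this
    · have : (n : ℝ) < α + 2 ^ ℓ := by linarith [h1.2]
      exact_mod_cast this
  have hQI : ∀ k, Q k ⊆ Ico α (α + 2 ^ ℓ) := by
    rintro k x ⟨n, hn, n', hn', _, _, h3, h4⟩
    exact ⟨(hWα n hn).1.trans h3, h4.trans_lt (hWα n' hn').2⟩
  choose D hD1 hD2 hD3 using fun k => hD ℓ α (Q k) (hQo k) (hQI k)
  refine ⟨Finset.univ.biUnion D, ?_, ?_, ?_⟩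
  · refine (Finset.card_biUnion_le).trans ?_
    refine (Finset.sum_le_sum fun k _ => hD1 k).trans ?_
    simp
  · intro d hd
    obtain ⟨k, _, hk⟩ := Finset.mem_biUnion.1 hd
    refine ⟨(hD2 k d hk).1, fun n hn hnd => ?_⟩
    exact (hWP n hn).2 ⟨k, hQP k ((hD2 k d hk).2 n hnd)⟩
  · -- unique dyadic interval of every element of `W`
    have huniq : ∀ n ∈ W, ∃! d, d ∈ Finset.univ.biUnion D ∧ n / 2 ^ d.1 = d.2 := by
      intro n hn
      obtain ⟨k, hk⟩ := (hWP n (hWs n hn)).1 hn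
      have hnQ : n ∈ Q k := ⟨n, hn, n, hn, hk, hk, le_refl _, le_refl _⟩
      obtain ⟨d, ⟨hd1, hd2⟩, hd3⟩ := hD3 k n hnQ
      refine ⟨d, ⟨Finset.mem_biUnion.2 ⟨k, Finset.mem_univ _, hd1⟩, hd2⟩, ?_⟩
      rintro d' ⟨hd', hd'2⟩
      obtain ⟨k', _, hk'⟩ := Finset.mem_biUnion.1 hd'
      have hnQ' : n ∈ Q k' := (hD2 k' d' hk').2 n hd'2
      have hkk : k' = k := by
        by_contra hne
        exact Set.disjoint_left.1 (hP2 k' k hne) (hQP k' hnQ') hk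
      subst hkk
      exact hd3 d' ⟨hk', hd'2⟩
    have h1 : ∀ n ∈ W, c n = ∑ d ∈ (Finset.univ.biUnion D).filter (fun d => n / 2 ^ d.1 = d.2),
        c n := by
      intro n hn
      obtain ⟨d, ⟨hd1, hd2⟩, hd3⟩ := huniq n hn
      have : (Finset.univ.biUnion D).filter (fun d => n / 2 ^ d.1 = d.2) = {d} := by
        ext d'
        simp only [Finset.mem_filter, Finset.mem_singleton]
        constructor
        · intro hd'
          exact hd3 d' hd'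
        · rintro rfl
          exact ⟨hd1, hd2⟩
      rw [this, Finset.sum_singleton]
    rw [Finset.sum_congr rfl h1]
    unfold blk
    refine Finset.sum_comm' ?_
    intro n d
    simp only [Finset.mem_filter]
    constructor
    · rintro ⟨hn, hd, hnd⟩
      exact ⟨⟨hWs n hn, hnd⟩, hd⟩
    · rintro ⟨⟨hn, hnd⟩, hd⟩
      obtain ⟨k, _, hk⟩ := Finset.mem_biUnion.1 hd
      exact ⟨(hWP n hn).2 ⟨k, hQP k ((hD2 k d hk).2 n hnd)⟩, hd, hnd⟩

end DYA_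

theorem p_DYA (h1 : T_DEC) : T_DYA := by
  classical
  intro m h ψ s hh hA c σ M T ℓ hT hM hl
  -- representatives of the dyadic intervals
  have hrep : ∀ (i : ℕ) (j : ℤ), ∃ n₀ : ℤ, (∃ n ∈ s, n / 2 ^ i = j) → n₀ ∈ s ∧ n₀ / 2 ^ i = j := by
    intro i j
    by_cases hx : ∃ n ∈ s, n / 2 ^ i = j
    · obtain ⟨n, hn⟩ := hx
      exact ⟨n, fun _ => hn⟩
    · exact ⟨0, fun hy => absurd hy hx⟩
  choose n₀ hn₀ using hrep
  set K : ℕ := m * (2 * ℓ + 2) with hK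
  have hpt : ∀ τ : ℝ, ‖∑ n ∈ s with (nu h ψ σ n ≤ M ∧ τ - 8 * T < nu h ψ σ n ∧ nu h ψ σ n ≤ τ),
      c n‖ₑ ^ 2 ≤ (K : ℝ≥0∞) * ∑ i ∈ Finset.range (ℓ + 1), ∑' j : ℤ,
        (Ico (nu h ψ σ (n₀ i j)) (nu h ψ σ (n₀ i j) + 8 * T)).indicator
          (fun _ => ‖blk s c i j‖ₑ ^ 2) τ := by
    intro τ
    obtain ⟨DD, hc, hd, hs⟩ := DYA_.win h1 hh hA c σ M T τ ℓ hl _ rfl
    rw [hs]
    refine (DYA_.cs DD _ K hc).trans ?_
    gcongr
    set f : ℕ → ℤ → ℝ≥0∞ := fun i j =>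
      (Ico (nu h ψ σ (n₀ i j)) (nu h ψ σ (n₀ i j) + 8 * T)).indicator
          (fun _ => ‖blk s c i j‖ₑ ^ 2) τ with hf
    have h2 : ∀ d ∈ DD, ‖blk s c d.1 d.2‖ₑ ^ 2 ≤ f d.1 d.2 := by
      intro d hdd
      by_cases hx : ∃ n ∈ s, n / 2 ^ d.1 = d.2
      · obtain ⟨ha, hb⟩ := hn₀ d.1 d.2 hx
        have hw := (hd d hdd).2 _ ha hb
        rw [Finset.mem_filter] at hw
        have : τ ∈ Ico (nu h ψ σ (n₀ d.1 d.2)) (nu h ψ σ (n₀ d.1 d.2) + 8 * T) :=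
          ⟨hw.2.2.2, by linarith [hw.2.2.1]⟩
        simp only [hf]
        rw [Set.indicator_of_mem this]
      · have : blk s c d.1 d.2 = 0 := by
          unfold blk
          refine Finset.sum_eq_zero ?_
          intro n hn
          rw [Finset.mem_filter] at hn
          exact absurd ⟨n, hn.1, hn.2⟩ hx
        rw [this]
        simp
    refine (Finset.sum_le_sum h2).trans ?_
    have h3 : ∑ d ∈ DD, f d.1 d.2 = ∑ i ∈ Finset.range (ℓ + 1), ∑ d ∈ DD with d.1 = i,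
        f d.1 d.2 := by
      rw [Finset.sum_fiberwise_of_maps_to]
      intro d hdd
      rw [Finset.mem_range]
      have := (hd d hdd).1
      omega
    rw [h3]
    refine Finset.sum_le_sum ?_
    intro i _
    have h4 : ∑ d ∈ DD with d.1 = i, f d.1 d.2 = ∑ j ∈ (DD.filter fun d => d.1 = i).image Prod.snd,
        f i j := by
      rw [Finset.sum_image]
      · refine Finset.sum_congr rfl ?_
        intro d hdd
        rw [(Finset.mem_filter.1 hdd).2]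
      · intro d hdd d' hdd' hj
        simp only [Finset.coe_filter, Set.mem_setOf_eq] at hdd hdd'
        exact Prod.ext (hdd.2.trans hdd'.2.symm) hj
    rw [h4]
    exact ENNReal.sum_le_tsum _
  refine (lintegral_mono hpt).trans ?_
  have hmeas : ∀ i j, Measurable fun τ : ℝ =>
      (Ico (nu h ψ σ (n₀ i j)) (nu h ψ σ (n₀ i j) + 8 * T)).indicator
          (fun _ => ‖blk s c i j‖ₑ ^ 2) τ := fun i j =>
    measurable_const.indicator measurableSet_Ico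
  rw [lintegral_const_mul _ (Finset.measurable_sum _ fun i _ => Measurable.ennreal_tsum fun j =>
    hmeas i j), lintegral_finset_sum _ (fun i _ => Measurable.ennreal_tsum fun j => hmeas i j)]
  have h5 : ∀ i ∈ Finset.range (ℓ + 1), ∫⁻ τ : ℝ, ∑' j : ℤ,
      (Ico (nu h ψ σ (n₀ i j)) (nu h ψ σ (n₀ i j) + 8 * T)).indicator
          (fun _ => ‖blk s c i j‖ₑ ^ 2) τ = ENNReal.ofReal (8 * T) * ∑' j : ℤ,
            ‖blk s c i j‖ₑ ^ 2 := by
    intro i _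
    rw [lintegral_tsum fun j => (hmeas i j).aemeasurable, ← ENNReal.tsum_mul_left]
    congr 1
    ext j
    rw [lintegral_indicator measurableSet_Ico, setLIntegral_const, Real.volume_Ico, mul_comm]
    congr 2
    ring
  rw [Finset.sum_congr rfl h5, ← Finset.mul_sum, ← mul_assoc]
  gcongr
  rw [hK, ← ENNReal.ofReal_natCast, ← ENNReal.ofReal_mul (Nat.cast_nonneg _)]
  refine ENNReal.ofReal_le_ofReal ?_
  push_cast
  nlinarith

end Wey
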