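import Pool.Agent.Wey.Targets

/-!
# MP_5ab805_an, exponential sums as partners of every function: the far terms
-/

set_option autoImplicit false

namespace Wey

open MeasureTheory Set Filter
open scoped ENNReal NNReal Topology
open Pool.Agent.Restr (u E QQ)
open TriL (Sq n2)

namespace FAR_

/-- the interval attached to `n` -/
noncomputable def mm (x : ℝ) (n : ℤ) : ℤ := if x + 1 ≤ n then n - 1 else n

theorem mm_inj {x : ℝ} {n n' : ℤ} (h : x + 1 ≤ n ∨ (n : ℝ) ≤ x - 1)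
    (h' : x + 1 ≤ n' ∨ (n' : ℝ) ≤ x - 1) (he : mm x n = mm x n') : n = n' := by
  unfold mm at he
  by_cases h1 : x + 1 ≤ (n : ℝ) <;> by_cases h2 : x + 1 ≤ (n' : ℝ)
  · rw [if_pos h1, if_pos h2] at he
    omega
  · rw [if_pos h1, if_neg h2] at he
    exfalso
    rcases h' with h' | h'
    · exact h2 h'
    · have : ((n - 1 : ℤ) : ℝ) = (n' : ℝ) := by rw [he]
      push_cast at this
      linarith
  · rw [if_neg h1, if_pos h2] at he
    exfalso
    rcases h with h | h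
    · exact h1 h
    · have : ((n' - 1 : ℤ) : ℝ) = (n : ℝ) := by rw [he]
      push_cast at this
      linarith
  · rw [if_neg h1, if_neg h2] at he
    exact he

theorem gauss_le {b x : ℝ} (hb : 0 < b) {n : ℤ} (h : x + 1 ≤ n ∨ (n : ℝ) ≤ x - 1) :
    ENNReal.ofReal (Real.exp (-b * (n - x) ^ 2)) ≤
      ∫⁻ y in Ioo (mm x n : ℝ) (mm x n + 1), ENNReal.ofReal (Real.exp (-b * (y - x) ^ 2)) := by
  have h1 : ENNReal.ofReal (Real.exp (-b * (n - x) ^ 2)) =
      ∫⁻ _y in Ioo (mm x n : ℝ) (mm x n + 1), ENNReal.ofReal (Real.exp (-b * (n - x) ^ 2)) := by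
    rw [setLIntegral_const, Real.volume_Ioo]
    simp
  rw [h1]
  refine setLIntegral_mono' measurableSet_Ioo fun y hy => ?_
  refine ENNReal.ofReal_le_ofReal (Real.exp_le_exp.2 ?_)
  have h2 : (y - x) ^ 2 ≤ (n - x) ^ 2 := by
    unfold mm at hy
    by_cases h3 : x + 1 ≤ (n : ℝ)
    · rw [if_pos h3] at hy
      push_cast at hy
      obtain ⟨a, b⟩ := hy
      have e1 : 0 ≤ y - x := by linarith
      have e2 : y - x ≤ n - x := by linarith
      exact pow_le_pow_left₀ e1 e2 2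
    · rw [if_neg h3] at hy
      rcases h with h | h
      · exact absurd h h3
      · obtain ⟨a, b⟩ := hy
        nlinarith
  nlinarith

theorem lint_gauss {b : ℝ} (hb : 0 < b) (x : ℝ) :
    ∫⁻ y : ℝ, ENNReal.ofReal (Real.exp (-b * (y - x) ^ 2)) = ENNReal.ofReal (√(Real.pi / b)) := by
  rw [lintegral_sub_right_eq_self (fun y => ENNReal.ofReal (Real.exp (-b * y ^ 2))) x,
    ← ofReal_integral_eq_lintegral_ofReal (integrable_exp_neg_mul_sq hb)
      (Eventually.of_forall fun y => (Real.exp_pos _).le), integral_gaussian]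

/-- sums of Gaussians over sets of integers -/
theorem sum_gauss {b : ℝ} (hb : 0 < b) (x : ℝ) (s : Finset ℤ) :
    ∑ n ∈ s, ENNReal.ofReal (Real.exp (-b * (n - x) ^ 2)) ≤
      ENNReal.ofReal (2 + √(Real.pi / b)) := by
  classical
  rw [← Finset.sum_filter_add_sum_filter_not s
    (fun n : ℤ => x + 1 ≤ (n : ℝ) ∨ (n : ℝ) ≤ x - 1), add_comm,
    ENNReal.ofReal_add (by norm_num) (Real.sqrt_nonneg _)]
  refine add_le_add ?_ ?_
  · have h1 : ∀ n ∈ s.filter (fun n : ℤ => ¬ (x + 1 ≤ (n : ℝ) ∨ (n : ℝ) ≤ x - 1)),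
        ENNReal.ofReal (Real.exp (-b * (n - x) ^ 2)) ≤ 1 := by
      intro n _
      rw [← ENNReal.ofReal_one]
      refine ENNReal.ofReal_le_ofReal ?_
      rw [← Real.exp_zero]
      refine Real.exp_le_exp.2 ?_
      nlinarith [sq_nonneg ((n : ℝ) - x)]
    refine (Finset.sum_le_card_nsmul _ _ _ h1).trans ?_
    have h2 : (s.filter (fun n : ℤ => ¬ (x + 1 ≤ (n : ℝ) ∨ (n : ℝ) ≤ x - 1))).card ≤ 2 := by
      have h3 : s.filter (fun n : ℤ => ¬ (x + 1 ≤ (n : ℝ) ∨ (n : ℝ) ≤ x - 1)) ⊆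
          {⌊x⌋, ⌊x⌋ + 1} := by
        intro n hn
        rw [Finset.mem_filter] at hn
        obtain ⟨_, h4⟩ := hn
        push Not at h4
        obtain ⟨h5, h6⟩ := h4
        have h7 : ⌊x⌋ ≤ n := by
          by_contra h8
          push Not at h8
          have h9 : n + 1 ≤ ⌊x⌋ := h8
          have h10 : ((n + 1 : ℤ) : ℝ) ≤ x := le_trans (by exact_mod_cast h9) (Int.floor_le x)
          push_cast at h10
          linarith
        have h8 : n ≤ ⌊x⌋ + 1 := by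
          by_contra h8
          push Not at h8
          have h9 : ⌊x⌋ + 1 + 1 ≤ n := h8
          have h10 : ((⌊x⌋ + 1 + 1 : ℤ) : ℝ) ≤ n := by exact_mod_cast h9
          push_cast at h10
          have := Int.lt_floor_add_one x
          linarith
        rw [Finset.mem_insert, Finset.mem_singleton]
        omega
      exact (Finset.card_le_card h3).trans Finset.card_le_two
    rw [nsmul_one]
    calc ((s.filter (fun n : ℤ => ¬ (x + 1 ≤ (n : ℝ) ∨ (n : ℝ) ≤ x - 1))).card : ℝ≥0∞)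
        ≤ ((2 : ℕ) : ℝ≥0∞) := by exact_mod_cast h2
      _ = ENNReal.ofReal 2 := by norm_num
  · have h1 : ∀ n ∈ s.filter (fun n : ℤ => x + 1 ≤ (n : ℝ) ∨ (n : ℝ) ≤ x - 1),
        ENNReal.ofReal (Real.exp (-b * (n - x) ^ 2)) ≤
        ∫⁻ y in Ioo (mm x n : ℝ) (mm x n + 1), ENNReal.ofReal (Real.exp (-b * (y - x) ^ 2)) :=
      fun n hn => gauss_le hb (Finset.mem_filter.1 hn).2
    refine (Finset.sum_le_sum h1).trans ?_
    rw [← lintegral_biUnion_finset (t := fun n : ℤ => Ioo (mm x n : ℝ) (mm x n + 1))]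
    · exact (setLIntegral_le_lintegral _ _).trans (lint_gauss hb x).le
    · intro n hn n' hn' hne
      have hn := (Finset.mem_filter.1 hn).2
      have hn' := (Finset.mem_filter.1 hn').2
      have h2 : mm x n ≠ mm x n' := fun h => hne (mm_inj hn hn' h)
      show Disjoint (Ioo (mm x n : ℝ) (mm x n + 1)) (Ioo (mm x n' : ℝ) (mm x n' + 1))
      rw [Set.disjoint_left]
      intro y hy hy'
      rcases lt_or_gt_of_ne h2 with h3 | h3
      · have h4 : mm x n + 1 ≤ mm x n' := h3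
        have h5 : ((mm x n + 1 : ℤ) : ℝ) ≤ mm x n' := by exact_mod_cast h4
        push_cast at h5
        linarith [hy.2, hy'.1]
      · have h4 : mm x n' + 1 ≤ mm x n := h3
        have h5 : ((mm x n' + 1 : ℤ) : ℝ) ≤ mm x n := by exact_mod_cast h4
        push_cast at h5
        linarith [hy.1, hy'.2]
    · intro n _
      exact measurableSet_Ioo

theorem measurable_hat {F : ℝ × ℝ → ℂ} (hF : Measurable F) : Measurable (hat F) := by
  have : StronglyMeasurable (fun y : ℝ × ℝ => ∫ x : ℝ × ℝ,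
      u (y.1 * x.1 + y.2 * x.2) * F x) := by
    apply StronglyMeasurable.integral_prod_right
      (f := fun (y : ℝ × ℝ) (x : ℝ × ℝ) => u (y.1 * x.1 + y.2 * x.2) * F x)
    apply Measurable.stronglyMeasurable
    have hu := Pool.Agent.Restr.measurable_u
    fun_prop
  exact this.measurable

theorem planch {F : ℝ × ℝ → ℂ} (hF : Measurable F) :
    ∫⁻ y, ‖hat F y‖ₑ ^ 2 ≤ ENNReal.ofReal (4 * Real.pi ^ 2) * ∫⁻ x, ‖F x‖ₑ ^ 2 := by
  have h := Pool.Agent.Restr.plancherel2 (μ := (volume : Measure (ℝ × ℝ))) (s := fun x => x)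
    measurable_id (C := 1) (fun φ _ => by rw [one_mul]) hF
  refine h.trans (le_of_eq ?_)
  rw [one_mul, ← ENNReal.ofReal_mul (by positivity)]
  congr 2
  ring

/-- the real inequality -/
theorem cs (s : Finset ℤ) (c : ℤ → ℂ) (ν : ℤ → ℝ) (t M : ℝ) :
    ‖∑ n ∈ s with M < ν n, c n * Complex.exp (-(lam t / 2 * ((ν n : ℝ) : ℂ)))‖ ^ 2 ≤
      Real.exp (-M / (8 * (1 + t ^ 2))) *
        ((∑ n ∈ s, ‖c n‖ ^ 2 * Real.exp (-(1 / (16 * (1 + t ^ 2))) * ν n)) *
          ∑ n ∈ s, Real.exp (-(1 / (16 * (1 + t ^ 2))) * ν n)) := by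
  have hT : (0 : ℝ) < 1 + t ^ 2 := by positivity
  set r : ℝ := 1 / (8 * (1 + t ^ 2)) with hr
  have hrpos : 0 < r := by positivity
  have hre : ∀ n, ‖Complex.exp (-(lam t / 2 * ((ν n : ℝ) : ℂ)))‖ = Real.exp (-r * ν n) := by
    intro n
    rw [Complex.norm_exp]
    congr 1
    have h1 : lam t / 2 = ((r : ℝ) : ℂ) - ((r * t : ℝ) : ℂ) * Complex.I := by
      unfold lam
      have h2 : (1 : ℂ) + (t : ℂ) * Complex.I ≠ 0 := by
        intro h
        have := congrArg Complex.re h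
        simp at this
      have h3 : ((1 + t ^ 2 : ℝ) : ℂ) ≠ 0 := by
        exact_mod_cast hT.ne'
      rw [hr]
      push_cast at h3 ⊢
      field_simp
      ring_nf
      rw [Complex.I_sq]
      ring
    rw [h1, Complex.neg_re, Complex.mul_re]
    simp
  have h1 : ‖∑ n ∈ s with M < ν n, c n * Complex.exp (-(lam t / 2 * ((ν n : ℝ) : ℂ)))‖ ≤
      Real.exp (-M / (16 * (1 + t ^ 2))) *
        ∑ n ∈ s, (‖c n‖ * Real.exp (-(r / 4) * ν n)) * Real.exp (-(r / 4) * ν n) := by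
    refine (norm_sum_le _ _).trans ?_
    rw [Finset.mul_sum]
    refine (Finset.sum_le_sum (g := fun n => Real.exp (-M / (16 * (1 + t ^ 2))) *
      ((‖c n‖ * Real.exp (-(r / 4) * ν n)) * Real.exp (-(r / 4) * ν n))) ?_).trans ?_
    · intro n hn
      have hn := (Finset.mem_filter.1 hn).2
      rw [norm_mul, hre]
      have h2 : Real.exp (-r * ν n) ≤ Real.exp (-M / (16 * (1 + t ^ 2))) *
          (Real.exp (-(r / 4) * ν n) * Real.exp (-(r / 4) * ν n)) := by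
        rw [← Real.exp_add, ← Real.exp_add]
        refine Real.exp_le_exp.2 ?_
        have h3 : -M / (16 * (1 + t ^ 2)) = -(r / 2) * M := by
          rw [hr]
          field_simp
          ring
        rw [h3]
        nlinarith
      calc ‖c n‖ * Real.exp (-r * ν n) ≤ ‖c n‖ * (Real.exp (-M / (16 * (1 + t ^ 2))) *
          (Real.exp (-(r / 4) * ν n) * Real.exp (-(r / 4) * ν n))) :=
            mul_le_mul_of_nonneg_left h2 (norm_nonneg _)
        _ = _ := by ring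
    · refine Finset.sum_le_sum_of_subset_of_nonneg (Finset.filter_subset _ _) ?_
      intro n _ _
      positivity
  have h0 : (0 : ℝ) ≤ ‖∑ n ∈ s with M < ν n, c n *
    Complex.exp (-(lam t / 2 * ((ν n : ℝ) : ℂ)))‖ := norm_nonneg _
  refine (pow_le_pow_left₀ h0 h1 2).trans ?_
  rw [mul_pow, ← Real.exp_nat_mul]
  have h2 : ((2 : ℕ) : ℝ) * (-M / (16 * (1 + t ^ 2))) = -M / (8 * (1 + t ^ 2)) := by
    push_cast
    field_simp
    ring
  rw [h2]
  refine mul_le_mul_of_nonneg_left ?_ (Real.exp_pos _).le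
  refine (Finset.sum_mul_sq_le_sq_mul_sq s (fun n => ‖c n‖ * Real.exp (-(r / 4) * ν n))
    (fun n => Real.exp (-(r / 4) * ν n))).trans ?_
  apply le_of_eq
  have h3 : ∀ n, Real.exp (-(r / 4) * ν n) ^ 2 = Real.exp (-(1 / (16 * (1 + t ^ 2))) * ν n) := by
    intro n
    rw [← Real.exp_nat_mul]
    congr 1
    rw [hr]
    push_cast
    field_simp
    ring
  congr 1
  · refine Finset.sum_congr rfl fun n _ => ?_
    rw [mul_pow, h3]
  · exact Finset.sum_congr rfl fun n _ => h3 n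

end FAR_

open FAR_

theorem p_FAR : T_FAR := by
  refine ⟨2400, fun h ψ s a F A M t hh hF hFi ha => ?_⟩
  have hT : (0 : ℝ) < 1 + t ^ 2 := by positivity
  have hT1 : (1 : ℝ) ≤ 1 + t ^ 2 := by nlinarith [sq_nonneg t]
  set b : ℝ := 1 / (16 * (1 + t ^ 2)) with hb
  have hbpos : 0 < b := by positivity
  have hh2 : (1 : ℝ) ≤ h ^ 2 := by nlinarith
  have hh0 : (0 : ℝ) < h := by linarith
  -- the two constants
  have k1 : 2 + √(Real.pi / (b * (4 * h ^ 2))) ≤ 6 * √(1 + t ^ 2) := by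
    have e1 : Real.pi / (b * (4 * h ^ 2)) ≤ 4 ^ 2 * (1 + t ^ 2) := by
      rw [div_le_iff₀ (by positivity)]
      have e2 : 4 ^ 2 * (1 + t ^ 2) * (b * (4 * h ^ 2)) = 4 * h ^ 2 := by
        rw [hb]
        field_simp
        norm_num
      rw [e2]
      have := Real.pi_lt_four
      nlinarith
    have e3 : √(Real.pi / (b * (4 * h ^ 2))) ≤ 4 * √(1 + t ^ 2) := by
      refine (Real.sqrt_le_sqrt e1).trans ?_
      rw [Real.sqrt_mul (by norm_num), Real.sqrt_sq (by norm_num)]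
    have e4 : 1 ≤ √(1 + t ^ 2) := by
      rw [Real.one_le_sqrt]
      exact hT1
    linarith
  have k2 : 2 + √(Real.pi / (b * h ^ 2)) ≤ 10 * √(1 + t ^ 2) := by
    have e1 : Real.pi / (b * h ^ 2) ≤ 8 ^ 2 * (1 + t ^ 2) := by
      rw [div_le_iff₀ (by positivity)]
      have e2 : 8 ^ 2 * (1 + t ^ 2) * (b * h ^ 2) = 4 * h ^ 2 := by
        rw [hb]
        field_simp
        norm_num
      rw [e2]
      have := Real.pi_lt_four
      nlinarith
    have e3 : √(Real.pi / (b * h ^ 2)) ≤ 8 * √(1 + t ^ 2) := by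
      refine (Real.sqrt_le_sqrt e1).trans ?_
      rw [Real.sqrt_mul (by norm_num), Real.sqrt_sq (by norm_num)]
    have e4 : 1 ≤ √(1 + t ^ 2) := by
      rw [Real.one_le_sqrt]
      exact hT1
    linarith
  -- the second factor
  have s2 : ∀ σ : ℝ × ℝ, ENNReal.ofReal (∑ n ∈ s, Real.exp (-b * nu h ψ σ n)) ≤
      ENNReal.ofReal (6 * √(1 + t ^ 2)) := by
    intro σ
    rw [ENNReal.ofReal_sum_of_nonneg fun n _ => (Real.exp_pos _).le]
    have e1 : ∀ n ∈ s, ENNReal.ofReal (Real.exp (-b * nu h ψ σ n)) ≤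
        ENNReal.ofReal (Real.exp (-(b * (4 * h ^ 2)) * (n - σ.1 / (2 * h)) ^ 2)) := by
      intro n _
      refine ENNReal.ofReal_le_ofReal (Real.exp_le_exp.2 ?_)
      have e2 : -(b * (4 * h ^ 2)) * (n - σ.1 / (2 * h)) ^ 2 =
          -b * (σ.1 - 2 * (h * n)) ^ 2 := by
        field_simp
        ring
      rw [e2]
      unfold nu
      nlinarith [sq_nonneg (σ.2 - 2 * ψ n), mul_nonneg hbpos.le (sq_nonneg (σ.2 - 2 * ψ n))]
    refine (Finset.sum_le_sum e1).trans ?_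
    exact (sum_gauss (by positivity) _ s).trans (ENNReal.ofReal_le_ofReal k1)
  -- the integrand
  have s0 : ∀ σ : ℝ × ℝ, ‖∑ n ∈ s with M < nu h ψ σ n, cf h ψ a F σ n *
      Complex.exp (-(lam t / 2 * ((nu h ψ σ n : ℝ) : ℂ)))‖ₑ ^ 2 ≤
      ENNReal.ofReal (Real.exp (-M / (8 * (1 + t ^ 2))) * (6 * √(1 + t ^ 2))) *
        ∑ n ∈ s, ((A : ℝ≥0∞) ^ 2 * (‖hat F (σ.1 - h * n, σ.2 - ψ n)‖ₑ ^ 2 *
          ENNReal.ofReal (Real.exp (-b * nu h ψ σ n)))) := by
    intro σ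
    have e1 := cs s (cf h ψ a F σ) (nu h ψ σ) t M
    rw [← hb] at e1
    have e2 : ‖∑ n ∈ s with M < nu h ψ σ n, cf h ψ a F σ n *
        Complex.exp (-(lam t / 2 * ((nu h ψ σ n : ℝ) : ℂ)))‖ₑ ^ 2 =
        ENNReal.ofReal (‖∑ n ∈ s with M < nu h ψ σ n, cf h ψ a F σ n *
        Complex.exp (-(lam t / 2 * ((nu h ψ σ n : ℝ) : ℂ)))‖ ^ 2) := by
      rw [ENNReal.ofReal_pow (norm_nonneg _), ofReal_norm]
    rw [e2]
    refine (ENNReal.ofReal_le_ofReal e1).trans ?_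
    have n1 : (0 : ℝ) ≤ ∑ n ∈ s, ‖cf h ψ a F σ n‖ ^ 2 * Real.exp (-b * nu h ψ σ n) :=
      Finset.sum_nonneg fun n _ => by positivity
    rw [ENNReal.ofReal_mul (Real.exp_pos _).le, ENNReal.ofReal_mul n1,
      ENNReal.ofReal_mul (Real.exp_pos _).le]
    have e3 : ENNReal.ofReal (∑ n ∈ s, ‖cf h ψ a F σ n‖ ^ 2 * Real.exp (-b * nu h ψ σ n)) ≤
        ∑ n ∈ s, ((A : ℝ≥0∞) ^ 2 * (‖hat F (σ.1 - h * n, σ.2 - ψ n)‖ₑ ^ 2 *
          ENNReal.ofReal (Real.exp (-b * nu h ψ σ n)))) := by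
      rw [ENNReal.ofReal_sum_of_nonneg fun n _ => by positivity]
      refine Finset.sum_le_sum fun n hn => ?_
      rw [ENNReal.ofReal_mul (by positivity), ENNReal.ofReal_pow (norm_nonneg _), ofReal_norm]
      unfold cf
      rw [enorm_mul, mul_pow, mul_assoc]
      gcongr
      exact ha n hn
    calc ENNReal.ofReal (Real.exp (-M / (8 * (1 + t ^ 2)))) *
          (ENNReal.ofReal (∑ n ∈ s, ‖cf h ψ a F σ n‖ ^ 2 * Real.exp (-b * nu h ψ σ n)) *
            ENNReal.ofReal (∑ n ∈ s, Real.exp (-b * nu h ψ σ n)))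
        ≤ ENNReal.ofReal (Real.exp (-M / (8 * (1 + t ^ 2)))) *
          ((∑ n ∈ s, ((A : ℝ≥0∞) ^ 2 * (‖hat F (σ.1 - h * n, σ.2 - ψ n)‖ₑ ^ 2 *
            ENNReal.ofReal (Real.exp (-b * nu h ψ σ n))))) *
              ENNReal.ofReal (6 * √(1 + t ^ 2))) :=
          mul_le_mul_right (mul_le_mul' e3 (s2 σ)) _
      _ = _ := by ring
  have mh := measurable_hat hF
  -- integration
  have s1 : ∀ n : ℤ, ∫⁻ σ : ℝ × ℝ, (A : ℝ≥0∞) ^ 2 * (‖hat F (σ.1 - h * n, σ.2 - ψ n)‖ₑ ^ 2 *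
      ENNReal.ofReal (Real.exp (-b * nu h ψ σ n))) =
      ∫⁻ y : ℝ × ℝ, (A : ℝ≥0∞) ^ 2 * (‖hat F y‖ₑ ^ 2 *
        ENNReal.ofReal (Real.exp (-b * ((y.1 - h * n) ^ 2 + (y.2 - ψ n) ^ 2)))) := by
    intro n
    have e1 := lintegral_sub_right_eq_self (μ := (volume : Measure (ℝ × ℝ)))
      (fun y : ℝ × ℝ => (A : ℝ≥0∞) ^ 2 * (‖hat F y‖ₑ ^ 2 *
        ENNReal.ofReal (Real.exp (-b * ((y.1 - h * n) ^ 2 + (y.2 - ψ n) ^ 2)))))
      (h * (n : ℝ), ψ n)
    rw [← e1]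
    refine lintegral_congr fun σ => ?_
    have e2 : σ - (h * (n : ℝ), ψ n) = (σ.1 - h * n, σ.2 - ψ n) := by
      ext <;> simp
    rw [e2]
    congr 5
    unfold nu
    ring
  have m1 : ∀ n : ℤ, Measurable fun y : ℝ × ℝ => (A : ℝ≥0∞) ^ 2 * (‖hat F y‖ₑ ^ 2 *
      ENNReal.ofReal (Real.exp (-b * ((y.1 - h * n) ^ 2 + (y.2 - ψ n) ^ 2)))) := by
    intro n
    fun_prop
  have m2 : ∀ n : ℤ, Measurable fun σ : ℝ × ℝ => (A : ℝ≥0∞) ^ 2 *
      (‖hat F (σ.1 - h * n, σ.2 - ψ n)‖ₑ ^ 2 *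
        ENNReal.ofReal (Real.exp (-b * nu h ψ σ n))) := by
    intro n
    unfold nu
    have m3 : Measurable fun σ : ℝ × ℝ => hat F (σ.1 - h * n, σ.2 - ψ n) :=
      mh.comp (by fun_prop)
    fun_prop
  have s3 : ∑ n ∈ s, ∫⁻ y : ℝ × ℝ, (A : ℝ≥0∞) ^ 2 * (‖hat F y‖ₑ ^ 2 *
        ENNReal.ofReal (Real.exp (-b * ((y.1 - h * n) ^ 2 + (y.2 - ψ n) ^ 2)))) ≤
      (A : ℝ≥0∞) ^ 2 * (ENNReal.ofReal (10 * √(1 + t ^ 2)) *
        (ENNReal.ofReal (4 * Real.pi ^ 2) * ∫⁻ x, ‖F x‖ₑ ^ 2)) := by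
    rw [← lintegral_finsetSum s fun n _ => m1 n]
    have e1 : ∀ y : ℝ × ℝ, ∑ n ∈ s, (A : ℝ≥0∞) ^ 2 * (‖hat F y‖ₑ ^ 2 *
        ENNReal.ofReal (Real.exp (-b * ((y.1 - h * n) ^ 2 + (y.2 - ψ n) ^ 2)))) ≤
        (A : ℝ≥0∞) ^ 2 * (ENNReal.ofReal (10 * √(1 + t ^ 2)) * ‖hat F y‖ₑ ^ 2) := by
      intro y
      rw [← Finset.mul_sum, ← Finset.mul_sum, mul_comm (ENNReal.ofReal _)]
      gcongr
      have e2 : ∀ n ∈ s, ENNReal.ofReal (Real.exp (-b * ((y.1 - h * n) ^ 2 + (y.2 - ψ n) ^ 2))) ≤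
          ENNReal.ofReal (Real.exp (-(b * h ^ 2) * (n - y.1 / h) ^ 2)) := by
        intro n _
        refine ENNReal.ofReal_le_ofReal (Real.exp_le_exp.2 ?_)
        have e3 : -(b * h ^ 2) * (n - y.1 / h) ^ 2 = -b * (y.1 - h * n) ^ 2 := by
          field_simp
          ring
        rw [e3]
        nlinarith [mul_nonneg hbpos.le (sq_nonneg (y.2 - ψ n))]
      refine (Finset.sum_le_sum e2).trans ?_
      exact (sum_gauss (by positivity) _ s).trans (ENNReal.ofReal_le_ofReal k2)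
    refine (lintegral_mono e1).trans ?_
    rw [lintegral_const_mul _ (by fun_prop), lintegral_const_mul _ (by fun_prop)]
    gcongr
    exact planch hF
  refine (lintegral_mono s0).trans ?_
  rw [lintegral_const_mul _ (Finset.measurable_sum _ fun n _ => m2 n),
    lintegral_finsetSum s fun n _ => m2 n, Finset.sum_congr rfl fun n _ => s1 n]
  refine (mul_le_mul_right s3 _).trans ?_
  have hpi : (0 : ℝ) ≤ 4 * Real.pi ^ 2 := by positivity
  have e1 : ENNReal.ofReal (Real.exp (-M / (8 * (1 + t ^ 2))) * (6 * √(1 + t ^ 2))) *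
      ((A : ℝ≥0∞) ^ 2 * (ENNReal.ofReal (10 * √(1 + t ^ 2)) *
        (ENNReal.ofReal (4 * Real.pi ^ 2) * ∫⁻ x, ‖F x‖ₑ ^ 2))) =
      ENNReal.ofReal (Real.exp (-M / (8 * (1 + t ^ 2))) * (6 * √(1 + t ^ 2)) *
        (10 * √(1 + t ^ 2)) * (4 * Real.pi ^ 2)) *
        ((A : ℝ≥0∞) ^ 2 * ∫⁻ x, ‖F x‖ₑ ^ 2) := by
    rw [ENNReal.ofReal_mul (q := 4 * Real.pi ^ 2) (by positivity),
      ENNReal.ofReal_mul (q := 10 * √(1 + t ^ 2)) (by positivity)]
    ring
  rw [e1]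
  refine mul_le_mul_left ?_ _
  have e2 : ((2400 : ℝ≥0) : ℝ≥0∞) = ENNReal.ofReal 2400 := by
    norm_num
  rw [e2, ← ENNReal.ofReal_mul (by norm_num)]
  refine ENNReal.ofReal_le_ofReal ?_
  have e3 : √(1 + t ^ 2) * √(1 + t ^ 2) = 1 + t ^ 2 := Real.mul_self_sqrt hT.le
  have e4 : Real.exp (-M / (8 * (1 + t ^ 2))) * (6 * √(1 + t ^ 2)) *
      (10 * √(1 + t ^ 2)) * (4 * Real.pi ^ 2) =
      (240 * Real.pi ^ 2) * ((1 + t ^ 2) * Real.exp (-M / (8 * (1 + t ^ 2)))) := by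
    generalize Real.exp (-M / (8 * (1 + t ^ 2))) = q
    linear_combination (240 * Real.pi ^ 2 * q) * e3
  rw [e4]
  refine mul_le_mul_of_nonneg_right ?_ (by positivity)
  have := Real.pi_lt_d2
  have h3 := Real.pi_pos
  nlinarith

end Wey
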