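import Pool.Agent.Wey.Targets

/-!
# MP_5ab805_an: summation over the slabs, bilinear form
-/

set_option autoImplicit false

namespace Wey

open MeasureTheory Set Filter
open scoped ENNReal NNReal Topology

namespace IN1_

theorem measurableSet_Sl (k : ℕ) : MeasurableSet (Sl k) := by
  unfold Sl Tk
  split_ifs with h
  · exact measurableSet_le (by fun_prop : Measurable fun ξ : ℝ × ℝ × ℝ => |ξ.2.2|)
      measurable_const
  · exact (measurableSet_le measurable_const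
      (by fun_prop : Measurable fun ξ : ℝ × ℝ × ℝ => |ξ.2.2|)).inter
      (measurableSet_le (by fun_prop : Measurable fun ξ : ℝ × ℝ × ℝ => |ξ.2.2|)
      measurable_const)

theorem iUnion_Sl : ⋃ k : ℕ, Sl k = univ := by
  refine eq_univ_of_forall fun ξ => ?_
  rw [mem_iUnion]
  by_cases h : |ξ.2.2| ≤ 2
  · exact ⟨0, by simpa [Sl, Tk] using h⟩
  · have h1 : (1 : ℝ) ≤ |ξ.2.2| := by linarith [not_le.1 h]
    obtain ⟨n, hn1, hn2⟩ := exists_nat_pow_near h1 (by norm_num : (1 : ℝ) < 2)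
    have hn0 : n ≠ 0 := by
      rintro rfl
      norm_num at hn2
      linarith [not_le.1 h]
    refine ⟨n, ?_⟩
    show ξ.2.2 ∈ Tk n
    unfold Tk
    rw [if_neg hn0]
    exact ⟨hn1, hn2.le⟩

theorem holder (X : ℝ × ℝ × ℝ → ℝ≥0∞) (hX : Measurable X) (S : Set (ℝ × ℝ × ℝ)) {r : ℝ}
    (h1 : 1 ≤ r) (h2 : r ≤ 2) :
    ∫⁻ ξ in S, X ξ ^ r ≤ (∫⁻ ξ in S, X ξ) ^ (2 - r) * (∫⁻ ξ in S, X ξ ^ 2) ^ (r - 1) := by
  have h := ENNReal.lintegral_mul_norm_pow_le (μ := volume.restrict S) (f := X)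
    (g := fun ξ => X ξ ^ 2) hX.aemeasurable (hX.pow_const 2).aemeasurable
    (p := 2 - r) (q := r - 1) (by linarith) (by linarith) (by ring)
  refine le_trans (le_of_eq ?_) h
  refine lintegral_congr fun ξ => ?_
  rw [← ENNReal.rpow_natCast, ← ENNReal.rpow_mul, ← ENNReal.rpow_add_of_nonneg _ _ (by linarith)
    (by push_cast; nlinarith)]
  congr 1
  push_cast
  ring

end IN1_

open IN1_

theorem p_IN1 : T_IN1 := by
  intro r hr1 hr2
  set δ : ℝ := (2 * r - 3) * (3 - r) / 2 with hδ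
  have hδ0 : 0 < δ := by
    rw [hδ]
    have : 0 < (2 * r - 3) * (3 - r) := mul_pos (by linarith) (by linarith)
    linarith
  set ρ : ℝ := 2 ^ (-δ) with hρ
  have hρ0 : 0 < ρ := by positivity
  have hρ1 : ρ < 1 := Real.rpow_lt_one_of_one_lt_of_neg (by norm_num) (by linarith)
  refine ⟨(2 * r - 3) / 2, by linarith, Real.toNNReal (1 - ρ)⁻¹, ?_⟩
  intro X N hX h2 h1
  have hslab : ∀ k : ℕ, ∫⁻ ξ in Sl k, X ξ ^ r ≤ (N : ℝ≥0∞) ^ r * ENNReal.ofReal (ρ ^ k) := by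
    intro k
    refine (holder X hX (Sl k) (by linarith) hr2.le).trans ?_
    have e1 : (N * 2 ^ k : ℝ≥0∞) ^ (2 - r) = (N : ℝ≥0∞) ^ (2 - r) *
        ENNReal.ofReal (2 ^ ((k : ℝ) * (2 - r))) := by
      rw [ENNReal.mul_rpow_of_nonneg _ _ (by linarith)]
      congr 1
      rw [← ENNReal.rpow_natCast, ← ENNReal.rpow_mul,
        ← ENNReal.ofReal_rpow_of_pos (by norm_num)]
      norm_num
    have e2 : ((N : ℝ≥0∞) ^ 2 * ENNReal.ofReal (2 ^ ((-1 + (2 * r - 3) / 2) * k))) ^ (r - 1) =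
        (N : ℝ≥0∞) ^ (2 * (r - 1)) *
        ENNReal.ofReal (2 ^ (((-1 + (2 * r - 3) / 2) * k) * (r - 1))) := by
      rw [ENNReal.mul_rpow_of_nonneg _ _ (by linarith)]
      congr 1
      · rw [← ENNReal.rpow_natCast, ← ENNReal.rpow_mul]
        norm_num
      · rw [ENNReal.ofReal_rpow_of_pos (by positivity), ← Real.rpow_mul (by norm_num)]
    calc (∫⁻ ξ in Sl k, X ξ) ^ (2 - r) * (∫⁻ ξ in Sl k, X ξ ^ 2) ^ (r - 1)
        ≤ (N * 2 ^ k : ℝ≥0∞) ^ (2 - r) *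
          ((N : ℝ≥0∞) ^ 2 * ENNReal.ofReal (2 ^ ((-1 + (2 * r - 3) / 2) * k))) ^ (r - 1) :=
          mul_le_mul' (ENNReal.rpow_le_rpow (h1 k) (by linarith))
            (ENNReal.rpow_le_rpow (h2 k) (by linarith))
      _ = ((N : ℝ≥0∞) ^ (2 - r) * (N : ℝ≥0∞) ^ (2 * (r - 1))) *
          (ENNReal.ofReal (2 ^ ((k : ℝ) * (2 - r))) *
          ENNReal.ofReal (2 ^ (((-1 + (2 * r - 3) / 2) * k) * (r - 1)))) := by
          rw [e1, e2]
          ring
      _ = (N : ℝ≥0∞) ^ r * ENNReal.ofReal (ρ ^ k) := by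
          rw [← ENNReal.rpow_add_of_nonneg _ _ (by linarith) (by linarith),
            ← ENNReal.ofReal_mul (by positivity), ← Real.rpow_add (by norm_num)]
          congr 2
          · ring
          · rw [hρ, ← Real.rpow_natCast, ← Real.rpow_mul (by norm_num), hδ]
            congr 1
            ring
      _ ≤ _ := le_rfl
  calc ∫⁻ ξ, X ξ ^ r = ∫⁻ ξ in ⋃ k : ℕ, Sl k, X ξ ^ r := by
        rw [iUnion_Sl, Measure.restrict_univ]
    _ ≤ ∑' k : ℕ, ∫⁻ ξ in Sl k, X ξ ^ r := lintegral_iUnion_le _ _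
    _ ≤ ∑' k : ℕ, (N : ℝ≥0∞) ^ r * ENNReal.ofReal (ρ ^ k) := ENNReal.tsum_le_tsum hslab
    _ = (N : ℝ≥0∞) ^ r * ENNReal.ofReal ((1 - ρ)⁻¹) := by
        rw [ENNReal.tsum_mul_left, ← ENNReal.ofReal_tsum_of_nonneg (fun k => by positivity)
          (summable_geometric_of_lt_one hρ0.le hρ1), tsum_geometric_of_lt_one hρ0.le hρ1]
    _ = _ := by
        rw [mul_comm]
        rfl

end Wey
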