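import Pool.Agent.Wey.Targets

/-!
# MP_5ab805_an, block POL: polynomials have bounded annular complexity (helper83)
-/

set_option autoImplicit false

namespace Wey

open Polynomial

/-- A strict interior maximum gives a critical point and a nonzero derivative. -/
lemma POL_crit (φ : ℝ[X]) (p x q : ℝ) (h1 : p < x) (h2 : x < q)
    (h3 : φ.eval p < φ.eval x) (h4 : φ.eval q < φ.eval x) :
    φ.derivative ≠ 0 ∧ ∃ z, p < z ∧ z < q ∧ φ.derivative.eval z = 0 := by
  obtain ⟨s, ⟨hs1, hs2⟩, hs3⟩ := exists_deriv_eq_slope (fun t => φ.eval t) h1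
    φ.continuous.continuousOn φ.differentiable.differentiableOn
  obtain ⟨t, ⟨ht1, ht2⟩, ht3⟩ := exists_deriv_eq_slope (fun t => φ.eval t) h2
    φ.continuous.continuousOn φ.differentiable.differentiableOn
  rw [Polynomial.deriv] at hs3 ht3
  have hs4 : 0 < φ.derivative.eval s := by
    rw [hs3]; exact div_pos (by linarith) (by linarith)
  have ht4 : φ.derivative.eval t < 0 := by
    rw [ht3]; exact div_neg_of_neg_of_pos (by linarith) (by linarith)
  refine ⟨fun h => ?_, ?_⟩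
  · rw [h] at hs4; simp at hs4
  · have hst : s ≤ t := by linarith
    obtain ⟨z, ⟨hz1, hz2⟩, hz3⟩ := intermediate_value_Icc' hst
      (φ.derivative.continuous.continuousOn) ⟨ht4.le, hs4.le⟩
    exact ⟨z, by linarith, by linarith, hz3⟩

/-- POL: polynomials have bounded annular complexity. -/
theorem p_POL : T_POL := by
  classical
  intro P h s c d a b
  set φ : ℝ[X] := (C h * X - C c) ^ 2 + (P - C d) ^ 2 with hφ
  have hev : ∀ x : ℝ, φ.eval x = (h * x - c) ^ 2 + (P.eval x - d) ^ 2 := by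
    intro x; simp [hφ]
  have hdeg : φ.natDegree ≤ 2 * P.natDegree + 2 := by
    rw [hφ]
    refine (natDegree_add_le _ _).trans (max_le ?_ ?_)
    · have h1 : (C h * X - C c).natDegree ≤ 1 := by
        refine (natDegree_sub_le _ _).trans (max_le ?_ (by simp))
        exact (natDegree_C_mul_le _ _).trans natDegree_X_le
      calc ((C h * X - C c) ^ 2).natDegree ≤ 2 * (C h * X - C c).natDegree :=
            natDegree_pow_le
        _ ≤ 2 * P.natDegree + 2 := by omega
    · have h1 : (P - C d).natDegree ≤ P.natDegree := by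
        refine (natDegree_sub_le _ _).trans (max_le le_rfl (by simp))
      calc ((P - C d) ^ 2).natDegree ≤ 2 * (P - C d).natDegree := natDegree_pow_le
        _ ≤ 2 * P.natDegree + 2 := by omega
  set Z : Finset ℝ := φ.derivative.roots.toFinset with hZdef
  have hZ : Z.card ≤ 2 * P.natDegree + 1 := by
    calc Z.card ≤ Multiset.card φ.derivative.roots := Multiset.toFinset_card_le _
      _ ≤ φ.derivative.natDegree := card_roots' _
      _ ≤ φ.natDegree - 1 := natDegree_derivative_le _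
      _ ≤ 2 * P.natDegree + 1 := by omega
  let idx : ℤ → ℕ := fun x => (Z.filter (fun z => z < (x : ℝ))).card
  have hlt : ∀ x, idx x < 2 * P.natDegree + 2 := fun x =>
    Nat.lt_succ_of_le ((Finset.card_filter_le _ _).trans hZ)
  have hmono : ∀ x y : ℤ, x ≤ y → idx x ≤ idx y := by
    intro x y hxy
    refine Finset.card_le_card ?_
    intro z hz
    rw [Finset.mem_filter] at hz ⊢
    exact ⟨hz.1, hz.2.trans_le (by exact_mod_cast hxy)⟩
  have hstrict : ∀ x y : ℤ, (∃ z ∈ Z, (x : ℝ) < z ∧ z < (y : ℝ)) → idx x < idx y := by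
    rintro x y ⟨z, hz, hz1, hz2⟩
    refine Finset.card_lt_card ?_
    refine Finset.ssubset_iff_subset_ne.mpr ⟨?_, ?_⟩
    · intro w hw
      rw [Finset.mem_filter] at hw ⊢
      exact ⟨hw.1, by linarith [hw.2]⟩
    · intro heq
      have : z ∈ Z.filter (fun z => z < (x : ℝ)) := by
        rw [heq, Finset.mem_filter]; exact ⟨hz, hz2⟩
      rw [Finset.mem_filter] at this
      linarith [this.2]
  have hkey : ∀ n x n' : ℤ, n ≤ x → x ≤ n' → idx n = idx n' →
      (a < φ.eval (n : ℝ) ∧ φ.eval (n : ℝ) ≤ b) → (a < φ.eval (n' : ℝ) ∧ φ.eval (n' : ℝ) ≤ b) →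
      (a < φ.eval (x : ℝ) ∧ φ.eval (x : ℝ) ≤ b) := by
    intro n x n' h1 h2 hid hn hn'
    rcases h1.eq_or_lt with h1 | h1
    · rw [← h1]; exact hn
    rcases h2.eq_or_lt with h2 | h2
    · rw [h2]; exact hn'
    have h1' : (n : ℝ) < x := by exact_mod_cast h1
    have h2' : (x : ℝ) < n' := by exact_mod_cast h2
    have hno : ∀ ψ : ℝ[X], ψ.derivative.roots = φ.derivative.roots →
        ¬ (ψ.eval (n : ℝ) < ψ.eval (x : ℝ) ∧ ψ.eval (n' : ℝ) < ψ.eval (x : ℝ)) := by
      rintro ψ hψ ⟨h3, h4⟩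
      obtain ⟨hne, z, hz1, hz2, hz3⟩ := POL_crit ψ n x n' h1' h2' h3 h4
      have hz : z ∈ Z := by
        rw [hZdef, Multiset.mem_toFinset, ← hψ, mem_roots hne]
        exact hz3
      exact absurd hid (hstrict n n' ⟨z, hz, hz1, hz2⟩).ne
    constructor
    · by_contra hcon
      push Not at hcon
      refine hno (-φ) (by rw [derivative_neg, roots_neg]) ⟨?_, ?_⟩
      · rw [eval_neg, eval_neg]; linarith [hn.1]
      · rw [eval_neg, eval_neg]; linarith [hn'.1]
    · by_contra hcon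
      push Not at hcon
      exact hno φ rfl ⟨by linarith [hn.2], by linarith [hn'.2]⟩
  refine ⟨fun i => {x : ℤ | ∃ n n' : ℤ, (n ∈ s ∧ a < φ.eval (n : ℝ) ∧ φ.eval (n : ℝ) ≤ b) ∧
    (n' ∈ s ∧ a < φ.eval (n' : ℝ) ∧ φ.eval (n' : ℝ) ≤ b) ∧ idx n = i.1 ∧ idx n' = i.1 ∧
    n ≤ x ∧ x ≤ n'}, ?_, ?_, ?_⟩
  · intro i
    refine ⟨fun x hx y hy z hz => ?_⟩
    obtain ⟨n, n', hn, hn', hi, hi', h1, h2⟩ := hx
    obtain ⟨k, k', hk, hk', hj, hj', h3, h4⟩ := hy
    exact ⟨n, k', hn, hk', hi, hj', h1.trans hz.1, hz.2.trans h4⟩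
  · intro i j hij
    rw [Set.disjoint_left]
    rintro x ⟨n, n', hn, hn', hi, hi', h1, h2⟩ ⟨k, k', hk, hk', hj, hj', h3, h4⟩
    apply hij
    have e1 := hmono _ _ h1
    have e2 := hmono _ _ h2
    have e3 := hmono _ _ h3
    have e4 := hmono _ _ h4
    exact Fin.ext (by omega)
  · intro n hn
    have e := hev (n : ℝ)
    constructor
    · rintro ⟨h1, h2⟩
      refine ⟨⟨idx n, hlt n⟩, n, n, ⟨hn, ?_, ?_⟩, ⟨hn, ?_, ?_⟩, rfl, rfl, le_rfl, le_rfl⟩ <;>
        rw [e] <;> assumption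
    · rintro ⟨i, k, k', hk, hk', hi, hi', h1, h2⟩
      have := hkey k n k' h1 h2 (hi.trans hi'.symm) hk.2 hk'.2
      rw [e] at this
      exact this

end Wey
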