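import Pool.Agent.Wey.Targets

/-!
# MP_5ab805_an, WEY-REP: representation by Gaussians (helper67)
-/

set_option autoImplicit false

namespace Wey

open MeasureTheory Set Filter
open scoped ENNReal NNReal Topology
open Pool.Agent.Restr (u E QQ norm_u u_add continuous_u)
open TriL (Sq n2)

namespace REP_

/-- integrability of a plane Gaussian -/
theorem G2int {b : ℂ} (hb : 0 < b.re) (c1 c2 : ℂ) :
    Integrable (fun x : ℝ × ℝ => Complex.exp (-(b * ((nq x : ℝ) : ℂ)) + (c1 * x.1 + c2 * x.2))) := by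
  have h := (integrable_cexp_quadratic hb c1 0).mul_prod (integrable_cexp_quadratic hb c2 0)
  refine (integrable_congr (ae_of_all _ fun x => ?_)).mp h
  rw [← Complex.exp_add]
  congr 1
  unfold nq
  push_cast
  ring

/-- value of a plane Gaussian -/
theorem G2val {b : ℂ} (hb : 0 < b.re) (c1 c2 : ℂ) :
    ∫ x : ℝ × ℝ, Complex.exp (-(b * ((nq x : ℝ) : ℂ)) + (c1 * x.1 + c2 * x.2)) =
      Real.pi / b * Complex.exp ((c1 ^ 2 + c2 ^ 2) / (4 * b)) := by
  have hb0 : b ≠ 0 := by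
    rintro rfl
    simp at hb
  have hre : (-b).re < 0 := by simpa using hb
  have h1 := integral_cexp_quadratic hre c1 0
  have h2 := integral_cexp_quadratic hre c2 0
  have e : ∀ x : ℝ × ℝ, Complex.exp (-(b * ((nq x : ℝ) : ℂ)) + (c1 * x.1 + c2 * x.2)) =
      Complex.exp (-b * (x.1 : ℂ) ^ 2 + c1 * x.1 + 0) *
        Complex.exp (-b * (x.2 : ℂ) ^ 2 + c2 * x.2 + 0) := by
    intro x
    rw [← Complex.exp_add]
    congr 1
    unfold nq
    push_cast
    ring
  simp_rw [e]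
  rw [MeasureTheory.Measure.volume_eq_prod, integral_prod_mul
    (fun x : ℝ => Complex.exp (-b * (x : ℂ) ^ 2 + c1 * x + 0))
    (fun x : ℝ => Complex.exp (-b * (x : ℂ) ^ 2 + c2 * x + 0)), h1, h2]
  have hpb : (Real.pi : ℂ) / b ≠ 0 := div_ne_zero (by exact_mod_cast Real.pi_ne_zero) hb0
  have e2 : (Real.pi : ℂ) / - -b = Real.pi / b := by rw [neg_neg]
  rw [e2]
  have e3 : ((Real.pi : ℂ) / b) ^ (1 / 2 : ℂ) * ((Real.pi : ℂ) / b) ^ (1 / 2 : ℂ) =
      (Real.pi : ℂ) / b := by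
    rw [← Complex.cpow_add _ _ hpb]
    norm_num
  calc _ = (((Real.pi : ℂ) / b) ^ (1 / 2 : ℂ) * ((Real.pi : ℂ) / b) ^ (1 / 2 : ℂ)) *
        (Complex.exp (0 - c1 ^ 2 / (4 * -b)) * Complex.exp (0 - c2 ^ 2 / (4 * -b))) := by ring
    _ = _ := by
      rw [e3, ← Complex.exp_add]
      congr 2
      field_simp
      ring

theorem one_it_ne (t : ℝ) : (1 + (t : ℂ) * Complex.I) ≠ 0 := by
  intro h
  have := congrArg Complex.re h
  simp at this

theorem lam_ne (t : ℝ) : lam t ≠ 0 := by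
  unfold lam
  exact div_ne_zero one_ne_zero (mul_ne_zero (by norm_num) (one_it_ne t))

theorem lam_re (t : ℝ) : 0 < (lam t).re := by
  have h : lam t = (1 / (4 * (1 + t ^ 2)) : ℝ) * (1 - (t : ℂ) * Complex.I) := by
    unfold lam
    have h1 := one_it_ne t
    have h2 : (1 + (t : ℂ) ^ 2) ≠ 0 := by
      have : ((1 + t ^ 2 : ℝ) : ℂ) ≠ 0 := by
        exact_mod_cast (by positivity : (1 + t ^ 2 : ℝ) ≠ 0)
      simpa using this
    push_cast
    field_simp
    have hI := Complex.I_sq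
    linear_combination ((t : ℂ) ^ 2) * hI
  rw [h, Complex.re_ofReal_mul]
  simp
  positivity

theorem inv_lam (t : ℝ) : 1 / (4 * lam t) = 1 + (t : ℂ) * Complex.I := by
  unfold lam
  have h1 := one_it_ne t
  field_simp

theorem one_it_re (t : ℝ) : 0 < (1 + (t : ℂ) * Complex.I).re := by simp

/-- the Gaussian identity -/
theorem gid (p x : ℝ × ℝ) (t : ℝ) :
    Complex.exp (-((1 + (t : ℂ) * Complex.I) * ((nq x : ℝ) : ℂ)) -
      Complex.I * (p.1 * x.1 + p.2 * x.2)) =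
    lam t / Real.pi * ∫ y : ℝ × ℝ,
      Complex.exp (-(lam t * ((nq (p.1 - y.1, p.2 - y.2) : ℝ) : ℂ))) * u (y.1 * x.1 + y.2 * x.2) := by
  have hpi : (Real.pi : ℂ) ≠ 0 := by exact_mod_cast Real.pi_ne_zero
  have hl := lam_ne t
  have e : ∀ y : ℝ × ℝ,
      Complex.exp (-(lam t * ((nq (p.1 - y.1, p.2 - y.2) : ℝ) : ℂ))) * u (y.1 * x.1 + y.2 * x.2) =
      Complex.exp (-(lam t * ((nq p : ℝ) : ℂ))) *
        Complex.exp (-(lam t * ((nq y : ℝ) : ℂ)) + ((2 * lam t * p.1 - Complex.I * x.1) * y.1 +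
          (2 * lam t * p.2 - Complex.I * x.2) * y.2)) := by
    intro y
    unfold u
    rw [← Complex.exp_add, ← Complex.exp_add]
    congr 1
    unfold nq
    push_cast
    ring
  simp_rw [e]
  rw [integral_const_mul, G2val (lam_re t)]
  rw [show lam t / (Real.pi : ℂ) * (Complex.exp (-(lam t * ((nq p : ℝ) : ℂ))) *
      ((Real.pi : ℂ) / lam t * Complex.exp (((2 * lam t * p.1 - Complex.I * x.1) ^ 2 +
        (2 * lam t * p.2 - Complex.I * x.2) ^ 2) / (4 * lam t)))) =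
      (lam t / (Real.pi : ℂ) * ((Real.pi : ℂ) / lam t)) * (Complex.exp (-(lam t * ((nq p : ℝ) : ℂ))) *
      Complex.exp (((2 * lam t * p.1 - Complex.I * x.1) ^ 2 +
        (2 * lam t * p.2 - Complex.I * x.2) ^ 2) / (4 * lam t))) by ring]
  rw [show lam t / (Real.pi : ℂ) * ((Real.pi : ℂ) / lam t) = 1 by field_simp, one_mul,
    ← Complex.exp_add, ← inv_lam t]
  congr 1
  unfold nq
  push_cast
  field_simp
  linear_combination (-((x.1 : ℂ) ^ 2 + (x.2 : ℂ) ^ 2)) * Complex.I_sq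

/-- `gup f` is integrable -/
theorem gup_int {f : ℝ × ℝ → ℂ} (hf : Sq f) (hi : Integrable f) : Integrable (gup f) := by
  have hcont : Measurable fun x : ℝ × ℝ => ((Real.exp (nq x) : ℝ) : ℂ) := by
    unfold nq
    fun_prop
  refine (hi.norm.const_mul (Real.exp (1 / 2))).mono' ?_ (ae_of_all _ fun x => ?_)
  · unfold gup
    exact (hcont.mul hf.1).aestronglyMeasurable
  · unfold gup
    rw [norm_mul, Complex.norm_real, Real.norm_of_nonneg (Real.exp_pos _).le]
    by_cases hx : x ∈ QQ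
    · refine mul_le_mul_of_nonneg_right (Real.exp_le_exp.mpr ?_) (norm_nonneg _)
      obtain ⟨⟨h1, h2⟩, h3, h4⟩ := hx
      unfold nq
      nlinarith
    · rw [hf.2 x hx]
      simp

/-- `E` in terms of `gup` -/
theorem E_gup (f : ℝ × ℝ → ℂ) (p : ℝ × ℝ) (t : ℝ) :
    E f (p.1, p.2, t) = ∫ x : ℝ × ℝ,
      Complex.exp (-((1 + (t : ℂ) * Complex.I) * ((nq x : ℝ) : ℂ)) -
      Complex.I * (p.1 * x.1 + p.2 * x.2)) * gup f x := by
  unfold E
  refine integral_congr_ae (ae_of_all _ fun x => ?_)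
  simp only
  unfold gup u
  rw [← mul_assoc]
  congr 1
  rw [Complex.ofReal_exp, ← Complex.exp_add]
  congr 1
  unfold nq
  push_cast
  ring

theorem part1 (f : ℝ × ℝ → ℂ) (hf : Sq f) (hi : Integrable f) (p : ℝ × ℝ) (t : ℝ) :
    E f (p.1, p.2, t) = lam t / Real.pi * ∫ y : ℝ × ℝ,
      Complex.exp (-(lam t * ((nq (p.1 - y.1, p.2 - y.2) : ℝ) : ℂ))) * hat (gup f) y := by
  have hg := gup_int hf hi
  have hG : Integrable (fun y : ℝ × ℝ =>
      Complex.exp (-(lam t * ((nq (p.1 - y.1, p.2 - y.2) : ℝ) : ℂ)))) := by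
    have h := (G2int (lam_re t) (2 * lam t * p.1) (2 * lam t * p.2)).const_mul
      (Complex.exp (-(lam t * ((nq p : ℝ) : ℂ))))
    refine (integrable_congr (ae_of_all _ fun y => ?_)).mp h
    rw [← Complex.exp_add]
    congr 1
    unfold nq
    push_cast
    ring
  have hprod : Integrable (fun z : (ℝ × ℝ) × (ℝ × ℝ) =>
      u (z.1.1 * z.2.1 + z.1.2 * z.2.2) * (Complex.exp (-(lam t *
        ((nq (p.1 - z.1.1, p.2 - z.1.2) : ℝ) : ℂ))) * gup f z.2)) := by
    refine (hG.mul_prod hg).bdd_mul (c := 1) ?_ (ae_of_all _ fun z => (norm_u _).le)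
    exact (continuous_u.comp (by fun_prop)).aestronglyMeasurable
  rw [E_gup]
  simp_rw [gid]
  calc ∫ x : ℝ × ℝ, lam t / Real.pi * (∫ y : ℝ × ℝ,
        Complex.exp (-(lam t * ((nq (p.1 - y.1, p.2 - y.2) : ℝ) : ℂ))) *
          u (y.1 * x.1 + y.2 * x.2)) * gup f x
      = lam t / Real.pi * ∫ x : ℝ × ℝ, ∫ y : ℝ × ℝ, u (y.1 * x.1 + y.2 * x.2) *
        (Complex.exp (-(lam t * ((nq (p.1 - y.1, p.2 - y.2) : ℝ) : ℂ))) * gup f x) := by
        rw [← integral_const_mul]
        refine integral_congr_ae (ae_of_all _ fun x => ?_)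
        simp only
        rw [mul_assoc, ← integral_mul_const]
        congr 1
        refine integral_congr_ae (ae_of_all _ fun y => ?_)
        simp only
        ring
    _ = lam t / Real.pi * ∫ y : ℝ × ℝ, ∫ x : ℝ × ℝ, u (y.1 * x.1 + y.2 * x.2) *
        (Complex.exp (-(lam t * ((nq (p.1 - y.1, p.2 - y.2) : ℝ) : ℂ))) * gup f x) := by
        rw [integral_integral_swap]
        exact hprod.swap
    _ = _ := by
        congr 1
        refine integral_congr_ae (ae_of_all _ fun y => ?_)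
        simp only
        unfold hat
        rw [← integral_const_mul]
        refine integral_congr_ae (ae_of_all _ fun x => ?_)
        simp only
        ring

theorem part2 (z p : ℝ × ℝ) (t : ℝ) :
    E (gdn fun x => u (-(z.1 * x.1 + z.2 * x.2))) (p.1, p.2, t) =
      4 * Real.pi * lam t * Complex.exp (-(lam t * ((nq (p.1 - z.1, p.2 - z.2) : ℝ) : ℂ))) := by
  unfold E
  have e : ∀ x : ℝ × ℝ, u (p.1 * x.1 + (p.2 * x.2 + t * (x.1 ^ 2 + x.2 ^ 2))) *
      gdn (fun x => u (-(z.1 * x.1 + z.2 * x.2))) x =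
      Complex.exp (-((1 + (t : ℂ) * Complex.I) * ((nq x : ℝ) : ℂ)) +
        (-(Complex.I * (p.1 - z.1)) * x.1 + -(Complex.I * (p.2 - z.2)) * x.2)) := by
    intro x
    unfold gdn u
    rw [Complex.ofReal_exp, ← Complex.exp_add, ← Complex.exp_add]
    congr 1
    unfold nq
    push_cast
    ring
  simp only [e]
  rw [G2val (one_it_re t)]
  have h1 := one_it_ne t
  have hl : 4 * Real.pi * lam t = Real.pi / (1 + (t : ℂ) * Complex.I) := by
    unfold lam
    field_simp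
  rw [hl]
  congr 2
  have e1 : (-(Complex.I * ((p.1 : ℂ) - z.1))) ^ 2 = -((p.1 : ℂ) - z.1) ^ 2 := by
    linear_combination (((p.1 : ℂ) - z.1) ^ 2) * Complex.I_sq
  have e2 : (-(Complex.I * ((p.2 : ℂ) - z.2))) ^ 2 = -((p.2 : ℂ) - z.2) ^ 2 := by
    linear_combination (((p.2 : ℂ) - z.2) ^ 2) * Complex.I_sq
  rw [e1, e2]
  unfold lam nq
  push_cast
  ring

end REP_

theorem p_REP : T_REP :=
  ⟨fun f hf hi p t => REP_.part1 f hf hi p t, fun z p t => REP_.part2 z p t⟩

end Wey
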