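import Pool.Agent.Wey.Targets

/-!
# Square function of the dyadic blocks of a bounded trigonometric polynomial (job WEY-BES)
-/

set_option autoImplicit false

namespace Wey

open MeasureTheory Set Filter
open scoped ENNReal NNReal Topology
open Pool.Agent.Restr (u norm_u u_add u_zero conj_u)

namespace BES_

/-- `exp (i x)` -/
noncomputable def ex (x : ℝ) : ℂ := u (-x)

theorem ex_eq (x : ℝ) : ex x = Complex.exp (Complex.I * (x : ℂ)) := by
  unfold ex Pool.Agent.Restr.u
  congr 1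
  push_cast
  ring

theorem norm_ex (x : ℝ) : ‖ex x‖ = 1 := norm_u _

theorem ex_add (a b : ℝ) : ex (a + b) = ex a * ex b := by
  unfold ex
  rw [← u_add]
  congr 1
  ring

theorem ex_zero : ex 0 = 1 := by
  unfold ex
  rw [neg_zero, u_zero]

theorem conj_ex (a : ℝ) : (starRingEnd ℂ) (ex a) = ex (-a) := by
  unfold ex
  rw [conj_u]

theorem ex_pow (x : ℝ) (n : ℕ) : ex x ^ n = ex (n * x) := by
  rw [ex_eq, ex_eq, ← Complex.exp_nat_mul]
  congr 1
  push_cast
  ring

theorem ex_int (m : ℤ) : ex (m * (2 * Real.pi)) = 1 := by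
  rw [ex_eq, Complex.exp_eq_one_iff]
  refine ⟨m, ?_⟩
  push_cast
  ring

/-- geometric sums over the roots of unity -/
theorem geo (N : ℕ) (hN : 0 < N) (m : ℤ) (hm : |m| < N) :
    ∑ w ∈ Finset.range N, ex (m * (2 * Real.pi / N * w)) = if m = 0 then (N : ℂ) else 0 := by
  have hN0 : (N : ℝ) ≠ 0 := by
    have := hN.ne'
    exact_mod_cast this
  split_ifs with h0
  · rw [h0]
    simp [ex_zero]
  · have h1 : ∀ w : ℕ, ex (m * (2 * Real.pi / N * w)) = ex (m * (2 * Real.pi / N)) ^ w := by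
      intro w
      rw [ex_pow]
      congr 1
      ring
    have h2 : ex (m * (2 * Real.pi / N)) ≠ 1 := by
      intro h
      rw [ex_eq, Complex.exp_eq_one_iff] at h
      obtain ⟨k, hk⟩ := h
      have hpi : (Real.pi : ℂ) ≠ 0 := by exact_mod_cast Real.pi_ne_zero
      have hNc : (N : ℂ) ≠ 0 := by exact_mod_cast hN0
      have h3 : (m : ℂ) = k * N := by
        push_cast at hk
        field_simp at hk
        linear_combination hk
      have h4 : m = k * N := by exact_mod_cast h3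
      rcases eq_or_ne k 0 with hk0 | hk0
      · rw [hk0, zero_mul] at h4
        exact h0 h4
      · rw [h4, abs_mul] at hm
        have h5 : 1 ≤ |k| := Int.one_le_abs hk0
        have h6 : |((N : ℕ) : ℤ)| = N := abs_of_nonneg (Int.natCast_nonneg N)
        rw [h6] at hm
        have h7 : (0 : ℤ) ≤ N := Int.natCast_nonneg N
        nlinarith
    simp only [h1]
    rw [geom_sum_eq h2, ex_pow]
    have h3 : ex ((N : ℝ) * (m * (2 * Real.pi / N))) = 1 := by
      rw [← ex_int m]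
      congr 1
      field_simp
    rw [h3, sub_self, zero_div]

/-- orthogonality -/
theorem par {ι κ : Type*} (S : Finset ι) (T : Finset κ) (f : ι → ℤ) (g : κ → ℤ)
    (A : ι → ℂ) (B : κ → ℂ) (N : ℕ) (hN : 0 < N) (h : ∀ a ∈ S, ∀ b ∈ T, |f a - g b| < N) :
    ∑ w ∈ Finset.range N, (∑ a ∈ S, A a * ex (f a * (2 * Real.pi / N * w))) *
      (starRingEnd ℂ) (∑ b ∈ T, B b * ex (g b * (2 * Real.pi / N * w))) =
    N * ∑ a ∈ S, ∑ b ∈ T, if f a = g b then A a * (starRingEnd ℂ) (B b) else 0 := by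
  have h1 : ∀ w : ℕ, (∑ a ∈ S, A a * ex (f a * (2 * Real.pi / N * w))) *
      (starRingEnd ℂ) (∑ b ∈ T, B b * ex (g b * (2 * Real.pi / N * w))) =
      ∑ a ∈ S, ∑ b ∈ T, A a * (starRingEnd ℂ) (B b) *
        ex (((f a - g b : ℤ) : ℝ) * (2 * Real.pi / N * w)) := by
    intro w
    rw [map_sum, Finset.sum_mul_sum]
    refine Finset.sum_congr rfl fun a _ => Finset.sum_congr rfl fun b _ => ?_
    rw [map_mul, conj_ex]
    have h2 : ex (((f a - g b : ℤ) : ℝ) * (2 * Real.pi / N * w)) =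
        ex (f a * (2 * Real.pi / N * w)) * ex (-(g b * (2 * Real.pi / N * w))) := by
      rw [← ex_add]
      congr 1
      push_cast
      ring
    rw [h2]
    ring
  simp only [h1]
  rw [Finset.sum_comm, Finset.mul_sum]
  refine Finset.sum_congr rfl fun a ha => ?_
  rw [Finset.sum_comm, Finset.mul_sum]
  refine Finset.sum_congr rfl fun b hb => ?_
  rw [← Finset.mul_sum, geo N hN _ (h a ha b hb)]
  by_cases h3 : f a = g b
  · rw [if_pos h3, if_pos (sub_eq_zero.mpr h3)]
    ring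
  · rw [if_neg h3, if_neg (sub_ne_zero.mpr h3)]
    ring

/-- the Dirichlet kernel -/
theorem dir (L : ℕ) (v : ℝ) :
    ‖∑ r ∈ Finset.range L, ex (r * v)‖ * |Real.sin (v / 2)| ≤ 1 := by
  have h1 : (∑ r ∈ Finset.range L, ex (r * v)) * (ex v - 1) = ex (L * v) - 1 := by
    have h2 : ∀ r : ℕ, ex (r * v) = ex v ^ r := fun r => (ex_pow v r).symm
    simp only [h2]
    exact geom_sum_mul _ _
  have h3 : ‖ex v - 1‖ = 2 * |Real.sin (v / 2)| := by
    rw [ex_eq, Complex.norm_exp_I_mul_ofReal_sub_one, Real.norm_eq_abs, abs_mul,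
      abs_of_pos (two_pos : (0 : ℝ) < 2)]
  have h4 : ‖ex (L * v) - 1‖ ≤ 2 := by
    refine (norm_sub_le _ _).trans ?_
    rw [norm_ex, norm_one]
    norm_num
  have h5 := congrArg norm h1
  rw [norm_mul, h3] at h5
  nlinarith

theorem dir_triv (L : ℕ) (v : ℝ) : ‖∑ r ∈ Finset.range L, ex (r * v)‖ ≤ L := by
  refine (norm_sum_le _ _).trans ?_
  simp [norm_ex]

/-- bound for the Dirichlet kernel on the cells -/
noncomputable def Kf (L ρ : ℕ) : ℝ :=
  (if ρ = 0 then (L : ℝ) else 0) + (if ρ + 1 = L then (L : ℝ) else 0) +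
    (L / 2 * (1 / (ρ : ℝ)) + L / 2 * (1 / ((L - 1 - ρ : ℕ) : ℝ)))

theorem Kf_bound (L M ρ w : ℕ) (hM : 0 < M) (hρ : ρ < L) (hw : w < M) :
    ‖∑ r ∈ Finset.range L, ex (r * (2 * Real.pi / ((L * M : ℕ) : ℝ) * ((M * ρ + w : ℕ) : ℝ)))‖ ≤
      Kf L ρ := by
  have hL0 : 0 < L := by omega
  have hLr : (0 : ℝ) < L := by exact_mod_cast hL0
  have hMr : (0 : ℝ) < M := by exact_mod_cast hM
  have hA : 0 ≤ (L : ℝ) / 2 * (1 / (ρ : ℝ)) := by positivity
  have hB : 0 ≤ (L : ℝ) / 2 * (1 / ((L - 1 - ρ : ℕ) : ℝ)) := by positivity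
  have hC : 0 ≤ (if ρ = 0 then (L : ℝ) else 0) := by split_ifs <;> positivity
  have hD : 0 ≤ (if ρ + 1 = L then (L : ℝ) else 0) := by split_ifs <;> positivity
  obtain ⟨v, hv⟩ : ∃ v : ℝ, v = 2 * Real.pi / ((L * M : ℕ) : ℝ) * ((M * ρ + w : ℕ) : ℝ) :=
    ⟨_, rfl⟩
  rw [← hv]
  have htriv := dir_triv L v
  have hdir := dir L v
  unfold Kf
  by_cases h1 : ρ = 0
  · rw [if_pos h1]
    linarith
  by_cases h2 : ρ + 1 = L
  · rw [if_pos h2]
    linarith
  have hρ0 : (0 : ℝ) < ρ := by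
    have : 0 < ρ := by omega
    exact_mod_cast this
  have hρ1 : (0 : ℝ) < ((L - 1 - ρ : ℕ) : ℝ) := by
    have : 0 < L - 1 - ρ := by omega
    exact_mod_cast this
  have hcast : ((L - 1 - ρ : ℕ) : ℝ) = L - 1 - ρ := by
    rw [Nat.cast_sub (by omega), Nat.cast_sub (by omega)]
    simp
  have hwr : (w : ℝ) < M := by exact_mod_cast hw
  have hw0 : (0 : ℝ) ≤ w := Nat.cast_nonneg w
  have hpi := Real.pi_pos
  -- the angle
  have hx : v / 2 = Real.pi * ((M * ρ + w) / (L * M)) := by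
    rw [hv]
    push_cast
    ring
  have hlow : (ρ : ℝ) / L ≤ (M * ρ + w) / (L * M) := by
    rw [div_le_div_iff₀ hLr (by positivity)]
    nlinarith
  have hup : ((M : ℝ) * ρ + w) / (L * M) ≤ (ρ + 1) / L := by
    rw [div_le_div_iff₀ (by positivity) hLr]
    nlinarith
  obtain ⟨y, hy⟩ : ∃ y : ℝ, y = ((M : ℝ) * ρ + w) / (L * M) := ⟨_, rfl⟩
  rw [← hy] at hx hlow hup
  have hρL : 0 ≤ (ρ : ℝ) / L := by positivity
  have hρL1 : ((ρ : ℝ) + 1) / L ≤ 1 := by
    rw [div_le_one hLr]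
    have : ρ + 1 ≤ L := by omega
    exact_mod_cast this
  obtain ⟨X, hX⟩ : ∃ X : ℝ, X = ‖∑ r ∈ Finset.range L, ex (r * v)‖ := ⟨_, rfl⟩
  have hX0 : 0 ≤ X := by rw [hX]; exact norm_nonneg _
  rw [← hX] at hdir ⊢
  rw [if_neg h1, if_neg h2]
  rcases le_total y (1 / 2) with h3 | h3
  · have h4 : 2 * (ρ / L) ≤ |Real.sin (v / 2)| := by
      refine le_trans ?_ (le_abs_self _)
      rw [hx]
      have h5 := Real.mul_le_sin (x := Real.pi * y) (mul_nonneg hpi.le (hρL.trans hlow))
        (by nlinarith)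
      have h6 : 2 / Real.pi * (Real.pi * y) = 2 * y := by
        field_simp
      rw [h6] at h5
      linarith
    have h7 : X * (2 * (ρ / L)) ≤ 1 := (mul_le_mul_of_nonneg_left h4 hX0).trans hdir
    have h8 : X ≤ L / 2 * (1 / (ρ : ℝ)) := by
      have h9 : X * (2 * (ρ / L)) * (L / 2 * (1 / (ρ : ℝ))) ≤ 1 * (L / 2 * (1 / (ρ : ℝ))) :=
        mul_le_mul_of_nonneg_right h7 hA
      have h10 : X * (2 * (ρ / L)) * (L / 2 * (1 / (ρ : ℝ))) = X := by
        field_simp
      linarith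
    linarith
  · have h4 : 2 * (((L - 1 - ρ : ℕ) : ℝ) / L) ≤ |Real.sin (v / 2)| := by
      refine le_trans ?_ (le_abs_self _)
      rw [hx, ← Real.sin_pi_sub]
      have h5 := Real.mul_le_sin (x := Real.pi - Real.pi * y) (by nlinarith) (by nlinarith)
      have h6 : 2 / Real.pi * (Real.pi - Real.pi * y) = 2 * (1 - y) := by
        field_simp
      rw [h6] at h5
      have h7 : ((L - 1 - ρ : ℕ) : ℝ) / L = 1 - (ρ + 1) / L := by
        rw [hcast]
        field_simp
        ring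
      rw [h7]
      linarith
    have h7 : X * (2 * (((L - 1 - ρ : ℕ) : ℝ) / L)) ≤ 1 :=
      (mul_le_mul_of_nonneg_left h4 hX0).trans hdir
    have h8 : X ≤ L / 2 * (1 / ((L - 1 - ρ : ℕ) : ℝ)) := by
      have h9 : X * (2 * (((L - 1 - ρ : ℕ) : ℝ) / L)) * (L / 2 * (1 / ((L - 1 - ρ : ℕ) : ℝ))) ≤
          1 * (L / 2 * (1 / ((L - 1 - ρ : ℕ) : ℝ))) :=
        mul_le_mul_of_nonneg_right h7 hB
      have h10 : X * (2 * (((L - 1 - ρ : ℕ) : ℝ) / L)) *
          (L / 2 * (1 / ((L - 1 - ρ : ℕ) : ℝ))) = X := by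
        field_simp
      linarith
    linarith

theorem harm (i : ℕ) : ∑ ρ ∈ Finset.range (2 ^ i), 1 / (ρ : ℝ) ≤ i + 1 := by
  induction i with
  | zero => simp
  | succ k ih =>
    have h1 : 2 ^ (k + 1) = 2 ^ k + 2 ^ k := by ring
    rw [h1, Finset.sum_range_add]
    have h2 : ∑ x ∈ Finset.range (2 ^ k), 1 / ((2 ^ k + x : ℕ) : ℝ) ≤ 1 := by
      have h3 : ∀ x ∈ Finset.range (2 ^ k), 1 / ((2 ^ k + x : ℕ) : ℝ) ≤ 1 / 2 ^ k := by
        intro x _
        apply one_div_le_one_div_of_le (by positivity)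
        push_cast
        have : (0 : ℝ) ≤ x := Nat.cast_nonneg x
        linarith
      refine (Finset.sum_le_sum h3).trans (le_of_eq ?_)
      rw [Finset.sum_const, Finset.card_range, nsmul_eq_mul]
      push_cast
      field_simp
    push_cast at h2 ⊢
    linarith

theorem Kf_sum (i : ℕ) : ∑ ρ ∈ Finset.range (2 ^ i), Kf (2 ^ i) ρ ≤ 2 ^ i * (i + 3) := by
  have hL : 0 < 2 ^ i := by positivity
  unfold Kf
  rw [Finset.sum_add_distrib, Finset.sum_add_distrib, Finset.sum_add_distrib, ← Finset.mul_sum,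
    ← Finset.mul_sum]
  have h1 := Finset.sum_range_reflect (fun ρ : ℕ => 1 / (ρ : ℝ)) (2 ^ i)
  rw [h1]
  have h2 : ∑ ρ ∈ Finset.range (2 ^ i), (if ρ = 0 then ((2 ^ i : ℕ) : ℝ) else 0) ≤ 2 ^ i := by
    rw [Finset.sum_ite_eq' , if_pos (Finset.mem_range.mpr hL)]
    push_cast
    exact le_rfl
  have h3 : ∑ ρ ∈ Finset.range (2 ^ i), (if ρ + 1 = 2 ^ i then ((2 ^ i : ℕ) : ℝ) else 0) ≤
      2 ^ i := by
    rw [Finset.sum_eq_single (2 ^ i - 1)]
    · rw [if_pos (by omega)]
      push_cast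
      exact le_rfl
    · intro b _ hb
      rw [if_neg (by omega)]
    · intro h
      exact absurd (Finset.mem_range.mpr (by omega)) h
  have h4 := harm i
  have h5 : (0 : ℝ) < 2 ^ i := by positivity
  push_cast at h2 h3 ⊢
  have h6 : (2 : ℝ) ^ i / 2 * ∑ ρ ∈ Finset.range (2 ^ i), 1 / (ρ : ℝ) ≤ 2 ^ i / 2 * (i + 1) :=
    mul_le_mul_of_nonneg_left h4 (by positivity)
  linarith

theorem sum_split (f : ℕ → ℝ) (L M : ℕ) : ∑ w ∈ Finset.range (L * M), f w =
    ∑ ρ ∈ Finset.range L, ∑ w ∈ Finset.range M, f (M * ρ + w) := by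
  induction L with
  | zero => simp
  | succ k ih =>
    rw [Finset.sum_range_succ, ← ih, add_mul, one_mul, Finset.sum_range_add]
    congr 1
    refine Finset.sum_congr rfl fun w _ => ?_
    rw [mul_comm]

end BES_

open BES_ in
theorem p_BES : T_BES := by
  intro s A i hA
  obtain ⟨L, hL⟩ : ∃ L : ℕ, L = 2 ^ i := ⟨_, rfl⟩
  have hL0 : 0 < L := by rw [hL]; positivity
  have hLz : (2 : ℤ) ^ i = (L : ℤ) := by rw [hL]; push_cast; rfl
  have hLr : (0 : ℝ) < L := by exact_mod_cast hL0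
  obtain ⟨c, hc⟩ : ∃ c : ℤ → ℂ, c = fun j => blk s A i j := ⟨_, rfl⟩
  obtain ⟨J, hJ⟩ : ∃ J : Finset ℤ, J = s.image (fun n => n / (L : ℤ)) := ⟨_, rfl⟩
  obtain ⟨S, hS⟩ : ∃ S : ℝ, S = ∑ j ∈ J, ‖c j‖ ^ 2 := ⟨_, rfl⟩
  have hS0 : 0 ≤ S := by rw [hS]; exact Finset.sum_nonneg fun j _ => sq_nonneg _
  -- a bound for the elements of `s`
  obtain ⟨B, hB⟩ : ∃ B : ℕ, ∀ n ∈ s, |n| ≤ (B : ℤ) := by
    refine ⟨∑ n ∈ s, n.natAbs, fun n hn => ?_⟩
    rw [Int.abs_eq_natAbs]
    exact_mod_cast Finset.single_le_sum (f := fun n : ℤ => n.natAbs) (fun _ _ => Nat.zero_le _) hn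
  obtain ⟨M, hM⟩ : ∃ M : ℕ, M = 2 * B + 2 := ⟨_, rfl⟩
  have hM0 : 0 < M := by omega
  have hMr : (0 : ℝ) < M := by exact_mod_cast hM0
  have hLz0 : (0 : ℤ) < L := by exact_mod_cast hL0
  have hjB : ∀ j ∈ J, ∃ n ∈ s, n / (L : ℤ) = j := by
    intro j hj
    rw [hJ, Finset.mem_image] at hj
    exact hj
  -- key: N S ≤ M √S Σ K
  have key : (L * M : ℝ) * S ≤ M * √S * (L * (i + 3)) := by
    have hN0 : 0 < L * M := Nat.mul_pos hL0 hM0
    have hdiv : ∀ n : ℤ, n / (L : ℤ) * L ≤ n ∧ n < n / (L : ℤ) * L + L := by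
      intro n
      have h1 := Int.emod_add_mul_ediv n (L : ℤ)
      have h2 := Int.emod_nonneg n hLz0.ne'
      have h3 := Int.emod_lt_of_pos n hLz0
      constructor <;> nlinarith
    obtain ⟨P, hP⟩ : ∃ P : ℕ → ℂ, P = fun w : ℕ => ∑ j ∈ J, c j *
        ex (j * (2 * Real.pi / M * (w : ℝ))) := ⟨_, rfl⟩
    -- Parseval for `P`
    have hPar : ∑ w ∈ Finset.range M, ‖P w‖ ^ 2 = M * S := by
      have h1 := par J J (fun j => j) (fun j => j) c c M hM0 (by
        intro a ha b hb
        obtain ⟨n, hn, rfl⟩ := hjB a ha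
        obtain ⟨n', hn', rfl⟩ := hjB b hb
        have h2 := hdiv n
        have h3 := hdiv n'
        have h4 := abs_le.mp (hB n hn)
        have h5 := abs_le.mp (hB n' hn')
        have h6 : (M : ℤ) = 2 * B + 2 := by rw [hM]; push_cast; ring
        have h7 : (0 : ℤ) ≤ B := Int.natCast_nonneg B
        have h8 : (1 : ℤ) ≤ L := hLz0
        rw [abs_lt, h6]
        constructor
        · by_contra h9
          push Not at h9
          nlinarith
        · by_contra h9
          push Not at h9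
          nlinarith)
      have h2 : ∑ a ∈ J, ∑ b ∈ J, (if a = b then c a * (starRingEnd ℂ) (c b) else 0) =
          ((S : ℝ) : ℂ) := by
        rw [hS]
        push_cast
        refine Finset.sum_congr rfl fun a ha => ?_
        rw [Finset.sum_ite_eq, if_pos ha, Complex.mul_conj']
      rw [h2] at h1
      have h3 : ∀ w : ℕ, (∑ a ∈ J, c a * ex (a * (2 * Real.pi / M * w))) *
          (starRingEnd ℂ) (∑ b ∈ J, c b * ex (b * (2 * Real.pi / M * w))) =
          ((‖P w‖ ^ 2 : ℝ) : ℂ) := by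
        intro w
        rw [hP, Complex.mul_conj']
        push_cast
        rfl
      simp only [h3] at h1
      exact_mod_cast h1
    have hCS : ∑ w ∈ Finset.range M, ‖P w‖ ≤ M * √S := by
      have h1 := sq_sum_le_card_mul_sum_sq (s := Finset.range M) (f := fun w => ‖P w‖)
      rw [hPar, Finset.card_range] at h1
      have h2 : (∑ w ∈ Finset.range M, ‖P w‖) ^ 2 ≤ (M * √S) ^ 2 := by
        rw [mul_pow, Real.sq_sqrt hS0]
        refine h1.trans (le_of_eq ?_)
        ring
      exact (sq_le_sq₀ (Finset.sum_nonneg fun _ _ => norm_nonneg _) (by positivity)).mp h2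
    have hper : ∀ ρ w : ℕ, P (M * ρ + w) = P w := by
      intro ρ w
      rw [hP]
      refine Finset.sum_congr rfl fun j _ => ?_
      congr 1
      have h1 : (j : ℝ) * (2 * Real.pi / M * ((M * ρ + w : ℕ) : ℝ)) =
          ((j * ρ : ℤ) : ℝ) * (2 * Real.pi) + j * (2 * Real.pi / M * w) := by
        push_cast
        field_simp
      rw [h1, ex_add, ex_int, one_mul]
    -- the kernel
    have hQ : ∀ w : ℕ, ∑ b ∈ J ×ˢ Finset.range L, c b.1 *
        ex (((b.1 * L + b.2 : ℤ) : ℝ) * (2 * Real.pi / ((L * M : ℕ) : ℝ) * w)) =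
        (∑ r ∈ Finset.range L, ex (r * (2 * Real.pi / ((L * M : ℕ) : ℝ) * w))) * P w := by
      intro w
      rw [hP]
      change _ = _ * ∑ j ∈ J, c j * ex (j * (2 * Real.pi / M * (w : ℝ)))
      rw [mul_comm (∑ r ∈ Finset.range L, ex (r * (2 * Real.pi / ((L * M : ℕ) : ℝ) * w))),
        Finset.sum_mul_sum, Finset.sum_product]
      refine Finset.sum_congr rfl fun j _ => Finset.sum_congr rfl fun r _ => ?_
      rw [mul_assoc, ← ex_add]
      congr 2
      push_cast
      field_simp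
    have horth := par s (J ×ˢ Finset.range L) (fun n => n) (fun b => b.1 * L + b.2) A
      (fun b => c b.1) (L * M) hN0 (by
        intro n hn b hb
        rw [Finset.mem_product, Finset.mem_range] at hb
        obtain ⟨n', hn', hnb⟩ := hjB b.1 hb.1
        have h3 := hdiv n'
        rw [hnb] at h3
        have h4 := abs_le.mp (hB n hn)
        have h5 := abs_le.mp (hB n' hn')
        have h6 : (M : ℤ) = 2 * B + 2 := by rw [hM]; push_cast; ring
        have h7 : (0 : ℤ) ≤ B := Int.natCast_nonneg B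
        have h8 : (1 : ℤ) ≤ L := hLz0
        have h9 : (b.2 : ℤ) < L := by exact_mod_cast hb.2
        have h10 : (0 : ℤ) ≤ b.2 := Int.natCast_nonneg _
        push_cast
        rw [abs_lt, h6]
        constructor <;> nlinarith)
    have hdiag : ∑ n ∈ s, ∑ b ∈ J ×ˢ Finset.range L,
        (if n = b.1 * L + b.2 then A n * (starRingEnd ℂ) (c b.1) else 0) = ((S : ℝ) : ℂ) := by
      have h1 : ∀ n ∈ s, ∑ b ∈ J ×ˢ Finset.range L,
          (if n = b.1 * L + b.2 then A n * (starRingEnd ℂ) (c b.1) else 0) =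
          A n * (starRingEnd ℂ) (c (n / L)) := by
        intro n hn
        have h2 := Int.emod_add_mul_ediv n (L : ℤ)
        have h3 := Int.emod_nonneg n hLz0.ne'
        have h4 := Int.emod_lt_of_pos n hLz0
        have h5 : ((n % (L : ℤ)).toNat : ℤ) = n % L := Int.toNat_of_nonneg h3
        rw [Finset.sum_eq_single (n / (L : ℤ), (n % (L : ℤ)).toNat)]
        · rw [if_pos]
          change n = n / (L : ℤ) * L + ((n % (L : ℤ)).toNat : ℤ)
          rw [h5]
          linarith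
        · intro b hb hne
          rw [if_neg]
          intro h6
          apply hne
          rw [Finset.mem_product, Finset.mem_range] at hb
          have h7 : (b.2 : ℤ) < L := by exact_mod_cast hb.2
          have h8 : (0 : ℤ) ≤ b.2 := Int.natCast_nonneg _
          have h9 : n / (L : ℤ) = b.1 := by
            rw [h6, add_comm, Int.add_mul_ediv_right _ _ hLz0.ne', Int.ediv_eq_zero_of_lt h8 h7,
              zero_add]
          have h10 : n % (L : ℤ) = b.2 := by
            rw [h9] at h2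
            linarith
          rw [h9, h10]
          simp
        · intro h6
          exfalso
          apply h6
          rw [Finset.mem_product, Finset.mem_range]
          constructor
          · rw [hJ, Finset.mem_image]
            exact ⟨n, hn, rfl⟩
          · have : ((n % (L : ℤ)).toNat : ℤ) < L := by rw [h5]; exact h4
            exact_mod_cast this
      rw [Finset.sum_congr rfl h1, ← Finset.sum_fiberwise_of_maps_to (s := s) (t := J)
        (g := fun n => n / (L : ℤ)) (by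
          intro n hn
          rw [hJ, Finset.mem_image]
          exact ⟨n, hn, rfl⟩), hS]
      push_cast
      refine Finset.sum_congr rfl fun j _ => ?_
      have h2 : c j = ∑ n ∈ s with n / (L : ℤ) = j, A n := by
        rw [hc]
        change blk s A i j = _
        unfold blk
        rw [hLz]
      rw [← Complex.mul_conj']
      conv_rhs => rw [h2]
      rw [Finset.sum_mul]
      refine Finset.sum_congr rfl fun n hn => ?_
      rw [Finset.mem_filter] at hn
      rw [hn.2, ← h2]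
    rw [hdiag] at horth
    have hnorm := congrArg norm horth
    rw [norm_mul, Complex.norm_real, Real.norm_of_nonneg hS0] at hnorm
    have hN1 : ‖((L * M : ℕ) : ℂ)‖ = L * M := by
      rw [Complex.norm_natCast]
      push_cast
      rfl
    rw [hN1] at hnorm
    rw [← hnorm]
    have hKf : ∀ ρ ∈ Finset.range L, ∀ w ∈ Finset.range M,
        ‖∑ r ∈ Finset.range L, ex (r * (2 * Real.pi / ((L * M : ℕ) : ℝ) *
          ((M * ρ + w : ℕ) : ℝ)))‖ * ‖P (M * ρ + w)‖ ≤ Kf L ρ * ‖P w‖ := by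
      intro ρ hρ w hw
      rw [hper]
      exact mul_le_mul_of_nonneg_right (Kf_bound L M ρ w hM0 (Finset.mem_range.mp hρ)
        (Finset.mem_range.mp hw)) (norm_nonneg _)
    have hKf0 : ∀ ρ, 0 ≤ Kf L ρ := by
      intro ρ
      unfold Kf
      have h1 : 0 ≤ (if ρ = 0 then (L : ℝ) else 0) := by split_ifs <;> positivity
      have h2 : 0 ≤ (if ρ + 1 = L then (L : ℝ) else 0) := by split_ifs <;> positivity
      positivity
    calc _ ≤ ∑ w ∈ Finset.range (L * M), ‖∑ r ∈ Finset.range L,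
          ex (r * (2 * Real.pi / ((L * M : ℕ) : ℝ) * w))‖ * ‖P w‖ := by
          refine (norm_sum_le _ _).trans (Finset.sum_le_sum fun w _ => ?_)
          rw [norm_mul, RCLike.norm_conj, hQ, norm_mul]
          have h1 : ‖∑ n ∈ s, A n * ex (n * (2 * Real.pi / ((L * M : ℕ) : ℝ) * w))‖ ≤ 1 :=
            hA (2 * Real.pi / ((L * M : ℕ) : ℝ) * w)
          have h2 : 0 ≤ ‖∑ r ∈ Finset.range L,
            ex (r * (2 * Real.pi / ((L * M : ℕ) : ℝ) * w))‖ * ‖P w‖ := by positivity
          exact mul_le_of_le_one_left h2 h1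
      _ = ∑ ρ ∈ Finset.range L, ∑ w ∈ Finset.range M, ‖∑ r ∈ Finset.range L,
          ex (r * (2 * Real.pi / ((L * M : ℕ) : ℝ) * ((M * ρ + w : ℕ) : ℝ)))‖ *
            ‖P (M * ρ + w)‖ := sum_split (fun w => ‖∑ r ∈ Finset.range L,
          ex (r * (2 * Real.pi / ((L * M : ℕ) : ℝ) * (w : ℝ)))‖ * ‖P w‖) L M
      _ ≤ ∑ ρ ∈ Finset.range L, ∑ w ∈ Finset.range M, Kf L ρ * ‖P w‖ :=
          Finset.sum_le_sum fun ρ hρ => Finset.sum_le_sum fun w hw => hKf ρ hρ w hw
      _ = (∑ ρ ∈ Finset.range L, Kf L ρ) * ∑ w ∈ Finset.range M, ‖P w‖ := by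
          rw [Finset.sum_mul_sum]
      _ ≤ (L * (i + 3)) * (M * √S) := by
          apply mul_le_mul _ hCS (Finset.sum_nonneg fun _ _ => norm_nonneg _) (by positivity)
          have h1 := Kf_sum i
          rw [← hL] at h1
          refine h1.trans (le_of_eq ?_)
          rw [hL]
          push_cast
          rfl
      _ = M * √S * (L * (i + 3)) := by ring
  have hfin : S ≤ (i + 3) ^ 2 := by
    have h1 : S ≤ √S * (i + 3) := by
      have h2 : (L * M : ℝ) * S ≤ (L * M : ℝ) * (√S * (i + 3)) := by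
        refine key.trans (le_of_eq ?_)
        ring
      exact le_of_mul_le_mul_left h2 (by positivity)
    have h3 : √S * √S = S := Real.mul_self_sqrt hS0
    have h4 : 0 ≤ √S := Real.sqrt_nonneg S
    have h5 : (0 : ℝ) ≤ i + 3 := by positivity
    rcases eq_or_lt_of_le h4 with h6 | h6
    · rw [← h6] at h3
      nlinarith
    · have h7 : √S ≤ i + 3 := by
        have h8 : √S * √S ≤ √S * (i + 3) := by rw [h3]; exact h1
        exact le_of_mul_le_mul_left h8 h6
      nlinarith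
  rw [tsum_eq_sum (s := J)]
  · have h1 : ∑ j ∈ J, ‖blk s A i j‖ₑ ^ 2 = ENNReal.ofReal S := by
      rw [hS, ENNReal.ofReal_sum_of_nonneg (fun j _ => sq_nonneg _)]
      refine Finset.sum_congr rfl fun j _ => ?_
      rw [ENNReal.ofReal_pow (norm_nonneg _), ofReal_norm, hc]
    rw [h1]
    exact ENNReal.ofReal_le_ofReal hfin
  · intro j hj
    have h1 : blk s A i j = 0 := by
      unfold blk
      rw [Finset.filter_false_of_mem, Finset.sum_empty]
      intro n hn hnj
      apply hj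
      rw [hJ, Finset.mem_image]
      exact ⟨n, hn, by rw [← hLz]; exact hnj⟩
    rw [h1]
    simp

end Wey
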