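import Pool.Agent.Wey.Targets2
import Pool.Agent.Wey.ASM

/-!
# MP_5ab805_an, exponential sums as partners of every function: weighted assembly on the square
(helper42, after ASM.lean of helper69)
-/

set_option autoImplicit false

namespace Wey

open MeasureTheory Set Filter
open scoped ENNReal NNReal Topology
open Pool.Agent.Restr (u E QQ enorm_u norm_u continuous_u measurable_u measurable_E L2_slice vol_QQ
  lin_q lin_2 eLpNorm_le_of_lin)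
open TriL (Sq n2)

namespace ASW_

open ASM_

theorem slab2 (C : ℝ≥0) {m : ℕ} {h : ℝ} {ψ : ℤ → ℝ} {s : Finset ℤ}
    {a : ℤ → ℂ} {χ f : ℝ × ℝ → ℂ} {K R : ℝ≥0} (hm : 1 ≤ m)
    (hW : Wi K χ) (h0 : ∀ x, x ∉ QQ → χ x = 0) (hf : Sq f)
    (hG : n2 f * n2 (fun x => χ x * Gs h ψ s a x) ≤ 9 * (K : ℝ≥0∞) ^ 2 * (R : ℝ≥0∞) ^ 2) (k : ℕ) :
    ∫⁻ ξ in Sl k, XX h ψ s a χ f ξ ≤ (cN C K R m : ℝ≥0∞) * 2 ^ k := by
  have h1 : (∫⁻ ξ in Sl k, XX h ψ s a χ f ξ) ^ 2 ≤ (480 * K * R * 2 ^ k) ^ 2 := by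
    unfold XX
    refine (cs (measurable_E hf.1).enorm.aemeasurable
      (measurable_E (sq_chi hW h0 h ψ s a).1).enorm.aemeasurable).trans ?_
    calc (∫⁻ ξ in Sl k, ‖E f ξ‖ₑ ^ 2) *
          ∫⁻ ξ in Sl k, ‖E (fun x => χ x * Gs h ψ s a x) ξ‖ₑ ^ 2
        ≤ (160 * 2 ^ k * n2 f) * (160 * 2 ^ k * n2 (fun x => χ x * Gs h ψ s a x)) :=
          mul_le_mul' (slab_L2 hf.1 k) (slab_L2 (sq_chi hW h0 h ψ s a).1 k)
      _ = (160 * 2 ^ k) ^ 2 * (n2 f * n2 (fun x => χ x * Gs h ψ s a x)) := by ring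
      _ ≤ (160 * 2 ^ k) ^ 2 * (9 * (K : ℝ≥0∞) ^ 2 * (R : ℝ≥0∞) ^ 2) := by gcongr
      _ = _ := by ring
  have h2 : ∫⁻ ξ in Sl k, XX h ψ s a χ f ξ ≤ 480 * K * R * 2 ^ k :=
    (ENNReal.pow_le_pow_left_iff two_ne_zero).1 h1
  refine h2.trans ?_
  have h3 : 480 * K * R ≤ cN C K R m := by
    unfold cN
    have h4 : (1 : ℝ≥0) ≤ NNReal.sqrt m := by
      rw [NNReal.le_sqrt_iff_sq_le]
      simpa using hm
    calc 480 * K * R = 480 * K * 1 * R := by ring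
      _ ≤ (3 * NNReal.sqrt C + 480) * K * NNReal.sqrt m * R := by
        gcongr
        exact le_add_self
  have h5 : (480 * K * R : ℝ≥0∞) ≤ (cN C K R m : ℝ≥0∞) := by exact_mod_cast h3
  gcongr

theorem Sq_zero : Sq (fun _ : ℝ × ℝ => (0 : ℂ)) := ⟨measurable_const, fun _ _ => rfl⟩

end ASW_

open ASM_ in
theorem p_ASW (h1 : T_CUT) (h2 : T_SQW) (h3 : T_SQB) (h4 : T_IN1) (h5 : T_IN2) : T_ASW := by
  intro q hq hq4
  obtain ⟨ε1, hε1, C1, hC1⟩ := h4 (q / 2) (by linarith) (by linarith)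
  obtain ⟨ε2, hε2, C2, hC2⟩ := h5 (q / 3) (by linarith) (by linarith)
  obtain ⟨D1, hD1⟩ := h1 ε1 hε1
  obtain ⟨D2, hD2⟩ := h1 ε2 hε2
  set C : ℝ≥0 := C1 ^ (1 / (q / 2)) * (3 * NNReal.sqrt D1 + 480) +
    C2 ^ (1 / (q / 3)) * (3 * NNReal.sqrt D2 + 480) + 1 with hC
  refine ⟨C, ?_⟩
  intro m h ψ s a χ K hm hh hA hW h0 f B hf hNB
  have hCa : C1 ^ (1 / (q / 2)) * (3 * NNReal.sqrt D1 + 480) ≤ C := by
    rw [hC, add_assoc]
    exact le_self_add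
  have hCb : C2 ^ (1 / (q / 3)) * (3 * NNReal.sqrt D2 + 480) ≤ C := by
    rw [hC, add_assoc, add_left_comm]
    exact le_self_add
  have hC0 : (C : ℝ≥0∞) ≠ 0 := by
    have : C ≠ 0 := by
      rw [hC]
      positivity
    exact_mod_cast this
  have hm0 : ((NNReal.sqrt m : ℝ≥0) : ℝ≥0∞) ≠ 0 := by
    have : NNReal.sqrt m ≠ 0 := by
      rw [Ne, NNReal.sqrt_eq_zero]
      exact_mod_cast (by omega : m ≠ 0)
    exact_mod_cast this
  -- the second factor vanishes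
  have zero : (∀ ξ, E (fun x => χ x * Gs h ψ s a x) ξ = 0) →
      eLpNorm (fun ξ => E f ξ * E (fun x => χ x * Gs h ψ s a x) ξ)
        (ENNReal.ofReal (q / 2)) volume ≤ C * K * NNReal.sqrt m * B ∧
      ∀ g : ℝ × ℝ → ℂ, Sq g →
        eLpNorm (fun ξ => E f ξ * E g ξ * E (fun x => χ x * Gs h ψ s a x) ξ)
        (ENNReal.ofReal (q / 3)) volume ≤ C * K * NNReal.sqrt m * B * eLpNorm g 2 volume := by
    intro hE
    refine ⟨?_, fun g _ => ?_⟩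
    · simp [hE]
    · simp [hE]
  by_cases hK : K = 0
  · refine zero fun ξ => E_zero_of_ae (Eventually.of_forall fun x => ?_) ξ
    have hx := wi_le hW x
    rw [hK, ENNReal.coe_zero, nonpos_iff_eq_zero, enorm_eq_zero] at hx
    simp [hx]
  have hK' : (K : ℝ≥0∞) ≠ 0 := by exact_mod_cast hK
  by_cases hB : B = ⊤
  · have htop : (C : ℝ≥0∞) * K * NNReal.sqrt m * B = ⊤ := by
      rw [hB]
      exact ENNReal.mul_top (mul_ne_zero (mul_ne_zero hC0 hK') hm0)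
    refine ⟨?_, fun g hg => ?_⟩
    · rw [htop]
      exact le_top
    · by_cases hg0 : eLpNorm g 2 volume = 0
      · have hg1 : g =ᵐ[volume] 0 := by
          rwa [eLpNorm_eq_zero_iff hg.1.aestronglyMeasurable (by norm_num)] at hg0
        have hE : ∀ ξ, E g ξ = 0 := fun ξ => E_zero_of_ae hg1 ξ
        simp [hE]
      · rw [htop, ENNReal.top_mul hg0]
        exact le_top
  obtain ⟨hS, hP⟩ := h2 h ψ s a f (B ^ 2) hh hf hNB
  have h7 := (h3 h ψ s a (fun _ => 0) 0 hh ASW_.Sq_zero (by simp)).2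
  have hG : n2 (fun x => χ x * Gs h ψ s a x) ≤
      (K : ℝ≥0∞) ^ 2 * (8 * ∑ n ∈ s, ‖a n‖ₑ ^ 2) := by
    refine (n2_chi hW h0 h ψ s a).trans ?_
    gcongr
  by_cases hn : n2 f = ⊤
  · have ha : ∑ n ∈ s, ‖a n‖ₑ ^ 2 = 0 := by
      by_contra hne
      rw [hn, ENNReal.top_mul hne] at hP
      exact ENNReal.pow_ne_top hB (top_le_iff.1 hP)
    rw [ha, mul_zero, mul_zero, nonpos_iff_eq_zero] at hG
    have hm2 := (sq_chi hW h0 h ψ s a).1
    have hG1 : (fun x => χ x * Gs h ψ s a x) =ᵐ[volume] 0 := by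
      unfold n2 at hG
      rw [lintegral_eq_zero_iff (hm2.enorm.pow_const 2)] at hG
      filter_upwards [hG] with x hx
      simpa using hx
    exact zero fun ξ => E_zero_of_ae hG1 ξ
  -- the main case
  have hi : Integrable f := TriL.SUM_.integrable_of_Sq hf hn
  obtain ⟨R, rfl⟩ : ∃ R : ℝ≥0, (R : ℝ≥0∞) = B := ⟨B.toNNReal, ENNReal.coe_toNNReal hB⟩
  have hS9 : SQ h ψ s a f (9 * (R : ℝ≥0∞) ^ 2) := by
    refine SQ_mono ?_ hS
    calc (R : ℝ≥0∞) ^ 2 = 1 * (R : ℝ≥0∞) ^ 2 := (one_mul _).symm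
      _ ≤ 9 * (R : ℝ≥0∞) ^ 2 := by
        gcongr
        norm_num
  have hGG : n2 f * n2 (fun x => χ x * Gs h ψ s a x) ≤ 9 * (K : ℝ≥0∞) ^ 2 * (R : ℝ≥0∞) ^ 2 := by
    calc n2 f * n2 (fun x => χ x * Gs h ψ s a x)
        ≤ n2 f * ((K : ℝ≥0∞) ^ 2 * (8 * ∑ n ∈ s, ‖a n‖ₑ ^ 2)) := by gcongr
      _ = 8 * (K : ℝ≥0∞) ^ 2 * (n2 f * ∑ n ∈ s, ‖a n‖ₑ ^ 2) := by ring
      _ ≤ 9 * (K : ℝ≥0∞) ^ 2 * (R : ℝ≥0∞) ^ 2 := by
        gcongr
        norm_num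
  constructor
  · have hb := hC1 (XX h ψ s a χ f) (cN D1 K R m) (meas_XX hW h0 hf)
      (slab1 hD1 hm hh hA hW h0 hf hi hS9) (ASW_.slab2 D1 hm hW h0 hf hGG)
    refine (fin1 (by linarith) hb).trans ?_
    have e : C1 ^ (1 / (q / 2)) * cN D1 K R m ≤ C * K * NNReal.sqrt m * R := by
      calc C1 ^ (1 / (q / 2)) * cN D1 K R m
          = C1 ^ (1 / (q / 2)) * (3 * NNReal.sqrt D1 + 480) * K * NNReal.sqrt m * R := by
            unfold cN
            ring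
        _ ≤ _ := by gcongr
    exact_mod_cast e
  · intro g hg
    have hb := hC2 (XX h ψ s a χ f) (cN D2 K R m) g (meas_XX hW h0 hf) hg.1
      (slab1 hD2 hm hh hA hW h0 hf hi hS9)
    refine (fin2 (by linarith) hb).trans ?_
    have e : C2 ^ (1 / (q / 3)) * cN D2 K R m ≤ C * K * NNReal.sqrt m * R := by
      calc C2 ^ (1 / (q / 3)) * cN D2 K R m
          = C2 ^ (1 / (q / 3)) * (3 * NNReal.sqrt D2 + 480) * K * NNReal.sqrt m * R := by
            unfold cN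
            ring
        _ ≤ _ := by gcongr
    have e' : ((C2 ^ (1 / (q / 3)) : ℝ≥0) : ℝ≥0∞) * (cN D2 K R m : ℝ≥0∞) ≤
        C * K * NNReal.sqrt m * R := by exact_mod_cast e
    exact mul_le_mul_left e' _

end Wey
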