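import Pool.Agent.Wey.Targets2
import Pool.Agent.Wey.BES

/-!
# Weighted square function of the dyadic blocks of a trigonometric polynomial (job WEY2-BEW)
-/

set_option autoImplicit false

namespace Wey

open MeasureTheory Set Filter
open scoped ENNReal NNReal Topology
open Pool.Agent.Restr (u norm_u u_add u_zero conj_u)

namespace BEW_

open BES_

/-- the weight at the `k`-th point -/
noncomputable def wt (i L M k : ℕ) : ℝ := (i + 3) * Kf L (k / M) / ((L : ℝ) * M)

theorem Kf_nonneg (L ρ : ℕ) : 0 ≤ Kf L ρ := by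
  unfold Kf
  have h1 : 0 ≤ (if ρ = 0 then (L : ℝ) else 0) := by split_ifs <;> positivity
  have h2 : 0 ≤ (if ρ + 1 = L then (L : ℝ) else 0) := by split_ifs <;> positivity
  positivity

theorem wt_nonneg (i L M k : ℕ) : 0 ≤ wt i L M k := by
  unfold wt
  have := Kf_nonneg L (k / M)
  positivity

theorem div_eq (M ρ w : ℕ) (hw : w < M) : (M * ρ + w) / M = ρ := by
  rw [Nat.mul_add_div (by omega), Nat.div_eq_of_lt hw, add_zero]

theorem wt_sum (i M : ℕ) (hM : 0 < M) :
    ∑ k ∈ Finset.range (2 ^ i * M), wt i (2 ^ i) M k ≤ (i + 3) ^ 2 := by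
  have hMr : (0 : ℝ) < M := by exact_mod_cast hM
  have h0 : (0 : ℝ) < 2 ^ i := by positivity
  rw [sum_split]
  have h1 : ∀ ρ ∈ Finset.range (2 ^ i), ∑ w ∈ Finset.range M, wt i (2 ^ i) M (M * ρ + w) =
      (i + 3) / 2 ^ i * Kf (2 ^ i) ρ := by
    intro ρ _
    have h2 : ∀ w ∈ Finset.range M, wt i (2 ^ i) M (M * ρ + w) =
        (i + 3) * Kf (2 ^ i) ρ / ((2 : ℝ) ^ i * M) := by
      intro w hw
      unfold wt
      rw [div_eq M ρ w (Finset.mem_range.mp hw)]
      push_cast
      rfl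
    rw [Finset.sum_congr rfl h2, Finset.sum_const, Finset.card_range, nsmul_eq_mul]
    field_simp
  rw [Finset.sum_congr rfl h1, ← Finset.mul_sum]
  have h3 := Kf_sum i
  calc (i + 3 : ℝ) / 2 ^ i * ∑ ρ ∈ Finset.range (2 ^ i), Kf (2 ^ i) ρ
      ≤ (i + 3) / 2 ^ i * (2 ^ i * (i + 3)) := mul_le_mul_of_nonneg_left h3 (by positivity)
    _ = (i + 3) ^ 2 := by field_simp

theorem core (s : Finset ℤ) (i B : ℕ) (hB : ∀ n ∈ s, |n| ≤ (B : ℤ)) (A : ℤ → ℂ) :
    ∑ j ∈ s.image (fun n => n / ((2 ^ i : ℕ) : ℤ)), ‖blk s A i j‖ ^ 2 ≤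
    ∑ k ∈ Finset.range (2 ^ i * (2 * B + 2)), wt i (2 ^ i) (2 * B + 2) k *
      ‖∑ n ∈ s, A n * ex (n * (2 * Real.pi / ((2 ^ i * (2 * B + 2) : ℕ) : ℝ) * k))‖ ^ 2 := by
  obtain ⟨L, hL⟩ : ∃ L : ℕ, L = 2 ^ i := ⟨_, rfl⟩
  have hL0 : 0 < L := by rw [hL]; positivity
  have hLz : (2 : ℤ) ^ i = (L : ℤ) := by rw [hL]; push_cast; rfl
  have hLr : (0 : ℝ) < L := by exact_mod_cast hL0
  obtain ⟨c, hc⟩ : ∃ c : ℤ → ℂ, c = fun j => blk s A i j := ⟨_, rfl⟩
  obtain ⟨J, hJ⟩ : ∃ J : Finset ℤ, J = s.image (fun n => n / (L : ℤ)) := ⟨_, rfl⟩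
  obtain ⟨S, hS⟩ : ∃ S : ℝ, S = ∑ j ∈ J, ‖c j‖ ^ 2 := ⟨_, rfl⟩
  have hS0 : 0 ≤ S := by rw [hS]; exact Finset.sum_nonneg fun j _ => sq_nonneg _
  obtain ⟨M, hM⟩ : ∃ M : ℕ, M = 2 * B + 2 := ⟨_, rfl⟩
  have hM0 : 0 < M := by omega
  have hMr : (0 : ℝ) < M := by exact_mod_cast hM0
  have hLz0 : (0 : ℤ) < L := by exact_mod_cast hL0
  have hjB : ∀ j ∈ J, ∃ n ∈ s, n / (L : ℤ) = j := by
    intro j hj
    rw [hJ, Finset.mem_image] at hj
    exact hj
  obtain ⟨G, hG⟩ : ∃ G : ℕ → ℂ, G = fun k : ℕ => ∑ n ∈ s, A n *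
      ex (n * (2 * Real.pi / ((L * M : ℕ) : ℝ) * k)) := ⟨_, rfl⟩
  have key : ((L * M : ℝ) * S) ^ 2 ≤ (∑ k ∈ Finset.range (L * M), Kf L (k / M) * ‖G k‖ ^ 2) *
      ((L * (i + 3)) * (M * S)) := by
    have hN0 : 0 < L * M := Nat.mul_pos hL0 hM0
    have hdiv : ∀ n : ℤ, n / (L : ℤ) * L ≤ n ∧ n < n / (L : ℤ) * L + L := by
      intro n
      have h1 := Int.emod_add_mul_ediv n (L : ℤ)
      have h2 := Int.emod_nonneg n hLz0.ne'
      have h3 := Int.emod_lt_of_pos n hLz0
      constructor <;> nlinarith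
    obtain ⟨P, hP⟩ : ∃ P : ℕ → ℂ, P = fun w : ℕ => ∑ j ∈ J, c j *
        ex (j * (2 * Real.pi / M * (w : ℝ))) := ⟨_, rfl⟩
    -- Parseval for `P`
    have hPar : ∑ w ∈ Finset.range M, ‖P w‖ ^ 2 = M * S := by
      have h1 := par J J (fun j => j) (fun j => j) c c M hM0 (by
        intro a ha b hb
        obtain ⟨n, hn, rfl⟩ := hjB a ha
        obtain ⟨n', hn', rfl⟩ := hjB b hb
        have h2 := hdiv n
        have h3 := hdiv n'
        have h4 := abs_le.mp (hB n hn)
        have h5 := abs_le.mp (hB n' hn')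
        have h6 : (M : ℤ) = 2 * B + 2 := by rw [hM]; push_cast; ring
        have h7 : (0 : ℤ) ≤ B := Int.natCast_nonneg B
        have h8 : (1 : ℤ) ≤ L := hLz0
        rw [abs_lt, h6]
        constructor
        · by_contra h9
          push Not at h9
          nlinarith
        · by_contra h9
          push Not at h9
          nlinarith)
      have h2 : ∑ a ∈ J, ∑ b ∈ J, (if a = b then c a * (starRingEnd ℂ) (c b) else 0) =
          ((S : ℝ) : ℂ) := by
        rw [hS]
        push_cast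
        refine Finset.sum_congr rfl fun a ha => ?_
        rw [Finset.sum_ite_eq, if_pos ha, Complex.mul_conj']
      rw [h2] at h1
      have h3 : ∀ w : ℕ, (∑ a ∈ J, c a * ex (a * (2 * Real.pi / M * w))) *
          (starRingEnd ℂ) (∑ b ∈ J, c b * ex (b * (2 * Real.pi / M * w))) =
          ((‖P w‖ ^ 2 : ℝ) : ℂ) := by
        intro w
        rw [hP, Complex.mul_conj']
        push_cast
        rfl
      simp only [h3] at h1
      exact_mod_cast h1
    have hper : ∀ ρ w : ℕ, P (M * ρ + w) = P w := by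
      intro ρ w
      rw [hP]
      refine Finset.sum_congr rfl fun j _ => ?_
      congr 1
      have h1 : (j : ℝ) * (2 * Real.pi / M * ((M * ρ + w : ℕ) : ℝ)) =
          ((j * ρ : ℤ) : ℝ) * (2 * Real.pi) + j * (2 * Real.pi / M * w) := by
        push_cast
        field_simp
      rw [h1, ex_add, ex_int, one_mul]
    -- the kernel
    have hQ : ∀ w : ℕ, ∑ b ∈ J ×ˢ Finset.range L, c b.1 *
        ex (((b.1 * L + b.2 : ℤ) : ℝ) * (2 * Real.pi / ((L * M : ℕ) : ℝ) * w)) =
        (∑ r ∈ Finset.range L, ex (r * (2 * Real.pi / ((L * M : ℕ) : ℝ) * w))) * P w := by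
      intro w
      rw [hP]
      change _ = _ * ∑ j ∈ J, c j * ex (j * (2 * Real.pi / M * (w : ℝ)))
      rw [mul_comm (∑ r ∈ Finset.range L, ex (r * (2 * Real.pi / ((L * M : ℕ) : ℝ) * w))),
        Finset.sum_mul_sum, Finset.sum_product]
      refine Finset.sum_congr rfl fun j _ => Finset.sum_congr rfl fun r _ => ?_
      rw [mul_assoc, ← ex_add]
      congr 2
      push_cast
      field_simp
    have horth := par s (J ×ˢ Finset.range L) (fun n => n) (fun b => b.1 * L + b.2) A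
      (fun b => c b.1) (L * M) hN0 (by
        intro n hn b hb
        rw [Finset.mem_product, Finset.mem_range] at hb
        obtain ⟨n', hn', hnb⟩ := hjB b.1 hb.1
        have h3 := hdiv n'
        rw [hnb] at h3
        have h4 := abs_le.mp (hB n hn)
        have h5 := abs_le.mp (hB n' hn')
        have h6 : (M : ℤ) = 2 * B + 2 := by rw [hM]; push_cast; ring
        have h7 : (0 : ℤ) ≤ B := Int.natCast_nonneg B
        have h8 : (1 : ℤ) ≤ L := hLz0
        have h9 : (b.2 : ℤ) < L := by exact_mod_cast hb.2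
        have h10 : (0 : ℤ) ≤ b.2 := Int.natCast_nonneg _
        push_cast
        rw [abs_lt, h6]
        constructor <;> nlinarith)
    have hdiag : ∑ n ∈ s, ∑ b ∈ J ×ˢ Finset.range L,
        (if n = b.1 * L + b.2 then A n * (starRingEnd ℂ) (c b.1) else 0) = ((S : ℝ) : ℂ) := by
      have h1 : ∀ n ∈ s, ∑ b ∈ J ×ˢ Finset.range L,
          (if n = b.1 * L + b.2 then A n * (starRingEnd ℂ) (c b.1) else 0) =
          A n * (starRingEnd ℂ) (c (n / L)) := by
        intro n hn
        have h2 := Int.emod_add_mul_ediv n (L : ℤ)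
        have h3 := Int.emod_nonneg n hLz0.ne'
        have h4 := Int.emod_lt_of_pos n hLz0
        have h5 : ((n % (L : ℤ)).toNat : ℤ) = n % L := Int.toNat_of_nonneg h3
        rw [Finset.sum_eq_single (n / (L : ℤ), (n % (L : ℤ)).toNat)]
        · rw [if_pos]
          change n = n / (L : ℤ) * L + ((n % (L : ℤ)).toNat : ℤ)
          rw [h5]
          linarith
        · intro b hb hne
          rw [if_neg]
          intro h6
          apply hne
          rw [Finset.mem_product, Finset.mem_range] at hb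
          have h7 : (b.2 : ℤ) < L := by exact_mod_cast hb.2
          have h8 : (0 : ℤ) ≤ b.2 := Int.natCast_nonneg _
          have h9 : n / (L : ℤ) = b.1 := by
            rw [h6, add_comm, Int.add_mul_ediv_right _ _ hLz0.ne', Int.ediv_eq_zero_of_lt h8 h7,
              zero_add]
          have h10 : n % (L : ℤ) = b.2 := by
            rw [h9] at h2
            linarith
          rw [h9, h10]
          simp
        · intro h6
          exfalso
          apply h6
          rw [Finset.mem_product, Finset.mem_range]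
          constructor
          · rw [hJ, Finset.mem_image]
            exact ⟨n, hn, rfl⟩
          · have : ((n % (L : ℤ)).toNat : ℤ) < L := by rw [h5]; exact h4
            exact_mod_cast this
      rw [Finset.sum_congr rfl h1, ← Finset.sum_fiberwise_of_maps_to (s := s) (t := J)
        (g := fun n => n / (L : ℤ)) (by
          intro n hn
          rw [hJ, Finset.mem_image]
          exact ⟨n, hn, rfl⟩), hS]
      push_cast
      refine Finset.sum_congr rfl fun j _ => ?_
      have h2 : c j = ∑ n ∈ s with n / (L : ℤ) = j, A n := by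
        rw [hc]
        change blk s A i j = _
        unfold blk
        rw [hLz]
      rw [← Complex.mul_conj']
      conv_rhs => rw [h2]
      rw [Finset.sum_mul]
      refine Finset.sum_congr rfl fun n hn => ?_
      rw [Finset.mem_filter] at hn
      rw [hn.2, ← h2]
    rw [hdiag] at horth
    have hnorm := congrArg norm horth
    rw [norm_mul, Complex.norm_real, Real.norm_of_nonneg hS0] at hnorm
    have hN1 : ‖((L * M : ℕ) : ℂ)‖ = L * M := by
      rw [Complex.norm_natCast]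
      push_cast
      rfl
    rw [hN1] at hnorm
    have hlin : (L * M : ℝ) * S ≤
        ∑ k ∈ Finset.range (L * M), Kf L (k / M) * (‖G k‖ * ‖P k‖) := by
      rw [← hnorm]
      refine (norm_sum_le _ _).trans (Finset.sum_le_sum fun w hw => ?_)
      rw [norm_mul, RCLike.norm_conj, hQ, norm_mul]
      have hw1 : w / M < L := by
        rw [Nat.div_lt_iff_lt_mul hM0]
        exact Finset.mem_range.mp hw
      have h1 := Kf_bound L M (w / M) (w % M) hM0 hw1 (Nat.mod_lt _ hM0)
      have h2 : M * (w / M) + w % M = w := Nat.div_add_mod w M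
      rw [h2] at h1
      have h3 : ‖∑ n ∈ s, A n * ex (n * (2 * Real.pi / ((L * M : ℕ) : ℝ) * w))‖ = ‖G w‖ := by
        rw [hG]
      rw [h3]
      have h4 : 0 ≤ ‖G w‖ * ‖P w‖ := by positivity
      calc _ = ‖∑ r ∈ Finset.range L, ex (r * (2 * Real.pi / ((L * M : ℕ) : ℝ) * w))‖ *
            (‖G w‖ * ‖P w‖) := by ring
        _ ≤ _ := mul_le_mul_of_nonneg_right h1 h4
    have hS1 : ∑ k ∈ Finset.range (L * M), Kf L (k / M) * ‖P k‖ ^ 2 ≤
        (L * (i + 3)) * (M * S) := by
      rw [sum_split]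
      have h1 : ∀ ρ ∈ Finset.range L, ∑ w ∈ Finset.range M,
          Kf L ((M * ρ + w) / M) * ‖P (M * ρ + w)‖ ^ 2 = Kf L ρ * (M * S) := by
        intro ρ _
        rw [← hPar, Finset.mul_sum]
        refine Finset.sum_congr rfl fun w hw => ?_
        rw [hper, div_eq M ρ w (Finset.mem_range.mp hw)]
      rw [Finset.sum_congr rfl h1, ← Finset.sum_mul]
      refine mul_le_mul_of_nonneg_right ?_ (by positivity)
      have h2 := Kf_sum i
      rw [← hL] at h2
      refine h2.trans (le_of_eq ?_)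
      rw [hL]
      push_cast
      rfl
    have hCS := Finset.sum_mul_sq_le_sq_mul_sq (Finset.range (L * M))
      (fun k => √(Kf L (k / M)) * ‖G k‖) (fun k => √(Kf L (k / M)) * ‖P k‖)
    have e1 : ∀ k : ℕ, √(Kf L (k / M)) * ‖G k‖ * (√(Kf L (k / M)) * ‖P k‖) =
        Kf L (k / M) * (‖G k‖ * ‖P k‖) := by
      intro k
      have := Real.mul_self_sqrt (Kf_nonneg L (k / M))
      calc _ = √(Kf L (k / M)) * √(Kf L (k / M)) * (‖G k‖ * ‖P k‖) := by ring
        _ = _ := by rw [this]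
    have e2 : ∀ (k : ℕ) (y : ℝ), (√(Kf L (k / M)) * y) ^ 2 = Kf L (k / M) * y ^ 2 := by
      intro k y
      rw [mul_pow, Real.sq_sqrt (Kf_nonneg L (k / M))]
    simp only [e1, e2] at hCS
    have hlin0 : 0 ≤ (L * M : ℝ) * S := by positivity
    refine (pow_le_pow_left₀ hlin0 hlin 2).trans (hCS.trans ?_)
    refine mul_le_mul_of_nonneg_left hS1 ?_
    exact Finset.sum_nonneg fun k _ => mul_nonneg (Kf_nonneg _ _) (sq_nonneg _)
  have hX : ∑ k ∈ Finset.range (L * M), wt i L M k * ‖G k‖ ^ 2 =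
      (i + 3) / (L * M) * ∑ k ∈ Finset.range (L * M), Kf L (k / M) * ‖G k‖ ^ 2 := by
    rw [Finset.mul_sum]
    refine Finset.sum_congr rfl fun k _ => ?_
    unfold wt
    ring
  have hgoal : S ≤ ∑ k ∈ Finset.range (L * M), wt i L M k * ‖G k‖ ^ 2 := by
    rw [hX]
    obtain ⟨X, hXd⟩ : ∃ X : ℝ, X = ∑ k ∈ Finset.range (L * M), Kf L (k / M) * ‖G k‖ ^ 2 :=
      ⟨_, rfl⟩
    have hX0 : 0 ≤ X := by
      rw [hXd]
      exact Finset.sum_nonneg fun k _ => mul_nonneg (Kf_nonneg _ _) (sq_nonneg _)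
    rw [← hXd] at key ⊢
    rcases eq_or_lt_of_le hS0 with h0 | h0
    · rw [← h0]
      positivity
    · have h1 : (L * M : ℝ) * S * ((L * M : ℝ) * S) ≤ (X * (i + 3)) * ((L * M : ℝ) * S) := by
        calc (L * M : ℝ) * S * ((L * M : ℝ) * S) = ((L * M : ℝ) * S) ^ 2 := by ring
          _ ≤ _ := key
          _ = _ := by ring
      have h2 : 0 < (L * M : ℝ) * S := by positivity
      have h3 := le_of_mul_le_mul_right h1 h2
      rw [div_mul_eq_mul_div, le_div_iff₀ (by positivity)]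
      linarith
  subst hL hM hJ hc hS hG
  exact hgoal

end BEW_

open BES_ BEW_ in
theorem p_BEW : T_BEW := by
  intro s i
  obtain ⟨B, hB⟩ : ∃ B : ℕ, ∀ n ∈ s, |n| ≤ (B : ℤ) := by
    refine ⟨∑ n ∈ s, n.natAbs, fun n hn => ?_⟩
    rw [Int.abs_eq_natAbs]
    exact_mod_cast Finset.single_le_sum (f := fun n : ℤ => n.natAbs) (fun _ _ => Nat.zero_le _) hn
  refine ⟨2 ^ i * (2 * B + 2),
    fun k => 2 * Real.pi / ((2 ^ i * (2 * B + 2) : ℕ) : ℝ) * k,
    wt i (2 ^ i) (2 * B + 2), wt_nonneg i _ _, wt_sum i _ (by omega), fun A => ?_⟩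
  have h := core s i B hB A
  rw [tsum_eq_sum (s := s.image (fun n => n / ((2 ^ i : ℕ) : ℤ)))]
  · have h1 : ∑ j ∈ s.image (fun n => n / ((2 ^ i : ℕ) : ℤ)), ‖blk s A i j‖ₑ ^ 2 =
        ENNReal.ofReal (∑ j ∈ s.image (fun n => n / ((2 ^ i : ℕ) : ℤ)), ‖blk s A i j‖ ^ 2) := by
      rw [ENNReal.ofReal_sum_of_nonneg (fun j _ => sq_nonneg _)]
      refine Finset.sum_congr rfl fun j _ => ?_
      rw [ENNReal.ofReal_pow (norm_nonneg _), ofReal_norm]
    rw [h1]
    refine (ENNReal.ofReal_le_ofReal h).trans (le_of_eq ?_)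
    rw [ENNReal.ofReal_sum_of_nonneg
      (fun k _ => mul_nonneg (wt_nonneg i _ _ k) (sq_nonneg _))]
    refine Finset.sum_congr rfl fun k _ => ?_
    rw [ENNReal.ofReal_mul (wt_nonneg i _ _ k), ENNReal.ofReal_pow (norm_nonneg _), ofReal_norm]
    rfl
  · intro j hj
    have h1 : blk s A i j = 0 := by
      unfold blk
      rw [Finset.filter_false_of_mem, Finset.sum_empty]
      intro n hn hnj
      apply hj
      rw [Finset.mem_image]
      refine ⟨n, hn, ?_⟩
      rw [← hnj]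
      push_cast
      rfl
    rw [h1]
    simp

end Wey
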