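import Pool.Agent.Wey.Defs

/-!
# MP_5ab805_an, exponential sums as partners of every function: targets (helper91)
-/

set_option autoImplicit false

namespace Wey

open MeasureTheory Set Filter
open scoped ENNReal NNReal Topology
open Pool.Agent.Restr (u E QQ)
open TriL (Sq n2)

/-- REP: representation by Gaussians -/
def T_REP : Prop :=
  (∀ (f : ℝ × ℝ → ℂ), Sq f → Integrable f → ∀ (p : ℝ × ℝ) (t : ℝ),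
    E f (p.1, p.2, t) = lam t / Real.pi * ∫ y : ℝ × ℝ,
      Complex.exp (-(lam t * ((nq (p.1 - y.1, p.2 - y.2) : ℝ) : ℂ))) * hat (gup f) y) ∧
  (∀ (z p : ℝ × ℝ) (t : ℝ),
    E (gdn fun x => u (-(z.1 * x.1 + z.2 * x.2))) (p.1, p.2, t) =
      4 * Real.pi * lam t * Complex.exp (-(lam t * ((nq (p.1 - z.1, p.2 - z.2) : ℝ) : ℂ))))

/-- CNV: convolution with a complex Gaussian on `L²` -/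
def T_CNV : Prop := ∀ (a : ℂ) (B : ℝ × ℝ → ℂ), 0 < a.re → Measurable B → Integrable B →
  ∫⁻ x : ℝ × ℝ, ‖∫ y : ℝ × ℝ, Complex.exp (-(a * ((nq (x.1 - y.1, x.2 - y.2) : ℝ) : ℂ))) * B y‖ₑ ^ 2
    ≤ ENNReal.ofReal ((Real.pi / ‖a‖) ^ 2) * ∫⁻ y, ‖B y‖ₑ ^ 2

/-- SLI (from REP, CNV): the product at a fixed time -/
def T_SLI : Prop := ∀ (h : ℝ) (ψ : ℤ → ℝ) (s : Finset ℤ) (a : ℤ → ℂ) (f : ℝ × ℝ → ℂ) (t : ℝ),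
  Sq f → Integrable f →
  ∫⁻ p : ℝ × ℝ, (‖E f (p.1, p.2, t)‖ₑ * ‖E (gdn (Gs h ψ s a)) (p.1, p.2, t)‖ₑ) ^ 2 ≤
    ENNReal.ofReal (Real.pi ^ 2 / (1 + t ^ 2)) * ∫⁻ σ, ‖BB h ψ s a (gup f) t σ‖ₑ ^ 2

/-- NEA: Gallagher's lemma for the frequencies `Im λ(t)/2`, `T ≤ |t| ≤ 2T` -/
def T_NEA : Prop := ∃ C : ℝ≥0, ∀ (s : Finset ℤ) (c : ℤ → ℂ) (ν : ℤ → ℝ) (M T : ℝ), 2 ≤ T →
  0 ≤ M → (∀ n ∈ s, 0 ≤ ν n ∧ ν n ≤ M) →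
  ∫⁻ t in {t : ℝ | T ≤ |t| ∧ |t| ≤ 2 * T},
    ‖∑ n ∈ s, c n * Complex.exp (-(lam t / 2 * ((ν n : ℝ) : ℂ)))‖ₑ ^ 2 *
      ENNReal.ofReal (1 / (1 + t ^ 2)) ≤
    C * ENNReal.ofReal ((1 + M / T ^ 2) / T ^ 2) *
      ∫⁻ τ : ℝ, ‖∑ n ∈ s with (τ - 8 * T < ν n ∧ ν n ≤ τ), c n‖ₑ ^ 2

/-- DEC: an interval of integers as a union of at most `2ℓ + 2` dyadic intervals -/
def T_DEC : Prop := ∀ (ℓ : ℕ) (α : ℤ) (J : Set ℤ), J.OrdConnected → J ⊆ Ico α (α + 2 ^ ℓ) →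
  ∃ D : Finset (ℕ × ℤ), D.card ≤ 2 * ℓ + 2 ∧ (∀ d ∈ D, d.1 ≤ ℓ ∧ ∀ n : ℤ, n / 2 ^ d.1 = d.2 → n ∈ J) ∧
    ∀ n ∈ J, ∃! d, d ∈ D ∧ n / 2 ^ d.1 = d.2

/-- DYA (from DEC): windows and dyadic intervals -/
def T_DYA : Prop := ∀ (m : ℕ) (h : ℝ) (ψ : ℤ → ℝ) (s : Finset ℤ), 1 ≤ h → Ann m h ψ s →
  ∀ (c : ℤ → ℂ) (σ : ℝ × ℝ) (M T : ℝ) (ℓ : ℕ), 0 < T → 0 ≤ M → √M + 2 ≤ 2 ^ ℓ →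
  ∫⁻ τ : ℝ, ‖∑ n ∈ s with (nu h ψ σ n ≤ M ∧ τ - 8 * T < nu h ψ σ n ∧ nu h ψ σ n ≤ τ),
      c n‖ₑ ^ 2 ≤
    ENNReal.ofReal (8 * T * (m * (2 * ℓ + 2))) *
      ∑ i ∈ Finset.range (ℓ + 1), ∑' j : ℤ, ‖blk s c i j‖ₑ ^ 2

/-- HAT: Plancherel for the blocks -/
def T_HAT : Prop := ∀ (h : ℝ) (ψ : ℤ → ℝ) (s : Finset ℤ) (a : ℤ → ℂ) (F : ℝ × ℝ → ℂ) (i : ℕ)
  (j : ℤ), Measurable F → Integrable F →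
  ∫⁻ σ, ‖blk s (cf h ψ a F σ) i j‖ₑ ^ 2 ≤ ENNReal.ofReal (4 * Real.pi ^ 2) *
    ∫⁻ x, ‖F x‖ₑ ^ 2 * ‖blk s (fun n => a n * u (-(h * n * x.1 + ψ n * x.2))) i j‖ₑ ^ 2

/-- BES: square function of the dyadic blocks of a bounded trigonometric polynomial, at `0` -/
def T_BES : Prop := ∀ (s : Finset ℤ) (A : ℤ → ℂ) (i : ℕ),
  (∀ v : ℝ, ‖∑ n ∈ s, A n * u (-(n * v))‖ ≤ 1) →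
  ∑' j : ℤ, ‖blk s A i j‖ₑ ^ 2 ≤ ENNReal.ofReal ((i + 3) ^ 2)

/-- SQA (from BES): `L²` times bounded -/
def T_SQA : Prop := ∀ (h : ℝ) (ψ : ℤ → ℝ) (s : Finset ℤ) (a : ℤ → ℂ) (f : ℝ × ℝ → ℂ), 1 ≤ h →
  Sq f → Bd h ψ s a → SQ h ψ s a f (9 * n2 f)

/-- SQB: bounded times `ℓ²` -/
def T_SQB : Prop := ∀ (h : ℝ) (ψ : ℤ → ℝ) (s : Finset ℤ) (a : ℤ → ℂ) (f : ℝ × ℝ → ℂ) (M : ℝ≥0),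
  1 ≤ h → Sq f → (∀ x, ‖f x‖ ≤ M) →
  SQ h ψ s a f (8 * (M : ℝ≥0∞) ^ 2 * ∑ n ∈ s, ‖a n‖ₑ ^ 2) ∧
  ∫⁻ x in QQ, ‖Gs h ψ s a x‖ₑ ^ 2 ≤ 8 * ∑ n ∈ s, ‖a n‖ₑ ^ 2

/-- FAR: the far terms, at a fixed time -/
def T_FAR : Prop := ∃ C : ℝ≥0, ∀ (h : ℝ) (ψ : ℤ → ℝ) (s : Finset ℤ) (a : ℤ → ℂ)
  (F : ℝ × ℝ → ℂ) (A : ℝ≥0) (M t : ℝ), 1 ≤ h → Measurable F → Integrable F →
  (∀ n ∈ s, ‖a n‖ₑ ≤ A) →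
  ∫⁻ σ, ‖∑ n ∈ s with M < nu h ψ σ n, cf h ψ a F σ n *
      Complex.exp (-(lam t / 2 * ((nu h ψ σ n : ℝ) : ℂ)))‖ₑ ^ 2 ≤
    C * ENNReal.ofReal ((1 + t ^ 2) * Real.exp (-M / (8 * (1 + t ^ 2)))) *
      ((A : ℝ≥0∞) ^ 2 * ∫⁻ x, ‖F x‖ₑ ^ 2)

/-- SLB (from SLI, NEA, DYA, HAT, FAR): the weighted estimate on a slab, Gaussian cut-off -/
def T_SLB : Prop := ∀ ε : ℝ, 0 < ε → ∃ C : ℝ≥0, ∀ (m : ℕ) (h : ℝ) (ψ : ℤ → ℝ) (s : Finset ℤ)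
  (a : ℤ → ℂ) (f : ℝ × ℝ → ℂ) (N : ℝ≥0∞) (k : ℕ), 1 ≤ m → 1 ≤ h → Ann m h ψ s → Sq f →
  Integrable f → SQ h ψ s a f N →
  ∫⁻ t in Tk k, ∫⁻ p : ℝ × ℝ, (‖E f (p.1, p.2, t)‖ₑ *
      ‖E (gdn (Gs h ψ s a)) (p.1, p.2, t)‖ₑ) ^ 2 ≤
    C * m * ENNReal.ofReal (2 ^ ((-1 + ε) * k)) * N

/-- WIE: cut-offs -/
def T_WIE : Prop := ∃ C : ℝ≥0, ∀ (K : ℝ≥0) (χ : ℝ × ℝ → ℂ), Wi K χ → (∀ x, x ∉ QQ → χ x = 0) →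
  Wi (C * K) (gup χ)

/-- CUT (from SLB, WIE): the weighted estimate on a slab -/
def T_CUT : Prop := ∀ ε : ℝ, 0 < ε → ∃ C : ℝ≥0, ∀ (m : ℕ) (h : ℝ) (ψ : ℤ → ℝ) (s : Finset ℤ)
  (a : ℤ → ℂ) (χ f : ℝ × ℝ → ℂ) (K : ℝ≥0) (N : ℝ≥0∞) (k : ℕ), 1 ≤ m → 1 ≤ h → Ann m h ψ s →
  Wi K χ → (∀ x, x ∉ QQ → χ x = 0) → Sq f → Integrable f → SQ h ψ s a f N →
  ∫⁻ ξ in Sl k, XX h ψ s a χ f ξ ^ 2 ≤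
    C * (K : ℝ≥0∞) ^ 2 * m * ENNReal.ofReal (2 ^ ((-1 + ε) * k)) * N

/-- IN1: summation, bilinear form -/
def T_IN1 : Prop := ∀ r : ℝ, 3 / 2 < r → r < 2 → ∃ ε : ℝ, 0 < ε ∧ ∃ C : ℝ≥0,
  ∀ (X : ℝ × ℝ × ℝ → ℝ≥0∞) (N : ℝ≥0), Measurable X →
  (∀ k : ℕ, ∫⁻ ξ in Sl k, X ξ ^ 2 ≤ (N : ℝ≥0∞) ^ 2 * ENNReal.ofReal (2 ^ ((-1 + ε) * k))) →
  (∀ k : ℕ, ∫⁻ ξ in Sl k, X ξ ≤ N * 2 ^ k) →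
  ∫⁻ ξ, X ξ ^ r ≤ C * (N : ℝ≥0∞) ^ r

/-- IN2: summation, trilinear form -/
def T_IN2 : Prop := ∀ r : ℝ, 1 < r → r < 4 / 3 → ∃ ε : ℝ, 0 < ε ∧ ∃ C : ℝ≥0,
  ∀ (X : ℝ × ℝ × ℝ → ℝ≥0∞) (N : ℝ≥0) (f : ℝ × ℝ → ℂ), Measurable X → Measurable f →
  (∀ k : ℕ, ∫⁻ ξ in Sl k, X ξ ^ 2 ≤ (N : ℝ≥0∞) ^ 2 * ENNReal.ofReal (2 ^ ((-1 + ε) * k))) →
  ∫⁻ ξ, (X ξ * ‖E f ξ‖ₑ) ^ r ≤ C * (N : ℝ≥0∞) ^ r * n2 f ^ (r / 2)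

/-- ASM (from CUT, SQA, SQB, IN1, IN2): the theorem on the square -/
def T_ASM : Prop := ∀ q : ℝ, 3 < q → q < 4 → ∃ C : ℝ≥0, ∀ (m : ℕ) (h : ℝ) (ψ : ℤ → ℝ)
  (s : Finset ℤ) (a : ℤ → ℂ) (χ : ℝ × ℝ → ℂ) (K : ℝ≥0), 1 ≤ m → 1 ≤ h → Ann m h ψ s →
  Wi K χ → (∀ x, x ∉ QQ → χ x = 0) →
  (Bd h ψ s a → ∀ f : ℝ × ℝ → ℂ, Sq f →
    eLpNorm (fun ξ => E f ξ * E (fun x => χ x * Gs h ψ s a x) ξ) (ENNReal.ofReal (q / 2)) volume ≤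
      C * K * NNReal.sqrt m * eLpNorm f 2 volume ∧
    ∀ g : ℝ × ℝ → ℂ, Sq g →
    eLpNorm (fun ξ => E f ξ * E g ξ * E (fun x => χ x * Gs h ψ s a x) ξ)
      (ENNReal.ofReal (q / 3)) volume ≤
      C * K * NNReal.sqrt m * eLpNorm f 2 volume * eLpNorm g 2 volume) ∧
  (∑ n ∈ s, ‖a n‖ ^ 2 ≤ 1 → ∀ f : ℝ × ℝ → ℂ, Sq f → (∀ x, ‖f x‖ ≤ 1) →
    eLpNorm (fun ξ => E f ξ * E (fun x => χ x * Gs h ψ s a x) ξ) (ENNReal.ofReal (q / 2)) volume ≤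
      C * K * NNReal.sqrt m ∧
    ∀ g : ℝ × ℝ → ℂ, Sq g →
    eLpNorm (fun ξ => E f ξ * E g ξ * E (fun x => χ x * Gs h ψ s a x) ξ)
      (ENNReal.ofReal (q / 3)) volume ≤
      C * K * NNReal.sqrt m * eLpNorm g 2 volume)

/-- the function of the theorem in the frame of the unit vector `e`, with a quadratic chirp -/
noncomputable def gfun (c : ℝ) (e : ℝ × ℝ) (h : ℝ) (ψ : ℤ → ℝ) (s : Finset ℤ) (a : ℤ → ℂ)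
    (χ : ℝ × ℝ → ℂ) (x : ℝ × ℝ) : ℂ :=
  u (-(c * nq x)) * (χ x * Gs h ψ s a (x.1 * e.1 + x.2 * e.2, x.1 * e.2 - x.2 * e.1))

/-- the disc of radius `1/2` -/
def InD (f : ℝ × ℝ → ℂ) : Prop := Measurable f ∧ ∀ x : ℝ × ℝ, 1 / 4 < x.1 ^ 2 + x.2 ^ 2 → f x = 0

/-- ROT (from ASM): the theorem in the disc, in every frame, with a chirp -/
def T_ROT : Prop := ∀ q : ℝ, 3 < q → q < 4 → ∃ C : ℝ≥0, ∀ (m : ℕ) (h : ℝ) (ψ : ℤ → ℝ)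
  (s : Finset ℤ) (a : ℤ → ℂ) (χ : ℝ × ℝ → ℂ) (K : ℝ≥0) (e : ℝ × ℝ) (c : ℝ), 1 ≤ m → 1 ≤ h →
  Ann m h ψ s → Wi K χ → (∀ x : ℝ × ℝ, 1 / 4 < x.1 ^ 2 + x.2 ^ 2 → χ x = 0) →
  e.1 ^ 2 + e.2 ^ 2 = 1 →
  (Bd h ψ s a → ∀ f : ℝ × ℝ → ℂ, InD f →
    eLpNorm (fun ξ => E f ξ * E (gfun c e h ψ s a χ) ξ) (ENNReal.ofReal (q / 2)) volume ≤
      C * K * NNReal.sqrt m * eLpNorm f 2 volume ∧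
    ∀ g : ℝ × ℝ → ℂ, InD g →
    eLpNorm (fun ξ => E f ξ * E g ξ * E (gfun c e h ψ s a χ) ξ)
      (ENNReal.ofReal (q / 3)) volume ≤
      C * K * NNReal.sqrt m * eLpNorm f 2 volume * eLpNorm g 2 volume) ∧
  (∑ n ∈ s, ‖a n‖ ^ 2 ≤ 1 → ∀ f : ℝ × ℝ → ℂ, InD f → (∀ x, ‖f x‖ ≤ 1) →
    eLpNorm (fun ξ => E f ξ * E (gfun c e h ψ s a χ) ξ) (ENNReal.ofReal (q / 2)) volume ≤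
      C * K * NNReal.sqrt m ∧
    ∀ g : ℝ × ℝ → ℂ, InD g →
    eLpNorm (fun ξ => E f ξ * E g ξ * E (gfun c e h ψ s a χ) ξ)
      (ENNReal.ofReal (q / 3)) volume ≤
      C * K * NNReal.sqrt m * eLpNorm g 2 volume)

/-- POL: polynomials have bounded annular complexity -/
def T_POL : Prop := ∀ (P : Polynomial ℝ) (h : ℝ) (s : Finset ℤ),
  Ann (2 * P.natDegree + 2) h (fun n => P.eval (n : ℝ)) s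

end Wey
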