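import Mathlib
import Pool.Agent.Wey.Targets

/-!
# An interval of integers as a union of dyadic intervals (job WEY-DEC, helper68)
-/

set_option autoImplicit false

namespace Wey

open Set

namespace DEC_

/-- the pairs contained in `J` -/
def half (J : Set ℤ) : Set ℤ := {j | 2 * j ∈ J ∧ 2 * j + 1 ∈ J}

lemma half_ord {J : Set ℤ} (hJ : J.OrdConnected) : (half J).OrdConnected := by
  constructor
  intro a ha c hc b hb
  obtain ⟨h1, h2⟩ := hb
  exact ⟨hJ.out ha.1 hc.1 ⟨by omega, by omega⟩, hJ.out ha.2 hc.2 ⟨by omega, by omega⟩⟩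

lemma mem_of_half {J : Set ℤ} {n : ℤ} (h : n / 2 ∈ half J) : n ∈ J := by
  obtain ⟨h1, h2⟩ := h
  rcases Int.emod_two_eq_zero_or_one n with h | h
  · have : 2 * (n / 2) = n := by omega
    rwa [this] at h1
  · have : 2 * (n / 2) + 1 = n := by omega
    rwa [this] at h2

lemma div_step (n : ℤ) (i : ℕ) : n / 2 ^ (i + 1) = (n / 2) / 2 ^ i := by
  rw [pow_succ', Int.ediv_ediv_of_nonneg (by norm_num : (0 : ℤ) ≤ 2)]

lemma main : T_DEC := by
  classical
  intro ℓ
  induction ℓ with
  | zero =>
    intro α J hJ hsub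
    have h1 : ∀ n ∈ J, n = α := by
      intro n hn
      have := hsub hn
      simp only [pow_zero, mem_Ico] at this
      omega
    by_cases hα : α ∈ J
    · refine ⟨{(0, α)}, by simp, ?_, ?_⟩
      · intro d hd
        rw [Finset.mem_singleton] at hd
        subst hd
        refine ⟨le_rfl, fun n hn => ?_⟩
        simp only [pow_zero, Int.ediv_one] at hn
        rwa [hn]
      · intro n hn
        refine ⟨(0, α), ⟨by simp, by simp [h1 n hn]⟩, ?_⟩
        rintro d ⟨hd, _⟩
        simpa using hd
    · refine ⟨∅, by simp, by simp, ?_⟩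
      intro n hn
      exact absurd (h1 n hn ▸ hn) hα
  | succ ℓ ih =>
    intro α J hJ hsub
    have hsub' : half J ⊆ Ico ((α + 1) / 2) ((α + 1) / 2 + 2 ^ ℓ) := by
      intro j hj
      have h1 := hsub hj.1
      have h2 := hsub hj.2
      rw [mem_Ico] at h1 h2 ⊢
      rw [pow_succ'] at h1 h2
      generalize (2 : ℤ) ^ ℓ = P at *
      omega
    obtain ⟨D', hcard, hD1, hD2⟩ := ih ((α + 1) / 2) (half J) (half_ord hJ) hsub'
    set U : Finset ℤ := (Finset.Ico α (α + 2 ^ (ℓ + 1))).filter
      (fun n => n ∈ J ∧ n / 2 ∉ half J) with hU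
    have hmemU : ∀ n, n ∈ U ↔ n ∈ J ∧ n / 2 ∉ half J := by
      intro n
      rw [hU, Finset.mem_filter]
      constructor
      · exact fun h => h.2
      · intro h
        refine ⟨?_, h⟩
        have := hsub h.1
        rw [mem_Ico] at this
        rw [Finset.mem_Ico]
        exact this
    have hUcard : U.card ≤ 2 := by
      have h1 : U = U.filter (fun n => n % 2 = 0) ∪ U.filter (fun n => ¬ n % 2 = 0) := by
        rw [Finset.filter_union_filter_not_eq]
      have h2 : (U.filter (fun n => n % 2 = 0)).card ≤ 1 := by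
        rw [Finset.card_le_one]
        intro a ha b hb
        rw [Finset.mem_filter, hmemU] at ha hb
        obtain ⟨⟨ha1, ha2⟩, ha3⟩ := ha
        obtain ⟨⟨hb1, hb2⟩, hb3⟩ := hb
        have key : ∀ x y : ℤ, x ∈ J → x / 2 ∉ half J → x % 2 = 0 → y ∈ J → ¬ x < y := by
          intro x y hx1 hx2 hx3 hy hxy
          apply hx2
          refine ⟨?_, ?_⟩
          · have : 2 * (x / 2) = x := by omega
            rwa [this]
          · exact hJ.out hx1 hy ⟨by omega, by omega⟩
        have := key a b ha1 ha2 ha3 hb1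
        have := key b a hb1 hb2 hb3 ha1
        omega
      have h3 : (U.filter (fun n => ¬ n % 2 = 0)).card ≤ 1 := by
        rw [Finset.card_le_one]
        intro a ha b hb
        rw [Finset.mem_filter, hmemU] at ha hb
        obtain ⟨⟨ha1, ha2⟩, ha3⟩ := ha
        obtain ⟨⟨hb1, hb2⟩, hb3⟩ := hb
        have key : ∀ x y : ℤ, x ∈ J → x / 2 ∉ half J → ¬ x % 2 = 0 → y ∈ J → ¬ y < x := by
          intro x y hx1 hx2 hx3 hy hxy
          apply hx2
          refine ⟨?_, ?_⟩
          · exact hJ.out hy hx1 ⟨by omega, by omega⟩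
          · have : 2 * (x / 2) + 1 = x := by omega
            rwa [this]
        have := key a b ha1 ha2 ha3 hb1
        have := key b a hb1 hb2 hb3 ha1
        omega
      calc U.card = (U.filter (fun n => n % 2 = 0) ∪ U.filter (fun n => ¬ n % 2 = 0)).card := by
            rw [← h1]
        _ ≤ _ := Finset.card_union_le _ _
        _ ≤ 1 + 1 := add_le_add h2 h3
    refine ⟨D'.image (fun d => (d.1 + 1, d.2)) ∪ U.image (fun n => ((0 : ℕ), n)), ?_, ?_, ?_⟩
    · calc (D'.image (fun d => (d.1 + 1, d.2)) ∪ U.image (fun n => ((0 : ℕ), n))).card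
          ≤ (D'.image (fun d => (d.1 + 1, d.2))).card + (U.image (fun n => ((0 : ℕ), n))).card :=
            Finset.card_union_le _ _
        _ ≤ D'.card + U.card := add_le_add Finset.card_image_le Finset.card_image_le
        _ ≤ 2 * (ℓ + 1) + 2 := by omega
    · intro d hd
      rw [Finset.mem_union, Finset.mem_image, Finset.mem_image] at hd
      rcases hd with ⟨d', hd', rfl⟩ | ⟨m, hm, rfl⟩
      · obtain ⟨h1, h2⟩ := hD1 d' hd'
        refine ⟨by simpa using h1, fun n hn => ?_⟩
        simp only at hn
        rw [div_step] at hn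
        exact mem_of_half (h2 _ hn)
      · refine ⟨Nat.zero_le _, fun n hn => ?_⟩
        simp only [pow_zero, Int.ediv_one] at hn
        rw [hn]
        exact ((hmemU m).mp hm).1
    · intro n hn
      by_cases hh : n / 2 ∈ half J
      · obtain ⟨d', ⟨hd1, hd2⟩, hd3⟩ := hD2 (n / 2) hh
        refine ⟨(d'.1 + 1, d'.2), ⟨?_, ?_⟩, ?_⟩
        · exact Finset.mem_union_left _ (Finset.mem_image_of_mem (fun d => (d.1 + 1, d.2)) hd1)
        · simp only
          rw [div_step]
          exact hd2
        · rintro d ⟨hd, he⟩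
          rw [Finset.mem_union, Finset.mem_image, Finset.mem_image] at hd
          rcases hd with ⟨d'', hd'', rfl⟩ | ⟨m, hm, rfl⟩
          · simp only at he
            rw [div_step] at he
            rw [hd3 d'' ⟨hd'', he⟩]
          · simp only [pow_zero, Int.ediv_one] at he
            rw [← he] at hm
            exact absurd hh ((hmemU n).mp hm).2
      · have hnU : n ∈ U := (hmemU n).mpr ⟨hn, hh⟩
        refine ⟨(0, n), ⟨?_, by simp⟩, ?_⟩
        · exact Finset.mem_union_right _ (Finset.mem_image_of_mem (fun n => ((0 : ℕ), n)) hnU)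
        · rintro d ⟨hd, he⟩
          rw [Finset.mem_union, Finset.mem_image, Finset.mem_image] at hd
          rcases hd with ⟨d'', hd'', rfl⟩ | ⟨m, hm, rfl⟩
          · simp only at he
            rw [div_step] at he
            exact absurd ((hD1 d'' hd'').2 _ he) hh
          · simp only [pow_zero, Int.ediv_one] at he
            rw [he]

end DEC_

theorem p_DEC : T_DEC := DEC_.main

end Wey
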