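import Pool.Agent.Wey.Targets

/-!
# WEY-NEA: Gallagher's lemma for the frequencies `Im λ(t) / 2`
-/

set_option autoImplicit false

namespace Wey

open MeasureTheory Set Filter
open scoped ENNReal NNReal Topology
open Pool.Agent.Restr (u E QQ norm_u enorm_u measurable_u continuous_u conj_u plancherel1)

namespace NEA_

/-- real part of `λ(t) / 2` -/
noncomputable def rr (t : ℝ) : ℝ := 1 / (8 * (1 + t ^ 2))

/-- minus the imaginary part of `λ(t) / 2` -/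
noncomputable def sg (t : ℝ) : ℝ := t / (8 * (1 + t ^ 2))

theorem lam_half (t : ℝ) : lam t / 2 = (rr t : ℂ) - (sg t : ℂ) * Complex.I := by
  have h1 : (1 : ℂ) + (t : ℂ) * Complex.I ≠ 0 := by
    intro h
    have := congrArg Complex.re h
    simp at this
  have h2 : (1 : ℂ) + (t : ℂ) ^ 2 ≠ 0 := by
    have : ((1 + t ^ 2 : ℝ) : ℂ) ≠ 0 := by
      rw [Complex.ofReal_ne_zero]
      positivity
    push_cast at this
    exact this
  unfold lam rr sg
  push_cast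
  field_simp
  ring_nf
  rw [Complex.I_sq]
  ring

theorem norm_sq_lam (t : ℝ) : ‖lam t / 2‖ ^ 2 = 1 / (64 * (1 + t ^ 2)) := by
  rw [lam_half, ← Complex.normSq_eq_norm_sq, Complex.normSq_apply]
  simp only [Complex.sub_re, Complex.ofReal_re, Complex.mul_re, Complex.I_re, mul_zero,
    Complex.ofReal_im, Complex.I_im, mul_one, sub_self, sub_zero, Complex.sub_im, Complex.mul_im,
    add_zero, zero_sub]
  unfold rr sg
  field_simp
  ring

theorem lam_ne (t : ℝ) : lam t / 2 ≠ 0 := by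
  intro h
  have h1 := norm_sq_lam t
  rw [h, norm_zero] at h1
  have : (0 : ℝ) < 1 / (64 * (1 + t ^ 2)) := by positivity
  norm_num at h1
  nlinarith [sq_nonneg t]

theorem rr_pos (t : ℝ) : 0 < rr t := by
  unfold rr
  positivity

theorem exp_split (t τ : ℝ) : Complex.exp (-(lam t / 2 * (τ : ℂ))) =
    ((Real.exp (-(rr t * τ)) : ℝ) : ℂ) * u (sg t * (-τ)) := by
  unfold u
  rw [Complex.ofReal_exp, ← Complex.exp_add, lam_half]
  congr 1
  push_cast
  ring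

/-- the window sum -/
noncomputable def AA (s : Finset ℤ) (c : ℤ → ℂ) (ν : ℤ → ℝ) (T τ : ℝ) : ℂ :=
  ∑ n ∈ s with (τ - 8 * T < ν n ∧ ν n ≤ τ), c n

variable {s : Finset ℤ} {c : ℤ → ℂ} {ν : ℤ → ℝ} {M T : ℝ}

theorem AA_eq (τ : ℝ) : AA s c ν T τ =
    ∑ n ∈ s, (Ico (ν n) (ν n + 8 * T)).indicator (fun _ => c n) τ := by
  unfold AA
  rw [Finset.sum_filter]
  refine Finset.sum_congr rfl fun n _ => ?_
  rw [indicator_apply]
  refine if_congr ?_ rfl rfl
  rw [mem_Ico]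
  constructor
  · rintro ⟨h1, h2⟩
    exact ⟨h2, by linarith⟩
  · rintro ⟨h1, h2⟩
    exact ⟨by linarith, h1⟩

theorem AA_meas : Measurable (AA s c ν T) := by
  have : AA s c ν T = fun τ => ∑ n ∈ s, (Ico (ν n) (ν n + 8 * T)).indicator (fun _ => c n) τ :=
    funext AA_eq
  rw [this]
  exact Finset.measurable_sum _ fun n _ => measurable_const.indicator measurableSet_Ico

theorem AA_int : Integrable (AA s c ν T) := by
  have : AA s c ν T = fun τ => ∑ n ∈ s, (Ico (ν n) (ν n + 8 * T)).indicator (fun _ => c n) τ :=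
    funext AA_eq
  rw [this]
  refine integrable_finsetSum _ fun n _ => ?_
  rw [integrable_indicator_iff measurableSet_Ico]
  exact integrableOn_const measure_Ico_lt_top.ne

theorem AA_neg (hν : ∀ n ∈ s, 0 ≤ ν n ∧ ν n ≤ M) {τ : ℝ} (hτ : τ < 0) : AA s c ν T τ = 0 := by
  unfold AA
  refine Finset.sum_eq_zero fun n hn => ?_
  rw [Finset.mem_filter] at hn
  have := (hν n hn.1).1
  exfalso
  linarith [hn.2.2]

theorem AA_big (hν : ∀ n ∈ s, 0 ≤ ν n ∧ ν n ≤ M) {τ : ℝ} (hτ : M + 8 * T ≤ τ) :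
    AA s c ν T τ = 0 := by
  unfold AA
  refine Finset.sum_eq_zero fun n hn => ?_
  rw [Finset.mem_filter] at hn
  have := (hν n hn.1).2
  exfalso
  linarith [hn.2.1]

/-- the damped transform -/
noncomputable def FF (s : Finset ℤ) (c : ℤ → ℂ) (ν : ℤ → ℝ) (T t : ℝ) : ℂ :=
  ∫ τ : ℝ, Complex.exp (-(lam t / 2 * (τ : ℂ))) * AA s c ν T τ

theorem key (t : ℝ) (hT : 0 ≤ T) :
    (1 - Complex.exp (-(lam t / 2 * ((8 * T : ℝ) : ℂ)))) *
      ∑ n ∈ s, c n * Complex.exp (-(lam t / 2 * ((ν n : ℝ) : ℂ))) =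
    lam t / 2 * FF s c ν T t := by
  set β : ℂ := lam t / 2 with hβ
  have hβ0 : β ≠ 0 := lam_ne t
  have hterm : ∀ n, ∫ τ : ℝ, Complex.exp (-(β * (τ : ℂ))) *
      (Ico (ν n) (ν n + 8 * T)).indicator (fun _ => c n) τ =
      c n * ((Complex.exp (-(β * ((ν n : ℝ) : ℂ))) *
        (1 - Complex.exp (-(β * ((8 * T : ℝ) : ℂ))))) / β) := by
    intro n
    have h1 : (fun τ : ℝ => Complex.exp (-(β * (τ : ℂ))) *
        (Ico (ν n) (ν n + 8 * T)).indicator (fun _ => c n) τ) =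
        (Ico (ν n) (ν n + 8 * T)).indicator
          (fun τ : ℝ => c n * Complex.exp (-β * (τ : ℂ))) := by
      funext τ
      by_cases hτ : τ ∈ Ico (ν n) (ν n + 8 * T)
      · rw [indicator_of_mem hτ, indicator_of_mem hτ, neg_mul]
        ring
      · rw [indicator_of_notMem hτ, indicator_of_notMem hτ, mul_zero]
    rw [h1, integral_indicator measurableSet_Ico, integral_Ico_eq_integral_Ioo,
      ← integral_Ioc_eq_integral_Ioo, ← intervalIntegral.integral_of_le (by linarith),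
      intervalIntegral.integral_const_mul, integral_exp_mul_complex (neg_ne_zero.2 hβ0)]
    congr 1
    have h2 : Complex.exp (-β * ((ν n + 8 * T : ℝ) : ℂ)) =
        Complex.exp (-(β * ((ν n : ℝ) : ℂ))) * Complex.exp (-(β * ((8 * T : ℝ) : ℂ))) := by
      rw [← Complex.exp_add]
      congr 1
      push_cast
      ring
    rw [h2, neg_mul]
    field_simp
    ring
  have hint : ∀ n ∈ s, Integrable (fun τ : ℝ => Complex.exp (-(β * (τ : ℂ))) *
      (Ico (ν n) (ν n + 8 * T)).indicator (fun _ => c n) τ) := by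
    intro n _
    have h1 : (fun τ : ℝ => Complex.exp (-(β * (τ : ℂ))) *
        (Ico (ν n) (ν n + 8 * T)).indicator (fun _ => c n) τ) =
        (Ico (ν n) (ν n + 8 * T)).indicator
          (fun τ : ℝ => Complex.exp (-(β * (τ : ℂ))) * c n) := by
      funext τ
      by_cases hτ : τ ∈ Ico (ν n) (ν n + 8 * T)
      · rw [indicator_of_mem hτ, indicator_of_mem hτ]
      · rw [indicator_of_notMem hτ, indicator_of_notMem hτ, mul_zero]
    rw [h1, integrable_indicator_iff measurableSet_Ico]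
    have h2 : ContinuousOn (fun τ : ℝ => Complex.exp (-(β * (τ : ℂ))) * c n)
        (Icc (ν n) (ν n + 8 * T)) := by fun_prop
    exact (h2.integrableOn_Icc).mono_set Ico_subset_Icc_self
  have hF : FF s c ν T t = ∑ n ∈ s, c n * ((Complex.exp (-(β * ((ν n : ℝ) : ℂ))) *
        (1 - Complex.exp (-(β * ((8 * T : ℝ) : ℂ))))) / β) := by
    unfold FF
    simp only [AA_eq, Finset.mul_sum]
    rw [integral_finsetSum _ hint]
    exact Finset.sum_congr rfl fun n _ => hterm n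
  rw [hF, Finset.mul_sum, Finset.mul_sum]
  refine Finset.sum_congr rfl fun n _ => ?_
  field_simp

/-- lower bound of the factor -/
theorem factor_ge {t : ℝ} (hT : 2 ≤ T) (h1 : T ≤ t) (h2 : t ≤ 2 * T) :
    1 / 5 ≤ ‖1 - Complex.exp (-(lam t / 2 * ((8 * T : ℝ) : ℂ)))‖ := by
  rw [exp_split]
  set r : ℝ := Real.exp (-(rr t * (8 * T))) with hr
  have hr0 : 0 < r := Real.exp_pos _
  set θ : ℝ := sg t * (8 * T) with hθ
  have hu : u (sg t * (-(8 * T))) = Complex.cos θ + Complex.sin θ * Complex.I := by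
    unfold u
    rw [← Complex.exp_mul_I]
    congr 1
    rw [hθ]
    push_cast
    ring
  have ht : 0 < t := by linarith
  have hθe : θ = t * T / (1 + t ^ 2) := by
    rw [hθ, sg]
    field_simp
  have hθ1 : θ ≤ 1 := by
    rw [hθe, div_le_one (by positivity)]
    nlinarith
  have hθ2 : 2 / 5 ≤ θ := by
    rw [hθe, le_div_iff₀ (by positivity)]
    nlinarith
  have hpi : Real.pi ≤ 4 := Real.pi_le_four
  have hpi3 : (3 : ℝ) < Real.pi := Real.pi_gt_three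
  have hsin : 1 / 5 ≤ Real.sin θ := by
    have h3 := Real.mul_le_sin (x := θ) (by linarith) (by linarith)
    have h4 : 1 / 2 ≤ 2 / Real.pi := by
      rw [div_le_div_iff₀ (by norm_num) (by linarith)]
      linarith
    nlinarith
  rw [hu]
  have hre : (1 - (r : ℂ) * (Complex.cos θ + Complex.sin θ * Complex.I)) =
      ((1 - r * Real.cos θ : ℝ) : ℂ) + ((-(r * Real.sin θ) : ℝ) : ℂ) * Complex.I := by
    push_cast
    ring
  rw [hre]
  have hsq : (Real.sin θ) ^ 2 ≤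
      ‖((1 - r * Real.cos θ : ℝ) : ℂ) + ((-(r * Real.sin θ) : ℝ) : ℂ) * Complex.I‖ ^ 2 := by
    rw [← Complex.normSq_eq_norm_sq, Complex.normSq_add_mul_I]
    have h5 := Real.sin_sq_add_cos_sq θ
    nlinarith [sq_nonneg (r - Real.cos θ)]
  have h6 := abs_le_of_sq_le_sq' hsq (norm_nonneg _)
  linarith [h6.2]

/-- the truncated transform -/
noncomputable def gg (s : Finset ℤ) (c : ℤ → ℂ) (ν : ℤ → ℝ) (T x σ : ℝ) : ℂ :=
  ∫ τ : ℝ, u (σ * (-τ)) * (Iic x).indicator (AA s c ν T) τ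

theorem int_exp {ρ : ℝ} (hρ : 0 < ρ) (y : ℝ) :
    ∫ x in Ioi y, ρ * Real.exp (-(ρ * x)) = Real.exp (-(ρ * y)) := by
  have h := integral_exp_mul_Ioi (a := -ρ) (by linarith) y
  have h1 : (fun x : ℝ => ρ * Real.exp (-(ρ * x))) = fun x => ρ * Real.exp (-ρ * x) := by
    funext x
    rw [neg_mul]
  rw [h1, integral_const_mul, h, ← neg_mul]
  field_simp

theorem intble_exp {ρ : ℝ} (hρ : 0 < ρ) (y : ℝ) :
    IntegrableOn (fun x => ρ * Real.exp (-(ρ * x))) (Ioi y) := by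
  have h := integrableOn_exp_mul_Ioi (a := -ρ) (by linarith) y
  have h1 : (fun x : ℝ => ρ * Real.exp (-(ρ * x))) = fun x => ρ * Real.exp (-ρ * x) := by
    funext x
    rw [neg_mul]
  rw [h1]
  exact h.const_mul ρ

theorem ind_meas (s : Finset ℤ) (c : ℤ → ℂ) (ν : ℤ → ℝ) (T : ℝ) :
    Measurable (fun p : ℝ × ℝ => (Iic p.1).indicator (AA s c ν T) p.2) := by
  have h1 : (fun p : ℝ × ℝ => (Iic p.1).indicator (AA s c ν T) p.2) =
      {p : ℝ × ℝ | p.2 ≤ p.1}.indicator (fun p => AA s c ν T p.2) := by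
    funext p
    by_cases hp : p.2 ≤ p.1
    · rw [indicator_of_mem (show p.2 ∈ Iic p.1 from hp),
        indicator_of_mem (show p ∈ {p : ℝ × ℝ | p.2 ≤ p.1} from hp)]
    · rw [indicator_of_notMem (show p.2 ∉ Iic p.1 from hp),
        indicator_of_notMem (show p ∉ {p : ℝ × ℝ | p.2 ≤ p.1} from hp)]
  rw [h1]
  exact (AA_meas.comp measurable_snd).indicator (measurableSet_le measurable_snd measurable_fst)

theorem gg_meas (s : Finset ℤ) (c : ℤ → ℂ) (ν : ℤ → ℝ) (T : ℝ) :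
    Measurable (fun p : ℝ × ℝ => gg s c ν T p.1 p.2) := by
  unfold gg
  have h : StronglyMeasurable (Function.uncurry (fun (p : ℝ × ℝ) (τ : ℝ) =>
      u (p.2 * (-τ)) * (Iic p.1).indicator (AA s c ν T) τ)) := by
    apply Measurable.stronglyMeasurable
    refine Measurable.mul ?_ ?_
    · exact measurable_u.comp (by fun_prop)
    · exact (ind_meas s c ν T).comp
        ((measurable_fst.comp measurable_fst).prodMk measurable_snd)
  exact h.integral_prod_right.measurable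

theorem FF_eq (hν : ∀ n ∈ s, 0 ≤ ν n ∧ ν n ≤ M) (t : ℝ) :
    FF s c ν T t = ∫ x in Ioi (0 : ℝ),
      ((rr t * Real.exp (-(rr t * x)) : ℝ) : ℂ) * gg s c ν T x (sg t) := by
  set ρ := rr t with hρ
  set σ := sg t with hσ
  have hρ0 : 0 < ρ := rr_pos t
  have hmeas : Measurable (fun p : ℝ × ℝ => ((ρ * Real.exp (-(ρ * p.1)) : ℝ) : ℂ) *
      (u (σ * (-p.2)) * (Iic p.1).indicator (AA s c ν T) p.2)) := by
    refine Measurable.mul ?_ (Measurable.mul ?_ (ind_meas s c ν T))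
    · exact Complex.measurable_ofReal.comp (by fun_prop)
    · exact measurable_u.comp (by fun_prop)
  have hint : Integrable (fun p : ℝ × ℝ => ((ρ * Real.exp (-(ρ * p.1)) : ℝ) : ℂ) *
      (u (σ * (-p.2)) * (Iic p.1).indicator (AA s c ν T) p.2))
      ((volume.restrict (Ioi (0 : ℝ))).prod volume) := by
    have h1 : Integrable (fun p : ℝ × ℝ => (ρ * Real.exp (-(ρ * p.1))) * ‖AA s c ν T p.2‖)
        ((volume.restrict (Ioi (0 : ℝ))).prod volume) :=
      Integrable.mul_prod (intble_exp hρ0 0) (AA_int (s := s) (c := c) (ν := ν) (T := T)).norm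
    refine h1.mono' hmeas.aestronglyMeasurable (Eventually.of_forall fun p => ?_)
    rw [norm_mul, norm_mul, norm_u, one_mul, Complex.norm_real,
      Real.norm_of_nonneg (by positivity)]
    gcongr
    exact norm_indicator_le_norm_self _ _
  have hsw := integral_integral_swap (f := fun x τ : ℝ => ((ρ * Real.exp (-(ρ * x)) : ℝ) : ℂ) *
    (u (σ * (-τ)) * (Iic x).indicator (AA s c ν T) τ)) hint
  unfold gg
  have h2 : ∀ x : ℝ, ((ρ * Real.exp (-(ρ * x)) : ℝ) : ℂ) *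
      ∫ τ : ℝ, u (σ * (-τ)) * (Iic x).indicator (AA s c ν T) τ =
      ∫ τ : ℝ, ((ρ * Real.exp (-(ρ * x)) : ℝ) : ℂ) *
        (u (σ * (-τ)) * (Iic x).indicator (AA s c ν T) τ) := fun x =>
    (integral_const_mul _ _).symm
  simp only [h2]
  rw [hsw]
  unfold FF
  refine integral_congr_ae (Eventually.of_forall fun τ => ?_)
  change Complex.exp (-(lam t / 2 * (τ : ℂ))) * AA s c ν T τ = ∫ x in Ioi (0 : ℝ),
    ((ρ * Real.exp (-(ρ * x)) : ℝ) : ℂ) * (u (σ * (-τ)) * (Iic x).indicator (AA s c ν T) τ)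
  by_cases hτ : τ < 0
  · have h0 : AA s c ν T τ = 0 := AA_neg hν hτ
    have h3 : ∀ x : ℝ, (Iic x).indicator (AA s c ν T) τ = 0 := by
      intro x
      rw [indicator_apply, h0]
      simp
    simp [h0, h3]
  · rw [not_lt] at hτ
    have h3 : ∀ x : ℝ, ((ρ * Real.exp (-(ρ * x)) : ℝ) : ℂ) *
        (u (σ * (-τ)) * (Iic x).indicator (AA s c ν T) τ) =
        (Ici τ).indicator (fun x => ((ρ * Real.exp (-(ρ * x)) : ℝ) : ℂ)) x *
          (u (σ * (-τ)) * AA s c ν T τ) := by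
      intro x
      by_cases hx : τ ≤ x
      · rw [indicator_of_mem (show τ ∈ Iic x from hx), indicator_of_mem (show x ∈ Ici τ from hx)]
      · rw [indicator_of_notMem (show τ ∉ Iic x from hx),
          indicator_of_notMem (show x ∉ Ici τ from hx)]
        simp
    simp only [h3]
    rw [integral_mul_const, setIntegral_indicator measurableSet_Ici]
    have h4 : ∫ x in Ioi (0 : ℝ) ∩ Ici τ, ((ρ * Real.exp (-(ρ * x)) : ℝ) : ℂ) =
        ((Real.exp (-(ρ * τ)) : ℝ) : ℂ) := by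
      have h5 : ∫ x in Ioi (0 : ℝ) ∩ Ici τ, ((ρ * Real.exp (-(ρ * x)) : ℝ) : ℂ) =
          ∫ x in Ioi τ, ((ρ * Real.exp (-(ρ * x)) : ℝ) : ℂ) := by
        apply setIntegral_congr_set
        have h6 : (Ioi (0 : ℝ) ∩ Ici τ : Set ℝ) =ᵐ[volume] (Ioi 0 ∩ Ioi τ : Set ℝ) :=
          ae_eq_set_inter (ae_eq_refl _) Ioi_ae_eq_Ici.symm
        have h7 : (Ioi (0 : ℝ) ∩ Ioi τ : Set ℝ) = Ioi τ := by
          rw [inter_eq_right]
          exact Ioi_subset_Ioi hτ
        rwa [h7] at h6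
      rw [h5, integral_complex_ofReal, int_exp hρ0]
    rw [h4, exp_split, mul_assoc]

theorem cs {μ : Measure ℝ} {w φ : ℝ → ℝ≥0∞} (hw : Measurable w) (hφ : Measurable φ)
    (h1 : ∫⁻ x, w x ∂μ ≤ 1) : (∫⁻ x, w x * φ x ∂μ) ^ 2 ≤ ∫⁻ x, w x * φ x ^ 2 ∂μ := by
  have h := ENNReal.lintegral_mul_norm_pow_le (μ := μ) (f := fun x => w x * φ x ^ 2)
    (g := w) (hw.mul (hφ.pow_const 2)).aemeasurable hw.aemeasurable (p := 1 / 2) (q := 1 / 2)
    (by norm_num) (by norm_num) (by norm_num)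
  have e : ∀ y : ℝ≥0∞, (y ^ 2) ^ (1 / 2 : ℝ) = y := by
    intro y
    rw [← ENNReal.rpow_natCast y 2, ← ENNReal.rpow_mul]
    norm_num
  have e2 : ∀ x, (w x * φ x ^ 2) ^ (1 / 2 : ℝ) * w x ^ (1 / 2 : ℝ) = w x * φ x := by
    intro x
    rw [← ENNReal.mul_rpow_of_nonneg _ _ (by norm_num : (0 : ℝ) ≤ 1 / 2)]
    have : w x * φ x ^ 2 * w x = (w x * φ x) ^ 2 := by ring
    rw [this, e]
  simp only [e2] at h
  calc (∫⁻ x, w x * φ x ∂μ) ^ 2
      ≤ ((∫⁻ x, w x * φ x ^ 2 ∂μ) ^ (1 / 2 : ℝ) * (∫⁻ x, w x ∂μ) ^ (1 / 2 : ℝ)) ^ 2 := by gcongr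
    _ ≤ ((∫⁻ x, w x * φ x ^ 2 ∂μ) ^ (1 / 2 : ℝ) * 1) ^ 2 := by
        gcongr
        calc (∫⁻ x, w x ∂μ) ^ (1 / 2 : ℝ) ≤ 1 ^ (1 / 2 : ℝ) := by gcongr
          _ = 1 := ENNReal.one_rpow _
    _ = ∫⁻ x, w x * φ x ^ 2 ∂μ := by
        rw [mul_one, ← ENNReal.rpow_natCast _ 2, ← ENNReal.rpow_mul]
        norm_num

theorem gg_big (hν : ∀ n ∈ s, 0 ≤ ν n ∧ ν n ≤ M) {x : ℝ} (σ : ℝ) (hx : M + 8 * T ≤ x) :
    gg s c ν T x σ = gg s c ν T (M + 8 * T) σ := by
  unfold gg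
  congr 1
  funext τ
  congr 1
  rw [indicator_apply, indicator_apply]
  by_cases h1 : τ ≤ M + 8 * T
  · rw [if_pos (show τ ∈ Iic x from h1.trans hx), if_pos (show τ ∈ Iic (M + 8 * T) from h1)]
  · rw [if_neg (show τ ∉ Iic (M + 8 * T) from h1), AA_big hν (not_le.1 h1).le]
    simp

/-- the dominating function of the frequency -/
noncomputable def GG (s : Finset ℤ) (c : ℤ → ℂ) (ν : ℤ → ℝ) (M T σ : ℝ) : ℝ≥0∞ :=
  ENNReal.ofReal (rr T) * (∫⁻ x in Ioc (0 : ℝ) (M + 8 * T), ‖gg s c ν T x σ‖ₑ ^ 2) +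
    ‖gg s c ν T (M + 8 * T) σ‖ₑ ^ 2

theorem lint_exp {ρ : ℝ} (hρ : 0 < ρ) (y : ℝ) :
    ∫⁻ x in Ioi y, ENNReal.ofReal (ρ * Real.exp (-(ρ * x))) =
      ENNReal.ofReal (Real.exp (-(ρ * y))) := by
  rw [← ofReal_integral_eq_lintegral_ofReal (intble_exp hρ y)
    (Eventually.of_forall fun x => by positivity), int_exp hρ]

theorem rr_anti {t : ℝ} (hT : 0 ≤ T) (h : T ≤ t) : rr t ≤ rr T := by
  unfold rr
  gcongr

theorem FF_sq (hν : ∀ n ∈ s, 0 ≤ ν n ∧ ν n ≤ M) {t : ℝ} (hT : 0 ≤ T) (hM : 0 ≤ M) (h : T ≤ t) :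
    ‖FF s c ν T t‖ₑ ^ 2 ≤ GG s c ν M T (sg t) := by
  have hρ0 : 0 < rr t := rr_pos t
  set L : ℝ := M + 8 * T with hL
  have hL0 : 0 ≤ L := by positivity
  have hgm : Measurable (fun x : ℝ => ‖gg s c ν T x (sg t)‖ₑ) :=
    ((gg_meas s c ν T).comp (measurable_id.prodMk measurable_const)).enorm
  have hwm : Measurable (fun x : ℝ => ENNReal.ofReal (rr t * Real.exp (-(rr t * x)))) := by
    fun_prop
  have h1 : ‖FF s c ν T t‖ₑ ≤ ∫⁻ x in Ioi (0 : ℝ),
      ENNReal.ofReal (rr t * Real.exp (-(rr t * x))) * ‖gg s c ν T x (sg t)‖ₑ := by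
    rw [FF_eq hν]
    refine (enorm_integral_le_lintegral_enorm _).trans (le_of_eq ?_)
    refine lintegral_congr fun x => ?_
    rw [enorm_mul, ← ofReal_norm, Complex.norm_real, Real.norm_of_nonneg (by positivity)]
  have h2 : ‖FF s c ν T t‖ₑ ^ 2 ≤ ∫⁻ x in Ioi (0 : ℝ),
      ENNReal.ofReal (rr t * Real.exp (-(rr t * x))) * ‖gg s c ν T x (sg t)‖ₑ ^ 2 := by
    calc ‖FF s c ν T t‖ₑ ^ 2 ≤ (∫⁻ x in Ioi (0 : ℝ),
          ENNReal.ofReal (rr t * Real.exp (-(rr t * x))) * ‖gg s c ν T x (sg t)‖ₑ) ^ 2 := by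
          gcongr
      _ ≤ _ := cs hwm hgm (by
          rw [lint_exp hρ0]
          simp)
  refine h2.trans ?_
  have h3 : (Ioi (0 : ℝ)) = Ioc 0 L ∪ Ioi L := (Ioc_union_Ioi_eq_Ioi hL0).symm
  rw [h3, lintegral_union measurableSet_Ioi (Ioc_disjoint_Ioi le_rfl)]
  unfold GG
  rw [← hL]
  gcongr
  · rw [← lintegral_const_mul' _ _ ENNReal.ofReal_ne_top]
    refine setLIntegral_mono' measurableSet_Ioc fun x hx => ?_
    gcongr
    have h4 : Real.exp (-(rr t * x)) ≤ 1 := by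
      rw [Real.exp_le_one_iff]
      have := mul_nonneg hρ0.le hx.1.le
      linarith
    calc rr t * Real.exp (-(rr t * x)) ≤ rr t * 1 := by gcongr
      _ = rr t := mul_one _
      _ ≤ rr T := rr_anti hT h
  · calc ∫⁻ x in Ioi L, ENNReal.ofReal (rr t * Real.exp (-(rr t * x))) *
          ‖gg s c ν T x (sg t)‖ₑ ^ 2
        = ∫⁻ x in Ioi L, ENNReal.ofReal (rr t * Real.exp (-(rr t * x))) *
          ‖gg s c ν T L (sg t)‖ₑ ^ 2 := by
          refine setLIntegral_congr_fun measurableSet_Ioi fun x hx => ?_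
          rw [gg_big hν (sg t) (le_of_lt hx)]
      _ = ENNReal.ofReal (Real.exp (-(rr t * L))) * ‖gg s c ν T L (sg t)‖ₑ ^ 2 := by
          rw [lintegral_mul_const _ hwm, lint_exp hρ0]
      _ ≤ 1 * ‖gg s c ν T L (sg t)‖ₑ ^ 2 := by
          gcongr
          rw [ENNReal.ofReal_le_one, Real.exp_le_one_iff]
          have := mul_nonneg hρ0.le hL0
          linarith
      _ = _ := one_mul _

/-- Plancherel for the truncated transform -/
theorem gg_planch (s : Finset ℤ) (c : ℤ → ℂ) (ν : ℤ → ℝ) (T x : ℝ) :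
    ∫⁻ σ : ℝ, ‖gg s c ν T x σ‖ₑ ^ 2 ≤
      ENNReal.ofReal (2 * Real.pi) * ∫⁻ τ : ℝ, ‖AA s c ν T τ‖ₑ ^ 2 := by
  have h := plancherel1 (μ := (volume : Measure ℝ)) (s := fun τ => -τ) measurable_neg (C := 1)
    (fun φ _ => by rw [one_mul, lintegral_neg_eq_self])
    (G := (Iic x).indicator (AA s c ν T)) (AA_meas.indicator measurableSet_Iic)
  rw [one_mul] at h
  refine h.trans ?_
  gcongr with τ
  rw [indicator_apply]
  split_ifs
  · exact le_rfl
  · rw [enorm_zero]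
    exact zero_le

theorem GG_meas : Measurable (GG s c ν M T) := by
  unfold GG
  refine Measurable.add (Measurable.const_mul ?_ _) ?_
  · have h : Measurable (Function.uncurry fun (σ x : ℝ) => ‖gg s c ν T x σ‖ₑ ^ 2) :=
      (((gg_meas s c ν T).comp (measurable_snd.prodMk measurable_fst)).enorm).pow_const 2
    exact h.lintegral_prod_right
  · exact (((gg_meas s c ν T).comp (measurable_const.prodMk measurable_id)).enorm).pow_const 2

theorem GG_int (hT : 2 ≤ T) (hM : 0 ≤ M) : ∫⁻ σ : ℝ, GG s c ν M T σ ≤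
    ENNReal.ofReal (2 * (1 + M / T ^ 2)) *
      (ENNReal.ofReal (2 * Real.pi) * ∫⁻ τ : ℝ, ‖AA s c ν T τ‖ₑ ^ 2) := by
  set I₀ : ℝ≥0∞ := ENNReal.ofReal (2 * Real.pi) * ∫⁻ τ : ℝ, ‖AA s c ν T τ‖ₑ ^ 2 with hI
  have hjm : Measurable (Function.uncurry fun (σ x : ℝ) => ‖gg s c ν T x σ‖ₑ ^ 2) :=
    (((gg_meas s c ν T).comp (measurable_snd.prodMk measurable_fst)).enorm).pow_const 2
  have h1 : ∫⁻ σ : ℝ, ∫⁻ x in Ioc (0 : ℝ) (M + 8 * T), ‖gg s c ν T x σ‖ₑ ^ 2 ≤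
      ENNReal.ofReal (M + 8 * T) * I₀ := by
    rw [lintegral_lintegral_swap hjm.aemeasurable]
    calc ∫⁻ x in Ioc (0 : ℝ) (M + 8 * T), ∫⁻ σ : ℝ, ‖gg s c ν T x σ‖ₑ ^ 2
        ≤ ∫⁻ _ in Ioc (0 : ℝ) (M + 8 * T), I₀ := lintegral_mono fun x => gg_planch s c ν T x
      _ = _ := by
        rw [setLIntegral_const, Real.volume_Ioc, sub_zero, mul_comm]
  unfold GG
  have hm2 : Measurable (fun σ : ℝ => ‖gg s c ν T (M + 8 * T) σ‖ₑ ^ 2) :=
    (((gg_meas s c ν T).comp (measurable_const.prodMk measurable_id)).enorm).pow_const 2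
  rw [lintegral_add_right _ hm2, lintegral_const_mul' _ _ ENNReal.ofReal_ne_top]
  calc ENNReal.ofReal (rr T) *
        (∫⁻ σ : ℝ, ∫⁻ x in Ioc (0 : ℝ) (M + 8 * T), ‖gg s c ν T x σ‖ₑ ^ 2) +
        ∫⁻ σ : ℝ, ‖gg s c ν T (M + 8 * T) σ‖ₑ ^ 2
      ≤ ENNReal.ofReal (rr T) * (ENNReal.ofReal (M + 8 * T) * I₀) + I₀ := by
        gcongr
        exact gg_planch s c ν T _
    _ = ENNReal.ofReal (rr T * (M + 8 * T) + 1) * I₀ := by
        rw [ENNReal.ofReal_add (mul_nonneg (rr_pos T).le (by positivity)) zero_le_one,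
          ENNReal.ofReal_mul (rr_pos T).le, ENNReal.ofReal_one]
        ring
    _ ≤ _ := by
        gcongr
        have hT0 : 0 < T := by linarith
        unfold rr
        rw [div_mul_eq_mul_div, one_mul]
        have h2 : (M + 8 * T) / (8 * (1 + T ^ 2)) ≤ M / T ^ 2 + 1 := by
          rw [div_le_iff₀ (by positivity)]
          have h3 : (M / T ^ 2 + 1) * (8 * (1 + T ^ 2)) =
              8 * M / T ^ 2 + 8 * M + 8 * (1 + T ^ 2) := by
            field_simp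
          rw [h3]
          have h4 : 0 ≤ 8 * M / T ^ 2 := by positivity
          nlinarith
        have h5 : 0 ≤ M / T ^ 2 := by positivity
        linarith

theorem sg_deriv (t : ℝ) :
    HasDerivAt sg ((1 - t ^ 2) / (8 * (1 + t ^ 2) ^ 2)) t := by
  have h1 : HasDerivAt (fun t : ℝ => 8 * (1 + t ^ 2)) (8 * (2 * t)) t := by
    have := ((hasDerivAt_pow 2 t).const_add 1).const_mul 8
    simpa using this
  have h2 := (hasDerivAt_id t).div h1 (by positivity)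
  refine h2.congr_deriv ?_
  simp only [id]
  field_simp
  ring

theorem sg_inj (hT : 2 ≤ T) : InjOn sg (Icc T (2 * T)) := by
  intro a ha b hb h
  unfold sg at h
  rw [div_eq_div_iff (by positivity) (by positivity)] at h
  have h1 : (a - b) * (1 - a * b) = 0 := by nlinarith
  rcases mul_eq_zero.1 h1 with h2 | h2
  · linarith
  · exfalso
    have := ha.1
    have := hb.1
    nlinarith

/-- one half of the lemma -/
theorem half (hT : 2 ≤ T) (hM : 0 ≤ M) (hν : ∀ n ∈ s, 0 ≤ ν n ∧ ν n ≤ M) :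
    ∫⁻ t in Icc T (2 * T), ‖∑ n ∈ s, c n * Complex.exp (-(lam t / 2 * ((ν n : ℝ) : ℂ)))‖ₑ ^ 2 *
      ENNReal.ofReal (1 / (1 + t ^ 2)) ≤
    ENNReal.ofReal (6 / T ^ 2) * (ENNReal.ofReal (2 * (1 + M / T ^ 2)) *
      (ENNReal.ofReal (2 * Real.pi) * ∫⁻ τ : ℝ, ‖AA s c ν T τ‖ₑ ^ 2)) := by
  have hT0 : 0 < T := by linarith
  have hpt : ∀ t ∈ Icc T (2 * T),
      ‖∑ n ∈ s, c n * Complex.exp (-(lam t / 2 * ((ν n : ℝ) : ℂ)))‖ₑ ^ 2 *
        ENNReal.ofReal (1 / (1 + t ^ 2)) ≤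
      ENNReal.ofReal (6 / T ^ 2) * (ENNReal.ofReal |(1 - t ^ 2) / (8 * (1 + t ^ 2) ^ 2)| *
        GG s c ν M T (sg t)) := by
    intro t ht
    have ht0 : 0 < t := by linarith [ht.1]
    set S : ℂ := ∑ n ∈ s, c n * Complex.exp (-(lam t / 2 * ((ν n : ℝ) : ℂ))) with hS
    have hk := key (s := s) (c := c) (ν := ν) t hT0.le
    rw [← hS] at hk
    have hf := factor_ge hT ht.1 ht.2
    have h1 : 1 / 5 * ‖S‖ ≤ ‖lam t / 2‖ * ‖FF s c ν T t‖ := by
      rw [← norm_mul, ← hk, norm_mul]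
      gcongr
    have h2 : ‖S‖ ^ 2 ≤ 25 / (64 * (1 + t ^ 2)) * ‖FF s c ν T t‖ ^ 2 := by
      have h3 : (1 / 5 * ‖S‖) ^ 2 ≤ (‖lam t / 2‖ * ‖FF s c ν T t‖) ^ 2 := by gcongr
      rw [mul_pow, mul_pow, norm_sq_lam] at h3
      have h4 : 25 / (64 * (1 + t ^ 2)) * ‖FF s c ν T t‖ ^ 2 =
          25 * (1 / (64 * (1 + t ^ 2)) * ‖FF s c ν T t‖ ^ 2) := by ring
      rw [h4]
      linarith
    have habs : |(1 - t ^ 2) / (8 * (1 + t ^ 2) ^ 2)| = (t ^ 2 - 1) / (8 * (1 + t ^ 2) ^ 2) := by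
      rw [abs_of_nonpos]
      · rw [← neg_div]
        congr 1
        ring
      · apply div_nonpos_of_nonpos_of_nonneg
        · nlinarith [ht.1]
        · positivity
    have h5 : 25 / (64 * (1 + t ^ 2)) * (1 / (1 + t ^ 2)) ≤
        6 / T ^ 2 * |(1 - t ^ 2) / (8 * (1 + t ^ 2) ^ 2)| := by
      rw [habs]
      have h6 : 25 / (64 * (1 + t ^ 2)) * (1 / (1 + t ^ 2)) = (25 / 8) / (8 * (1 + t ^ 2) ^ 2) := by
        field_simp
        norm_num
      rw [h6, ← mul_div_assoc]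
      gcongr
      rw [div_mul_eq_mul_div, le_div_iff₀ (by positivity)]
      nlinarith [ht.1]
    have h7 : ‖FF s c ν T t‖ₑ ^ 2 ≤ GG s c ν M T (sg t) := FF_sq hν hT0.le hM ht.1
    calc ‖S‖ₑ ^ 2 * ENNReal.ofReal (1 / (1 + t ^ 2))
        = ENNReal.ofReal (‖S‖ ^ 2 * (1 / (1 + t ^ 2))) := by
          rw [ENNReal.ofReal_mul (by positivity), ENNReal.ofReal_pow (norm_nonneg _), ofReal_norm]
      _ ≤ ENNReal.ofReal (6 / T ^ 2 * |(1 - t ^ 2) / (8 * (1 + t ^ 2) ^ 2)| *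
          ‖FF s c ν T t‖ ^ 2) := by
          apply ENNReal.ofReal_le_ofReal
          calc ‖S‖ ^ 2 * (1 / (1 + t ^ 2))
              ≤ 25 / (64 * (1 + t ^ 2)) * ‖FF s c ν T t‖ ^ 2 * (1 / (1 + t ^ 2)) := by gcongr
            _ = 25 / (64 * (1 + t ^ 2)) * (1 / (1 + t ^ 2)) * ‖FF s c ν T t‖ ^ 2 := by ring
            _ ≤ _ := by gcongr
      _ = ENNReal.ofReal (6 / T ^ 2) * (ENNReal.ofReal |(1 - t ^ 2) / (8 * (1 + t ^ 2) ^ 2)| *
          ‖FF s c ν T t‖ₑ ^ 2) := by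
          rw [ENNReal.ofReal_mul (by positivity), ENNReal.ofReal_mul (by positivity),
            ENNReal.ofReal_pow (norm_nonneg _), ofReal_norm, mul_assoc]
      _ ≤ _ := by gcongr
  calc _ ≤ ∫⁻ t in Icc T (2 * T), ENNReal.ofReal (6 / T ^ 2) *
        (ENNReal.ofReal |(1 - t ^ 2) / (8 * (1 + t ^ 2) ^ 2)| * GG s c ν M T (sg t)) :=
        setLIntegral_mono' measurableSet_Icc hpt
    _ = ENNReal.ofReal (6 / T ^ 2) * ∫⁻ t in Icc T (2 * T),
        ENNReal.ofReal |(1 - t ^ 2) / (8 * (1 + t ^ 2) ^ 2)| * GG s c ν M T (sg t) :=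
        lintegral_const_mul' _ _ ENNReal.ofReal_ne_top
    _ = ENNReal.ofReal (6 / T ^ 2) * ∫⁻ σ in sg '' Icc T (2 * T), GG s c ν M T σ := by
        rw [lintegral_image_eq_lintegral_abs_deriv_mul measurableSet_Icc
          (fun t _ => (sg_deriv t).hasDerivWithinAt) (sg_inj hT)]
    _ ≤ ENNReal.ofReal (6 / T ^ 2) * ∫⁻ σ, GG s c ν M T σ := by
        gcongr
        exact Measure.restrict_le_self
    _ ≤ _ := by
        gcongr
        exact GG_int hT hM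

theorem lam_neg (t : ℝ) : lam (-t) = (starRingEnd ℂ) (lam t) := by
  unfold lam
  rw [map_div₀, map_mul, map_add, map_mul, Complex.conj_ofReal, Complex.conj_I, map_one,
    map_ofNat]
  simp

end NEA_

open NEA_

theorem p_NEA : T_NEA := by
  refine ⟨160, ?_⟩
  intro s c ν M T hT hM hν
  have hT0 : 0 < T := by linarith
  set Φ : (ℤ → ℂ) → ℝ → ℝ≥0∞ := fun c t =>
    ‖∑ n ∈ s, c n * Complex.exp (-(lam t / 2 * ((ν n : ℝ) : ℂ)))‖ₑ ^ 2 *
      ENNReal.ofReal (1 / (1 + t ^ 2)) with hΦ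
  have hset : {t : ℝ | T ≤ |t| ∧ |t| ≤ 2 * T} ⊆ Icc T (2 * T) ∪ Icc (-(2 * T)) (-T) := by
    rintro t ⟨h1, h2⟩
    rcases le_or_gt 0 t with h | h
    · left
      rw [abs_of_nonneg h] at h1 h2
      exact ⟨h1, h2⟩
    · right
      rw [abs_of_neg h] at h1 h2
      exact ⟨by linarith, by linarith⟩
  have hΦn : ∀ t, Φ c (-t) = Φ (fun n => (starRingEnd ℂ) (c n)) t := by
    intro t
    simp only [hΦ]
    have h1 : ∑ n ∈ s, c n * Complex.exp (-(lam (-t) / 2 * ((ν n : ℝ) : ℂ))) =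
        (starRingEnd ℂ) (∑ n ∈ s, (starRingEnd ℂ) (c n) *
          Complex.exp (-(lam t / 2 * ((ν n : ℝ) : ℂ)))) := by
      rw [map_sum]
      refine Finset.sum_congr rfl fun n _ => ?_
      rw [map_mul, Complex.conj_conj, ← Complex.exp_conj, map_neg, map_mul, map_div₀,
        Complex.conj_ofReal, lam_neg, map_ofNat]
    rw [h1, ← ofReal_norm, RCLike.norm_conj, ofReal_norm, neg_sq]
  have hneg : ∫⁻ t in Icc (-(2 * T)) (-T), Φ c t =
      ∫⁻ t in Icc T (2 * T), Φ (fun n => (starRingEnd ℂ) (c n)) t := by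
    have h1 := (Measure.measurePreserving_neg (volume : Measure ℝ)).setLIntegral_comp_preimage_emb
      (MeasurableEquiv.neg ℝ).measurableEmbedding (Φ c) (Icc (-(2 * T)) (-T))
    rw [← h1]
    have h2 : (Neg.neg : ℝ → ℝ) ⁻¹' Icc (-(2 * T)) (-T) = Icc T (2 * T) := by
      ext t
      simp only [mem_preimage, mem_Icc]
      constructor
      · rintro ⟨h3, h4⟩
        exact ⟨by linarith, by linarith⟩
      · rintro ⟨h3, h4⟩
        exact ⟨by linarith, by linarith⟩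
    rw [h2]
    exact lintegral_congr fun t => hΦn t
  have hAA : ∀ τ, ‖AA s (fun n => (starRingEnd ℂ) (c n)) ν T τ‖ₑ = ‖AA s c ν T τ‖ₑ := by
    intro τ
    unfold AA
    rw [← map_sum, ← ofReal_norm, RCLike.norm_conj, ofReal_norm]
  set I₀ : ℝ≥0∞ := ∫⁻ τ : ℝ, ‖AA s c ν T τ‖ₑ ^ 2 with hI₀
  have hA := half (c := c) hT hM hν
  have hB := half (c := fun n => (starRingEnd ℂ) (c n)) hT hM hν
  simp only [hAA] at hB
  rw [← hI₀] at hA hB
  have hconst : ENNReal.ofReal (6 / T ^ 2) * (ENNReal.ofReal (2 * (1 + M / T ^ 2)) *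
      (ENNReal.ofReal (2 * Real.pi) * I₀)) =
      ENNReal.ofReal (24 * Real.pi) * ENNReal.ofReal ((1 + M / T ^ 2) / T ^ 2) * I₀ := by
    rw [← mul_assoc, ← mul_assoc, ← ENNReal.ofReal_mul (by positivity),
      ← ENNReal.ofReal_mul (by positivity), ← ENNReal.ofReal_mul (by positivity)]
    congr 2
    ring
  rw [hconst] at hA hB
  have hpi : ENNReal.ofReal (24 * Real.pi) ≤ 80 := by
    rw [show (80 : ℝ≥0∞) = ENNReal.ofReal 80 by simp]
    apply ENNReal.ofReal_le_ofReal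
    have := Real.pi_lt_d2
    linarith
  calc ∫⁻ t in {t : ℝ | T ≤ |t| ∧ |t| ≤ 2 * T}, Φ c t
      ≤ ∫⁻ t in Icc T (2 * T) ∪ Icc (-(2 * T)) (-T), Φ c t := lintegral_mono_set hset
    _ ≤ (∫⁻ t in Icc T (2 * T), Φ c t) + ∫⁻ t in Icc (-(2 * T)) (-T), Φ c t :=
        lintegral_union_le _ _ _
    _ ≤ ENNReal.ofReal (24 * Real.pi) * ENNReal.ofReal ((1 + M / T ^ 2) / T ^ 2) * I₀ +
        ENNReal.ofReal (24 * Real.pi) * ENNReal.ofReal ((1 + M / T ^ 2) / T ^ 2) * I₀ := by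
        rw [hneg]
        exact add_le_add hA hB
    _ ≤ 80 * ENNReal.ofReal ((1 + M / T ^ 2) / T ^ 2) * I₀ +
        80 * ENNReal.ofReal ((1 + M / T ^ 2) / T ^ 2) * I₀ := by gcongr
    _ = ((160 : ℝ≥0) : ℝ≥0∞) * ENNReal.ofReal ((1 + M / T ^ 2) / T ^ 2) * I₀ := by
        have : ((160 : ℝ≥0) : ℝ≥0∞) = 80 + 80 := by
          norm_num
        rw [this]
        ring

end Wey
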