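import Pool.Agent.Wey.Targets

/-!
# MP_5ab805_an, target ROT: every frame, with a chirp
-/

set_option autoImplicit false

namespace Wey

open MeasureTheory Set Filter
open scoped ENNReal NNReal Topology
open Pool.Agent.Restr (u E QQ)
open TriL (Sq n2)

/-- the reflection of the plane -/
def ROT_O (e x : ℝ × ℝ) : ℝ × ℝ := (x.1 * e.1 + x.2 * e.2, x.1 * e.2 - x.2 * e.1)

theorem ROT_cont (e : ℝ × ℝ) : Continuous (ROT_O e) := by
  unfold ROT_O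
  fun_prop

theorem ROT_mp {e : ℝ × ℝ} (he : e.1 ^ 2 + e.2 ^ 2 = 1) :
    MeasurePreserving (ROT_O e) (volume : Measure (ℝ × ℝ)) volume := by
  have h0 : (ROT_O e) =
      (Matrix.toLin (Module.Basis.finTwoProd ℝ) (Module.Basis.finTwoProd ℝ)
        !![e.1, e.2; e.2, -e.1] : (ℝ × ℝ) →ₗ[ℝ] (ℝ × ℝ)) := by
    funext x
    rw [Matrix.toLin_finTwoProd_apply]
    unfold ROT_O
    ext
    · simp only; ring
    · simp only; ring
  have hdet : LinearMap.det (Matrix.toLin (Module.Basis.finTwoProd ℝ)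
      (Module.Basis.finTwoProd ℝ) !![e.1, e.2; e.2, -e.1]) = -1 := by
    rw [LinearMap.det_toLin, Matrix.det_fin_two_of]
    linarith [he]
  refine ⟨(ROT_cont e).measurable, ?_⟩
  rw [h0, Measure.map_linearMap_addHaar_eq_smul_addHaar volume (by rw [hdet]; norm_num), hdet]
  simp

theorem ROT_inv {e : ℝ × ℝ} (he : e.1 ^ 2 + e.2 ^ 2 = 1) (x : ℝ × ℝ) :
    ROT_O e (ROT_O e x) = x := by
  unfold ROT_O
  ext
  · simp only
    linear_combination x.1 * he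
  · simp only
    linear_combination x.2 * he

theorem ROT_emb {e : ℝ × ℝ} (he : e.1 ^ 2 + e.2 ^ 2 = 1) : MeasurableEmbedding (ROT_O e) := by
  refine (ROT_cont e).measurableEmbedding (fun x y hxy => ?_)
  rw [← ROT_inv he x, hxy, ROT_inv he y]

theorem ROT_nq {e : ℝ × ℝ} (he : e.1 ^ 2 + e.2 ^ 2 = 1) (x : ℝ × ℝ) :
    nq (ROT_O e x) = nq x := by
  unfold nq ROT_O
  simp only
  linear_combination (x.1 ^ 2 + x.2 ^ 2) * he

theorem ROT_dot {e : ℝ × ℝ} (he : e.1 ^ 2 + e.2 ^ 2 = 1) (x y : ℝ × ℝ) :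
    (ROT_O e x).1 * (ROT_O e y).1 + (ROT_O e x).2 * (ROT_O e y).2 = x.1 * y.1 + x.2 * y.2 := by
  unfold ROT_O
  simp only
  linear_combination (x.1 * y.1 + x.2 * y.2) * he

/-- the transformation of the functions -/
noncomputable def ROT_T (c : ℝ) (e : ℝ × ℝ) (f : ℝ × ℝ → ℂ) (y : ℝ × ℝ) : ℂ :=
  u (c * nq y) * f (ROT_O e y)

/-- the transformation of the frequencies -/
def ROT_P (c : ℝ) (e : ℝ × ℝ) (ξ : ℝ × ℝ × ℝ) : ℝ × ℝ × ℝ :=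
  ((ROT_O e (ξ.1, ξ.2.1)).1, (ROT_O e (ξ.1, ξ.2.1)).2, ξ.2.2 - c)

theorem ROT_E {c : ℝ} {e : ℝ × ℝ} (he : e.1 ^ 2 + e.2 ^ 2 = 1) (f : ℝ × ℝ → ℂ)
    (ξ : ℝ × ℝ × ℝ) : E f ξ = E (ROT_T c e f) (ROT_P c e ξ) := by
  unfold E
  rw [← (ROT_mp he).integral_comp (ROT_emb he) (fun x => u ((ROT_P c e ξ).1 * x.1 +
    ((ROT_P c e ξ).2.1 * x.2 + (ROT_P c e ξ).2.2 * (x.1 ^ 2 + x.2 ^ 2))) * ROT_T c e f x)]
  refine integral_congr_ae (Eventually.of_forall fun x => ?_)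
  simp only
  unfold ROT_T
  rw [ROT_inv he, ← mul_assoc, ← Pool.Agent.Restr.u_add]
  congr 2
  have h1 := ROT_nq he x
  have h2 := ROT_dot he (ξ.1, ξ.2.1) x
  have h3 : (ROT_O e x).1 ^ 2 + (ROT_O e x).2 ^ 2 = nq (ROT_O e x) := rfl
  have h4 : x.1 ^ 2 + x.2 ^ 2 = nq x := rfl
  unfold ROT_P
  simp only at h2 ⊢
  rw [h3, h1, h4]
  linarith

theorem ROT_Pcont (c : ℝ) (e : ℝ × ℝ) : Continuous (ROT_P c e) := by
  unfold ROT_P ROT_O
  fun_prop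

theorem ROT_Pemb {c : ℝ} {e : ℝ × ℝ} (he : e.1 ^ 2 + e.2 ^ 2 = 1) :
    MeasurableEmbedding (ROT_P c e) := by
  refine (ROT_Pcont c e).measurableEmbedding (fun x y hxy => ?_)
  have h1 : ROT_O e (x.1, x.2.1) = ROT_O e (y.1, y.2.1) := by
    unfold ROT_P at hxy
    simp only [Prod.mk.injEq] at hxy
    exact Prod.ext hxy.1 hxy.2.1
  have h2 : x.2.2 = y.2.2 := by
    unfold ROT_P at hxy
    simp only [Prod.mk.injEq] at hxy
    linarith [hxy.2.2]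
  have h3 : ((x.1, x.2.1) : ℝ × ℝ) = (y.1, y.2.1) := by
    rw [← ROT_inv he (x.1, x.2.1), h1, ROT_inv he]
  simp only [Prod.mk.injEq] at h3
  exact Prod.ext h3.1 (Prod.ext h3.2 h2)

theorem ROT_Pmp {c : ℝ} {e : ℝ × ℝ} (he : e.1 ^ 2 + e.2 ^ 2 = 1) :
    MeasurePreserving (ROT_P c e) (volume : Measure (ℝ × ℝ × ℝ)) volume := by
  have h1 : MeasurePreserving (Prod.map (ROT_O e) (fun t : ℝ => t - c))
      ((volume : Measure (ℝ × ℝ)).prod (volume : Measure ℝ))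
      ((volume : Measure (ℝ × ℝ)).prod (volume : Measure ℝ)) :=
    (ROT_mp he).prod (measurePreserving_sub_right volume c)
  have h2 := volume_preserving_prodAssoc (α₁ := ℝ) (β₁ := ℝ) (γ₁ := ℝ)
  have h3 := (h2.comp h1).comp (h2.symm MeasurableEquiv.prodAssoc)
  exact h3

theorem ROT_lp {c : ℝ} {e : ℝ × ℝ} (he : e.1 ^ 2 + e.2 ^ 2 = 1) (F : ℝ × ℝ × ℝ → ℂ)
    (p : ℝ≥0∞) : eLpNorm (fun ξ => F (ROT_P c e ξ)) p volume = eLpNorm F p volume := by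
  have h1 := (ROT_Pemb (c := c) he).eLpNorm_map_measure (g := F) (p := p)
    (μ := (volume : Measure (ℝ × ℝ × ℝ)))
  rw [(ROT_Pmp (c := c) he).map_eq] at h1
  exact h1.symm

theorem ROT_lp2 {c : ℝ} {e : ℝ × ℝ} (he : e.1 ^ 2 + e.2 ^ 2 = 1) (f : ℝ × ℝ → ℂ)
    (p : ℝ≥0∞) : eLpNorm (ROT_T c e f) p volume = eLpNorm f p volume := by
  have h1 := (ROT_emb he).eLpNorm_map_measure (g := f) (p := p)
    (μ := (volume : Measure (ℝ × ℝ)))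
  rw [(ROT_mp he).map_eq] at h1
  rw [h1]
  refine eLpNorm_congr_norm_ae (Eventually.of_forall fun x => ?_)
  unfold ROT_T
  rw [norm_mul, Pool.Agent.Restr.norm_u, one_mul]
  rfl

theorem ROT_meas {c : ℝ} {e : ℝ × ℝ} {f : ℝ × ℝ → ℂ} (hf : Measurable f) :
    Measurable (ROT_T c e f) := by
  unfold ROT_T nq
  exact (Pool.Agent.Restr.measurable_u.comp (by fun_prop)).mul
    (hf.comp (ROT_cont e).measurable)

theorem ROT_QQ {x : ℝ × ℝ} (hx : x ∉ QQ) : 1 / 4 < x.1 ^ 2 + x.2 ^ 2 := by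
  by_contra hcon
  push Not at hcon
  apply hx
  have hb : ∀ a b : ℝ, a ^ 2 + b ^ 2 ≤ 1 / 4 → -(1 / 2) ≤ a ∧ a ≤ 1 / 2 := by
    intro a b hab
    have ha : a ^ 2 ≤ (1 / 2) ^ 2 := by nlinarith [sq_nonneg b]
    exact abs_le.1 (abs_le_of_sq_le_sq ha (by norm_num))
  have h1 := hb x.1 x.2 hcon
  have h2 := hb x.2 x.1 (by linarith)
  unfold QQ
  exact ⟨⟨h1.1, h1.2⟩, ⟨h2.1, h2.2⟩⟩

theorem ROT_supp {e : ℝ × ℝ} (he : e.1 ^ 2 + e.2 ^ 2 = 1) {f : ℝ × ℝ → ℂ}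
    (hs : ∀ x : ℝ × ℝ, 1 / 4 < x.1 ^ 2 + x.2 ^ 2 → f x = 0) (x : ℝ × ℝ) (hx : x ∉ QQ) :
    f (ROT_O e x) = 0 := by
  apply hs
  have h1 : (ROT_O e x).1 ^ 2 + (ROT_O e x).2 ^ 2 = x.1 ^ 2 + x.2 ^ 2 := ROT_nq he x
  rw [h1]
  exact ROT_QQ hx

theorem ROT_sq {c : ℝ} {e : ℝ × ℝ} (he : e.1 ^ 2 + e.2 ^ 2 = 1) {f : ℝ × ℝ → ℂ}
    (hf : InD f) : Sq (ROT_T c e f) := by
  refine ⟨ROT_meas hf.1, fun x hx => ?_⟩
  unfold ROT_T
  rw [ROT_supp he hf.2 x hx, mul_zero]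

theorem ROT_wi {e : ℝ × ℝ} (he : e.1 ^ 2 + e.2 ^ 2 = 1) {χ : ℝ × ℝ → ℂ} {K : ℝ≥0}
    (hχ : Wi K χ) : Wi K (fun x => χ (ROT_O e x)) := by
  obtain ⟨κ, h1, h2, h3⟩ := hχ
  refine ⟨fun w => κ (ROT_O e w), ?_, ?_, fun x => ?_⟩
  · exact ((ROT_mp he).integrable_comp_emb (ROT_emb he)).2 h1
  · rw [(ROT_mp he).lintegral_comp_emb (ROT_emb he) (fun w => ‖κ w‖ₑ)]
    exact h2
  · have h4 := h3 (ROT_O e x)
    rw [← (ROT_mp he).integral_comp (ROT_emb he)] at h4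
    refine h4.trans (integral_congr_ae (Eventually.of_forall fun w => ?_))
    simp only
    rw [ROT_dot he]

theorem ROT_gfun {c : ℝ} {e : ℝ × ℝ} (he : e.1 ^ 2 + e.2 ^ 2 = 1) (h : ℝ) (ψ : ℤ → ℝ)
    (s : Finset ℤ) (a : ℤ → ℂ) (χ : ℝ × ℝ → ℂ) :
    ROT_T c e (gfun c e h ψ s a χ) = fun x => χ (ROT_O e x) * Gs h ψ s a x := by
  funext x
  have h1 : gfun c e h ψ s a χ (ROT_O e x) = u (-(c * nq (ROT_O e x))) *
      (χ (ROT_O e x) * Gs h ψ s a (ROT_O e (ROT_O e x))) := rfl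
  unfold ROT_T
  rw [h1, ROT_inv he, ROT_nq he, ← mul_assoc, ← Pool.Agent.Restr.u_add, add_neg_cancel,
    Pool.Agent.Restr.u_zero, one_mul]

theorem p_ROT (h1 : T_ASM) : T_ROT := by
  intro q hq hq4
  obtain ⟨C, hC⟩ := h1 q hq hq4
  refine ⟨C, fun m h ψ s a χ K e c hm hh hA hχ hs he => ?_⟩
  have hQ : ∀ x, x ∉ QQ → χ (ROT_O e x) = 0 := fun x hx => ROT_supp he hs x hx
  have key := hC m h ψ s a (fun x => χ (ROT_O e x)) K hm hh hA (ROT_wi he hχ) hQ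
  have e2 : ∀ (f : ℝ × ℝ → ℂ) (p : ℝ≥0∞),
      eLpNorm (fun ξ => E f ξ * E (gfun c e h ψ s a χ) ξ) p volume =
      eLpNorm (fun η => E (ROT_T c e f) η *
        E (fun x => χ (ROT_O e x) * Gs h ψ s a x) η) p volume := by
    intro f p
    rw [← ROT_lp (c := c) he (fun η => E (ROT_T c e f) η *
        E (fun x => χ (ROT_O e x) * Gs h ψ s a x) η) p]
    congr 1
    funext ξ
    rw [ROT_E (c := c) he f ξ, ROT_E (c := c) he (gfun c e h ψ s a χ) ξ, ROT_gfun he]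
  have e3 : ∀ (f g : ℝ × ℝ → ℂ) (p : ℝ≥0∞),
      eLpNorm (fun ξ => E f ξ * E g ξ * E (gfun c e h ψ s a χ) ξ) p volume =
      eLpNorm (fun η => E (ROT_T c e f) η * E (ROT_T c e g) η *
        E (fun x => χ (ROT_O e x) * Gs h ψ s a x) η) p volume := by
    intro f g p
    rw [← ROT_lp (c := c) he (fun η => E (ROT_T c e f) η * E (ROT_T c e g) η *
        E (fun x => χ (ROT_O e x) * Gs h ψ s a x) η) p]
    congr 1
    funext ξ
    rw [ROT_E (c := c) he f ξ, ROT_E (c := c) he g ξ,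
      ROT_E (c := c) he (gfun c e h ψ s a χ) ξ, ROT_gfun he]
  refine ⟨fun hB f hf => ?_, fun hl f hf hf1 => ?_⟩
  · obtain ⟨k1, k2⟩ := key.1 hB (ROT_T c e f) (ROT_sq he hf)
    rw [ROT_lp2 he] at k1
    refine ⟨?_, fun g hg => ?_⟩
    · rw [e2]
      exact k1
    · have k3 := k2 (ROT_T c e g) (ROT_sq he hg)
      rw [ROT_lp2 he, ROT_lp2 he] at k3
      rw [e3]
      exact k3
  · have hb : ∀ x, ‖ROT_T c e f x‖ ≤ 1 := by
      intro x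
      unfold ROT_T
      rw [norm_mul, Pool.Agent.Restr.norm_u, one_mul]
      exact hf1 _
    obtain ⟨k1, k2⟩ := key.2 hl (ROT_T c e f) (ROT_sq he hf) hb
    refine ⟨?_, fun g hg => ?_⟩
    · rw [e2]
      exact k1
    · have k3 := k2 (ROT_T c e g) (ROT_sq he hg)
      rw [ROT_lp2 he] at k3
      rw [e3]
      exact k3

end Wey
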