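import Pool.Agent.Wey.Targets2
import Pool.Agent.Wey.ROT

/-!
# MP_5ab805_an, target ROW: the weighted theorem in every frame, with a chirp
-/

set_option autoImplicit false

namespace Wey

open MeasureTheory Set Filter
open scoped ENNReal NNReal Topology
open Pool.Agent.Restr (u E QQ)
open TriL (Sq n2)

namespace ROW_

theorem nb {c : ℝ} {e : ℝ × ℝ} (he : e.1 ^ 2 + e.2 ^ 2 = 1) (h : ℝ) (ψ : ℤ → ℝ)
    (s : Finset ℤ) (a : ℤ → ℂ) (f : ℝ × ℝ → ℂ) (N : ℝ≥0∞)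
    (hf : ∀ v : ℝ, ∫⁻ x : ℝ × ℝ, ‖f x‖ₑ ^ 2 *
      ‖Gs h ψ s a (x.1 * e.1 + x.2 * e.2 + v, x.1 * e.2 - x.2 * e.1)‖ₑ ^ 2 ≤ N) :
    NB h ψ s a (ROT_T c e f) N := by
  intro v
  rw [← (ROT_mp he).lintegral_comp_emb (ROT_emb he) (fun x : ℝ × ℝ =>
    ‖ROT_T c e f x‖ₑ ^ 2 * ‖Gs h ψ s a (x.1 + v, x.2)‖ₑ ^ 2)]
  refine le_trans (le_of_eq (lintegral_congr fun x => ?_)) (hf v)
  have h1 : ‖ROT_T c e f (ROT_O e x)‖ₑ = ‖f x‖ₑ := by
    unfold ROT_T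
    rw [ROT_inv he, enorm_mul]
    have h2 : ‖u (c * nq (ROT_O e x))‖ₑ = 1 := by
      rw [← ofReal_norm, Pool.Agent.Restr.norm_u, ENNReal.ofReal_one]
    rw [h2, one_mul]
  rw [h1]
  rfl

end ROW_

open ROW_ in
theorem p_ROW (h1 : T_ASW) : T_ROW := by
  intro q hq hq4
  obtain ⟨C, hC⟩ := h1 q hq hq4
  refine ⟨C, fun m h ψ s a χ K e c hm hh hA hχ hs he f B hf hB => ?_⟩
  have hQ : ∀ x, x ∉ QQ → χ (ROT_O e x) = 0 := fun x hx => ROT_supp he hs x hx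
  have e2 : ∀ (f : ℝ × ℝ → ℂ) (p : ℝ≥0∞),
      eLpNorm (fun ξ => E f ξ * E (gfun c e h ψ s a χ) ξ) p volume =
      eLpNorm (fun η => E (ROT_T c e f) η *
        E (fun x => χ (ROT_O e x) * Gs h ψ s a x) η) p volume := by
    intro f p
    rw [← ROT_lp (c := c) he (fun η => E (ROT_T c e f) η *
        E (fun x => χ (ROT_O e x) * Gs h ψ s a x) η) p]
    congr 1
    funext ξ
    rw [ROT_E (c := c) he f ξ, ROT_E (c := c) he (gfun c e h ψ s a χ) ξ, ROT_gfun he]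
  have e3 : ∀ (f g : ℝ × ℝ → ℂ) (p : ℝ≥0∞),
      eLpNorm (fun ξ => E f ξ * E g ξ * E (gfun c e h ψ s a χ) ξ) p volume =
      eLpNorm (fun η => E (ROT_T c e f) η * E (ROT_T c e g) η *
        E (fun x => χ (ROT_O e x) * Gs h ψ s a x) η) p volume := by
    intro f g p
    rw [← ROT_lp (c := c) he (fun η => E (ROT_T c e f) η * E (ROT_T c e g) η *
        E (fun x => χ (ROT_O e x) * Gs h ψ s a x) η) p]
    congr 1
    funext ξ
    rw [ROT_E (c := c) he f ξ, ROT_E (c := c) he g ξ,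
      ROT_E (c := c) he (gfun c e h ψ s a χ) ξ, ROT_gfun he]
  obtain ⟨k1, k2⟩ := hC m h ψ s a (fun x => χ (ROT_O e x)) K hm hh hA (ROT_wi he hχ) hQ
    (ROT_T c e f) B (ROT_sq he hf) (nb he h ψ s a f (B ^ 2) hB)
  refine ⟨?_, fun g hg => ?_⟩
  · rw [e2]
    exact k1
  · have k3 := k2 (ROT_T c e g) (ROT_sq he hg)
    rw [ROT_lp2 he] at k3
    rw [e3]
    exact k3

end Wey
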