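import Pool.Agent.Wey.Targets

/-!
# MP_5ab805_an, block SQA: the square function of `L²` times bounded
-/

set_option autoImplicit false

namespace Wey

open MeasureTheory Set Filter
open scoped ENNReal NNReal Topology
open Pool.Agent.Restr (u E QQ norm_u enorm_u u_add measurable_u)
open TriL (Sq n2)

theorem SQA_pt (h1 : T_BES) {h : ℝ} {ψ : ℤ → ℝ} {s : Finset ℤ} {a : ℤ → ℂ} (hh : 1 ≤ h)
    (hB : Bd h ψ s a) (i : ℕ) (x : ℝ × ℝ) (hx : |x.2| ≤ 1 / 2) :
    ∑' j : ℤ, ‖blk s (fun n => a n * u (-(h * n * x.1 + ψ n * x.2))) i j‖ₑ ^ 2 ≤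
      ENNReal.ofReal ((i + 3) ^ 2) := by
  refine h1 s _ i fun v => ?_
  have h2 := hB (x.1 + v / h, x.2) hx
  unfold Gs at h2
  have h3 : ∑ n ∈ s, a n * u (-(h * n * x.1 + ψ n * x.2)) * u (-(n * v)) =
      ∑ n ∈ s, a n * u (-(h * n * (x.1 + v / h) + ψ n * x.2)) := by
    refine Finset.sum_congr rfl fun n _ => ?_
    rw [mul_assoc, ← u_add]
    congr 2
    have h0 : h ≠ 0 := by linarith
    field_simp
    ring
  rw [h3]
  exact h2

theorem SQA_meas (h : ℝ) (ψ : ℤ → ℝ) (s : Finset ℤ) (a : ℤ → ℂ) (i : ℕ) (j : ℤ) :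
    Measurable fun x : ℝ × ℝ =>
      ‖blk s (fun n => a n * u (-(h * n * x.1 + ψ n * x.2))) i j‖ₑ ^ 2 := by
  have h1 : Measurable fun x : ℝ × ℝ =>
      blk s (fun n => a n * u (-(h * n * x.1 + ψ n * x.2))) i j := by
    unfold blk
    refine Finset.measurable_fun_sum _ fun n _ => ?_
    exact measurable_const.mul (measurable_u.comp (by fun_prop))
  exact h1.enorm.pow_const 2

theorem p_SQA (h1 : T_BES) : T_SQA := by
  intro h ψ s a f hh hf hB
  refine ⟨fun i => ?_, fun n hn => ?_⟩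
  · have hm : ∀ j : ℤ, AEMeasurable (fun x : ℝ × ℝ => ‖f x‖ₑ ^ 2 *
        ‖blk s (fun n => a n * u (-(h * n * x.1 + ψ n * x.2))) i j‖ₑ ^ 2) volume := fun j =>
      ((hf.1.enorm.pow_const 2).mul (SQA_meas h ψ s a i j)).aemeasurable
    rw [← lintegral_tsum hm]
    calc ∫⁻ x, ∑' j : ℤ, ‖f x‖ₑ ^ 2 *
          ‖blk s (fun n => a n * u (-(h * n * x.1 + ψ n * x.2))) i j‖ₑ ^ 2
        ≤ ∫⁻ x, ENNReal.ofReal ((i + 3) ^ 2) * ‖f x‖ₑ ^ 2 := by
          refine lintegral_mono fun x => ?_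
          rw [ENNReal.tsum_mul_left, mul_comm]
          by_cases hx : x ∈ QQ
          · refine mul_le_mul_left (SQA_pt h1 hh hB i x ?_) _
            exact abs_le.2 hx.2
          · rw [hf.2 x hx]
            simp
      _ = ENNReal.ofReal ((i + 3) ^ 2) * n2 f := by
          rw [lintegral_const_mul _ (hf.1.enorm.pow_const 2)]
          rfl
      _ ≤ ENNReal.ofReal ((i + 3) ^ 2) * (9 * n2 f) := by
          refine mul_le_mul_right ?_ _
          calc n2 f = 1 * n2 f := (one_mul _).symm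
            _ ≤ 9 * n2 f := mul_le_mul_left (by norm_num) _
  · refine mul_le_mul_left ?_ _
    have h2 := SQA_pt h1 hh hB 0 (0, 0) (by simp)
    have h3 : blk s (fun n => a n * u (-(h * n * ((0 : ℝ), (0 : ℝ)).1 +
        ψ n * ((0 : ℝ), (0 : ℝ)).2))) 0 n = a n * u 0 := by
      unfold blk
      have h4 : s.filter (fun k : ℤ => k / 2 ^ 0 = n) = {n} := by
        ext k
        simp only [Finset.mem_filter, pow_zero, Int.ediv_one, Finset.mem_singleton]
        constructor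
        · rintro ⟨-, h5⟩
          exact h5
        · rintro rfl
          exact ⟨hn, rfl⟩
      rw [h4, Finset.sum_singleton]
      simp
    calc ‖a n‖ₑ ^ 2 = ‖blk s (fun n => a n * u (-(h * n * ((0 : ℝ), (0 : ℝ)).1 +
          ψ n * ((0 : ℝ), (0 : ℝ)).2))) 0 n‖ₑ ^ 2 := by
          rw [h3, enorm_mul, enorm_u, mul_one]
      _ ≤ ∑' j : ℤ, ‖blk s (fun n => a n * u (-(h * n * ((0 : ℝ), (0 : ℝ)).1 +
          ψ n * ((0 : ℝ), (0 : ℝ)).2))) 0 j‖ₑ ^ 2 := ENNReal.le_tsum n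
      _ ≤ ENNReal.ofReal (((0 : ℕ) + 3) ^ 2) := h2
      _ = 9 := by
          norm_num

end Wey
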