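import Pool.Agent.Wey.Targets

/-!
# SQB: bounded functions times square summable exponential sums
-/

set_option autoImplicit false

namespace Wey

open MeasureTheory Set Filter
open scoped ENNReal NNReal Topology
open Pool.Agent.Restr (u E QQ norm_u enorm_u u_add u_zero conj_u measurable_u continuous_u)
open TriL (Sq n2)

lemma SQB_orth (h : ℝ) (hh : 0 < h) (N : ℕ) (k : ℤ) (hk : k ≠ 0) (α : ℝ) :
    ∫ x in α..(α + N * (2 * Real.pi / h)), u (-(h * k * x)) = 0 := by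
  have hc : (Complex.I * (h * k) : ℂ) ≠ 0 := by
    apply mul_ne_zero Complex.I_ne_zero
    apply mul_ne_zero
    · exact_mod_cast hh.ne'
    · exact_mod_cast hk
  have h1 : ∀ x : ℝ, u (-(h * k * x)) = Complex.exp ((Complex.I * (h * k)) * x) := by
    intro x
    unfold u
    congr 1
    push_cast
    ring
  simp only [h1]
  rw [integral_exp_mul_complex hc]
  have h2 : Complex.exp (Complex.I * (h * k) * ((α + N * (2 * Real.pi / h) : ℝ) : ℂ)) =
      Complex.exp (Complex.I * (h * k) * (α : ℂ)) := by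
    rw [Complex.exp_eq_exp_iff_exists_int]
    refine ⟨k * N, ?_⟩
    push_cast
    have : (h : ℂ) ≠ 0 := by exact_mod_cast hh.ne'
    field_simp
  rw [h2, sub_self, zero_div]

lemma SQB_per (h : ℝ) (hh : 0 < h) (N : ℕ) (s : Finset ℤ) (b : ℤ → ℂ) (α : ℝ) :
    ∫ x in α..(α + N * (2 * Real.pi / h)), ‖∑ n ∈ s, b n * u (-(h * n * x))‖ ^ 2 =
      N * (2 * Real.pi / h) * ∑ n ∈ s, ‖b n‖ ^ 2 := by
  apply Complex.ofReal_injective
  rw [← intervalIntegral.integral_ofReal]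
  have h1 : ∀ x : ℝ, ((‖∑ n ∈ s, b n * u (-(h * n * x))‖ ^ 2 : ℝ) : ℂ) =
      ∑ n ∈ s, ∑ m ∈ s, (b n * (starRingEnd ℂ) (b m)) * u (-(h * ((n - m : ℤ) : ℝ) * x)) := by
    intro x
    rw [Complex.ofReal_pow, ← Complex.mul_conj', map_sum, Finset.sum_mul_sum]
    refine Finset.sum_congr rfl fun n _ => Finset.sum_congr rfl fun m _ => ?_
    rw [map_mul, conj_u]
    have h2 : u (-(h * ((n - m : ℤ) : ℝ) * x)) = u (-(h * n * x)) * u (- -(h * m * x)) := by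
      rw [← u_add]
      congr 1
      push_cast
      ring
    rw [h2]
    ring
  simp only [h1]
  have hcont : ∀ k : ℤ, Continuous fun x : ℝ => u (-(h * k * x)) := by
    intro k
    exact continuous_u.comp (by fun_prop)
  rw [intervalIntegral.integral_finsetSum]
  · have h3 : ∀ n ∈ s, (∫ x in α..(α + N * (2 * Real.pi / h)),
        ∑ m ∈ s, (b n * (starRingEnd ℂ) (b m)) * u (-(h * ((n - m : ℤ) : ℝ) * x))) =
        (N * (2 * Real.pi / h) : ℝ) * ((‖b n‖ ^ 2 : ℝ) : ℂ) := by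
      intro n hn
      rw [intervalIntegral.integral_finsetSum]
      · rw [Finset.sum_eq_single n]
        · simp only [sub_self, Int.cast_zero, mul_zero, zero_mul, neg_zero, u_zero, mul_one]
          rw [intervalIntegral.integral_const, add_sub_cancel_left, Complex.real_smul,
            Complex.mul_conj', Complex.ofReal_pow]
        · intro m _ hm
          rw [intervalIntegral.integral_const_mul,
            SQB_orth h hh N (n - m) (sub_ne_zero.2 (Ne.symm hm)) α, mul_zero]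
        · intro hn'; exact absurd hn hn'
      · intro m _
        exact ((hcont _).const_mul _ |>.intervalIntegrable _ _)
    rw [Finset.sum_congr rfl h3, ← Finset.mul_sum]
    push_cast
    ring
  · intro n _
    apply Continuous.intervalIntegrable
    refine continuous_finsetSum _ fun m _ => ?_
    exact (hcont _).const_mul _

lemma SQB_len (h : ℝ) (hh : 1 ≤ h) (s : Finset ℤ) (b : ℤ → ℂ) :
    ∫⁻ x in Icc (-(1 / 2) : ℝ) (1 / 2), ‖∑ n ∈ s, b n * u (-(h * n * x))‖ₑ ^ 2 ≤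
      8 * ∑ n ∈ s, ‖b n‖ₑ ^ 2 := by
  have hh0 : 0 < h := by linarith
  have hpi := Real.pi_pos
  set N : ℕ := ⌈h / (2 * Real.pi)⌉₊ with hN
  set L : ℝ := N * (2 * Real.pi / h) with hL
  have hN1 : h / (2 * Real.pi) ≤ N := Nat.le_ceil _
  have hN2 : (N : ℝ) < h / (2 * Real.pi) + 1 := Nat.ceil_lt_add_one (by positivity)
  have hp : 0 < 2 * Real.pi / h := by positivity
  have hL1 : 1 ≤ L := by
    have : h / (2 * Real.pi) * (2 * Real.pi / h) = 1 := by field_simp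
    rw [hL, ← this]
    exact mul_le_mul_of_nonneg_right hN1 hp.le
  have hL2 : L ≤ 8 := by
    have h1 : L ≤ (h / (2 * Real.pi) + 1) * (2 * Real.pi / h) :=
      mul_le_mul_of_nonneg_right hN2.le hp.le
    have h2 : (h / (2 * Real.pi) + 1) * (2 * Real.pi / h) = 1 + 2 * Real.pi / h := by
      field_simp
    have h3 : 2 * Real.pi / h ≤ 2 * Real.pi := div_le_self (by positivity) hh
    have h4 : Real.pi < 3.15 := Real.pi_lt_d2
    linarith
  have hcont : Continuous fun x : ℝ => ∑ n ∈ s, b n * u (-(h * n * x)) := by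
    refine continuous_finsetSum _ fun m _ => ?_
    exact Continuous.const_mul (continuous_u.comp (by fun_prop)) _
  have h1 : ∫⁻ x in Icc (-(1 / 2) : ℝ) (1 / 2), ‖∑ n ∈ s, b n * u (-(h * n * x))‖ₑ ^ 2 ≤
      ∫⁻ x in Icc (-(1 / 2) : ℝ) (-(1 / 2) + L), ‖∑ n ∈ s, b n * u (-(h * n * x))‖ₑ ^ 2 := by
    apply lintegral_mono_set
    exact Icc_subset_Icc le_rfl (by linarith)
  have h2 : ∫⁻ x in Icc (-(1 / 2) : ℝ) (-(1 / 2) + L), ‖∑ n ∈ s, b n * u (-(h * n * x))‖ₑ ^ 2 =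
      ENNReal.ofReal (L * ∑ n ∈ s, ‖b n‖ ^ 2) := by
    have h3 := SQB_per h hh0 N s b (-(1 / 2))
    rw [← hL, intervalIntegral.integral_of_le (by linarith)] at h3
    rw [← h3, ofReal_integral_eq_lintegral_ofReal]
    · rw [restrict_Ioc_eq_restrict_Icc]
      refine lintegral_congr fun x => ?_
      rw [ENNReal.ofReal_pow (norm_nonneg _), ofReal_norm]
    · exact ((hcont.norm.pow 2).integrableOn_Icc).mono_set Ioc_subset_Icc_self
    · exact Eventually.of_forall fun x => by positivity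
  rw [h2] at h1
  refine h1.trans ?_
  have h4 : ∑ n ∈ s, ‖b n‖ₑ ^ 2 = ENNReal.ofReal (∑ n ∈ s, ‖b n‖ ^ 2) := by
    rw [ENNReal.ofReal_sum_of_nonneg fun _ _ => by positivity]
    refine Finset.sum_congr rfl fun n _ => ?_
    rw [ENNReal.ofReal_pow (norm_nonneg _), ofReal_norm]
  rw [h4]
  have h5 : (8 : ℝ≥0∞) = ENNReal.ofReal 8 := by simp
  rw [h5, ← ENNReal.ofReal_mul (by norm_num)]
  apply ENNReal.ofReal_le_ofReal
  exact mul_le_mul_of_nonneg_right hL2 (Finset.sum_nonneg fun _ _ => by positivity)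

lemma SQB_two (h : ℝ) (hh : 1 ≤ h) (ψ : ℤ → ℝ) (s : Finset ℤ) (a : ℤ → ℂ) :
    ∫⁻ x in QQ, ‖∑ n ∈ s, a n * u (-(h * n * x.1 + ψ n * x.2))‖ₑ ^ 2 ≤
      8 * ∑ n ∈ s, ‖a n‖ₑ ^ 2 := by
  have hcont : Continuous fun x : ℝ × ℝ => ∑ n ∈ s, a n * u (-(h * n * x.1 + ψ n * x.2)) := by
    refine continuous_finsetSum _ fun m _ => ?_
    exact Continuous.const_mul (continuous_u.comp (by fun_prop)) _
  have hQ : QQ = Icc (-(1 / 2) : ℝ) (1 / 2) ×ˢ Icc (-(1 / 2) : ℝ) (1 / 2) := rfl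
  rw [hQ, Measure.volume_eq_prod, ← Measure.prod_restrict]
  rw [lintegral_prod_symm _ (hcont.measurable.enorm.pow_const 2).aemeasurable]
  have h1 : ∀ y : ℝ, ∫⁻ x in Icc (-(1 / 2) : ℝ) (1 / 2),
      ‖∑ n ∈ s, a n * u (-(h * n * (x, y).1 + ψ n * (x, y).2))‖ₑ ^ 2 ≤
      8 * ∑ n ∈ s, ‖a n‖ₑ ^ 2 := by
    intro y
    have h2 := SQB_len h hh s (fun n => a n * u (-(ψ n * y)))
    have h3 : ∀ n, ‖a n * u (-(ψ n * y))‖ₑ = ‖a n‖ₑ := by
      intro n
      rw [enorm_mul, enorm_u, mul_one]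
    simp only [h3] at h2
    refine le_trans (le_of_eq ?_) h2
    refine lintegral_congr fun x => ?_
    congr 2
    refine Finset.sum_congr rfl fun n _ => ?_
    rw [mul_assoc (a n), ← u_add]
    congr 2
    simp only
    ring
  calc ∫⁻ y in Icc (-(1 / 2) : ℝ) (1 / 2), ∫⁻ x in Icc (-(1 / 2) : ℝ) (1 / 2),
        ‖∑ n ∈ s, a n * u (-(h * n * (x, y).1 + ψ n * (x, y).2))‖ₑ ^ 2
      ≤ ∫⁻ y in Icc (-(1 / 2) : ℝ) (1 / 2), 8 * ∑ n ∈ s, ‖a n‖ₑ ^ 2 :=
        lintegral_mono fun y => h1 y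
    _ = 8 * ∑ n ∈ s, ‖a n‖ₑ ^ 2 := by
        rw [setLIntegral_const, Real.volume_Icc]
        norm_num

theorem p_SQB : T_SQB := by
  intro h ψ s a f M hh hf hM
  have hmQ : MeasurableSet QQ := measurableSet_Icc.prod measurableSet_Icc
  have hfM : ∀ x, ‖f x‖ₑ ≤ (M : ℝ≥0∞) := by
    intro x
    rw [← ofReal_norm]
    calc ENNReal.ofReal ‖f x‖ ≤ ENNReal.ofReal M := ENNReal.ofReal_le_ofReal (hM x)
      _ = M := ENNReal.ofReal_coe_nnreal
  have hloc : ∀ g : ℝ × ℝ → ℝ≥0∞, ∫⁻ x, ‖f x‖ₑ ^ 2 * g x ≤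
      (M : ℝ≥0∞) ^ 2 * ∫⁻ x in QQ, g x := by
    intro g
    have hle : ∀ x, ‖f x‖ₑ ^ 2 * g x ≤ QQ.indicator (fun x => (M : ℝ≥0∞) ^ 2 * g x) x := by
      intro x
      by_cases hx : x ∈ QQ
      · rw [indicator_of_mem hx]
        gcongr
        exact hfM x
      · rw [hf.2 x hx]
        simp
    refine (lintegral_mono hle).trans ?_
    rw [lintegral_indicator hmQ, lintegral_const_mul' _ _ (by simp)]
  refine ⟨⟨fun i => ?_, fun n hn => ?_⟩, SQB_two h hh ψ s a⟩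
  · have h1 : ∀ j : ℤ, ∫⁻ x, ‖f x‖ₑ ^ 2 *
        ‖blk s (fun n => a n * u (-(h * n * x.1 + ψ n * x.2))) i j‖ₑ ^ 2 ≤
        (M : ℝ≥0∞) ^ 2 * (8 * ∑ n ∈ s, if n / 2 ^ i = j then ‖a n‖ₑ ^ 2 else 0) := by
      intro j
      refine (hloc _).trans ?_
      gcongr
      unfold blk
      refine (SQB_two h hh ψ _ a).trans ?_
      rw [Finset.sum_filter]
    refine (ENNReal.tsum_le_tsum h1).trans ?_
    rw [ENNReal.tsum_mul_left, ENNReal.tsum_mul_left]
    rw [Summable.tsum_finsetSum (fun _ _ => ENNReal.summable)]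
    have h2 : ∀ n ∈ s, (∑' j : ℤ, if n / 2 ^ i = j then ‖a n‖ₑ ^ 2 else 0) = ‖a n‖ₑ ^ 2 := by
      intro n _
      rw [tsum_eq_single (n / 2 ^ i)]
      · simp
      · intro j hj
        rw [if_neg (Ne.symm hj)]
    rw [Finset.sum_congr rfl h2]
    have h3 : (1 : ℝ≥0∞) ≤ ENNReal.ofReal (((i : ℝ) + 3) ^ 2) := by
      rw [← ENNReal.ofReal_one]
      apply ENNReal.ofReal_le_ofReal
      have : (0 : ℝ) ≤ i := by positivity
      nlinarith
    calc (M : ℝ≥0∞) ^ 2 * (8 * ∑ n ∈ s, ‖a n‖ₑ ^ 2)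
        = 1 * (8 * (M : ℝ≥0∞) ^ 2 * ∑ n ∈ s, ‖a n‖ₑ ^ 2) := by ring
      _ ≤ _ := mul_le_mul_left h3 _
  · have h1 : n2 f ≤ (M : ℝ≥0∞) ^ 2 := by
      have h2 := hloc (fun _ => 1)
      simp only [mul_one] at h2
      refine h2.trans ?_
      have h3 : volume QQ = 1 := by
        have hQ : QQ = Icc (-(1 / 2) : ℝ) (1 / 2) ×ˢ Icc (-(1 / 2) : ℝ) (1 / 2) := rfl
        rw [hQ, Measure.volume_eq_prod, Measure.prod_prod, Real.volume_Icc]
        norm_num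
      rw [setLIntegral_const, h3]
      simp
    have h2 : ‖a n‖ₑ ^ 2 ≤ ∑ n ∈ s, ‖a n‖ₑ ^ 2 :=
      Finset.single_le_sum (f := fun n => ‖a n‖ₑ ^ 2) (fun _ _ => zero_le) hn
    calc ‖a n‖ₑ ^ 2 * n2 f ≤ (∑ n ∈ s, ‖a n‖ₑ ^ 2) * (M : ℝ≥0∞) ^ 2 := by gcongr
      _ = 1 * ((M : ℝ≥0∞) ^ 2 * ∑ n ∈ s, ‖a n‖ₑ ^ 2) := by ring
      _ ≤ 8 * ((M : ℝ≥0∞) ^ 2 * ∑ n ∈ s, ‖a n‖ₑ ^ 2) := by
          gcongr
          norm_num
      _ = _ := by ring

end Wey
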