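import Pool.Agent.Wey.Targets2
import Pool.Agent.Wey.SQA
import Pool.Agent.Wey.BES

/-!
# MP_5ab805_an, block SQW: the square function in the weighted form (helper91)
-/

set_option autoImplicit false

namespace Wey

open MeasureTheory Set Filter
open scoped ENNReal NNReal Topology
open Pool.Agent.Restr (u E QQ norm_u enorm_u u_add measurable_u)
open TriL (Sq n2)

theorem SQW_shift {h : ℝ} (hh : 1 ≤ h) (ψ : ℤ → ℝ) (s : Finset ℤ) (a : ℤ → ℂ) (x : ℝ × ℝ)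
    (v : ℝ) : ∑ n ∈ s, a n * u (-(h * n * x.1 + ψ n * x.2)) * u (-(n * v)) =
      Gs h ψ s a (x.1 + v / h, x.2) := by
  unfold Gs
  refine Finset.sum_congr rfl fun n _ => ?_
  rw [mul_assoc, ← u_add]
  congr 2
  have h0 : h ≠ 0 := by linarith
  field_simp
  ring

theorem SQW_meas (h : ℝ) (ψ : ℤ → ℝ) (s : Finset ℤ) (a : ℤ → ℂ) (v : ℝ) :
    Measurable fun x : ℝ × ℝ => ‖Gs h ψ s a (x.1 + v, x.2)‖ₑ ^ 2 := by
  have h1 : Measurable fun x : ℝ × ℝ => Gs h ψ s a (x.1 + v, x.2) := by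
    unfold Gs
    refine Finset.measurable_fun_sum _ fun n _ => ?_
    exact measurable_const.mul (measurable_u.comp (by fun_prop))
  exact h1.enorm.pow_const 2

/-- averages over the sample points -/
theorem SQW_avg {h : ℝ} (hh : 1 ≤ h) (ψ : ℤ → ℝ) (s : Finset ℤ) (a : ℤ → ℂ) :
    ∃ N : ℕ, 0 < N ∧ ∀ x : ℝ × ℝ, ∑ w ∈ Finset.range N,
      ‖Gs h ψ s a (x.1 + (2 * Real.pi / N * w) / h, x.2)‖ₑ ^ 2 = N * ∑ n ∈ s, ‖a n‖ₑ ^ 2 := by
  obtain ⟨B, hB⟩ : ∃ B : ℕ, ∀ n ∈ s, |n| ≤ (B : ℤ) := by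
    refine ⟨∑ n ∈ s, n.natAbs, fun n hn => ?_⟩
    rw [Int.abs_eq_natAbs]
    exact_mod_cast Finset.single_le_sum (f := fun n : ℤ => n.natAbs) (fun _ _ => Nat.zero_le _) hn
  refine ⟨2 * B + 1, by omega, fun x => ?_⟩
  have h1 := BES_.par s s (fun n => n) (fun n => n)
    (fun n => a n * u (-(h * n * x.1 + ψ n * x.2)))
    (fun n => a n * u (-(h * n * x.1 + ψ n * x.2))) (2 * B + 1) (by omega) (by
      intro n hn k hk
      have h4 := abs_le.mp (hB n hn)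
      have h5 := abs_le.mp (hB k hk)
      push_cast
      rw [abs_lt]
      constructor <;> linarith)
  have h2 : ∑ n ∈ s, ∑ k ∈ s, (if n = k then (a n * u (-(h * n * x.1 + ψ n * x.2))) *
      (starRingEnd ℂ) (a k * u (-(h * k * x.1 + ψ k * x.2))) else 0) =
      ((∑ n ∈ s, ‖a n‖ ^ 2 : ℝ) : ℂ) := by
    push_cast
    refine Finset.sum_congr rfl fun n hn => ?_
    rw [Finset.sum_ite_eq, if_pos hn, Complex.mul_conj', norm_mul, norm_u, mul_one]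
  rw [h2] at h1
  have h3 : ∀ w : ℕ, (∑ n ∈ s, a n * u (-(h * n * x.1 + ψ n * x.2)) *
      BES_.ex (n * (2 * Real.pi / ((2 * B + 1 : ℕ) : ℝ) * w))) *
      (starRingEnd ℂ) (∑ n ∈ s, a n * u (-(h * n * x.1 + ψ n * x.2)) *
      BES_.ex (n * (2 * Real.pi / ((2 * B + 1 : ℕ) : ℝ) * w))) =
      ((‖Gs h ψ s a (x.1 + (2 * Real.pi / ((2 * B + 1 : ℕ) : ℝ) * w) / h, x.2)‖ ^ 2 : ℝ) : ℂ) := by
    intro w
    rw [Complex.mul_conj', ← SQW_shift hh ψ s a x]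
    push_cast
    rfl
  simp only [h3] at h1
  have h4 : ∑ w ∈ Finset.range (2 * B + 1),
      ‖Gs h ψ s a (x.1 + (2 * Real.pi / ((2 * B + 1 : ℕ) : ℝ) * w) / h, x.2)‖ ^ 2 =
      ((2 * B + 1 : ℕ) : ℝ) * ∑ n ∈ s, ‖a n‖ ^ 2 := by
    exact_mod_cast h1
  have e : ∀ z : ℂ, ‖z‖ₑ ^ 2 = ENNReal.ofReal (‖z‖ ^ 2) := fun z => by
    rw [← ofReal_norm, ENNReal.ofReal_pow (norm_nonneg _)]
  simp only [e]
  rw [← ENNReal.ofReal_sum_of_nonneg fun _ _ => sq_nonneg _, h4,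
    ENNReal.ofReal_mul (by positivity), ENNReal.ofReal_natCast,
    ENNReal.ofReal_sum_of_nonneg fun _ _ => sq_nonneg _]

theorem p_SQW (h1 : T_BEW) : T_SQW := by
  intro h ψ s a f N hh hf hN
  have hfm : Measurable fun x => ‖f x‖ₑ ^ 2 := hf.1.enorm.pow_const 2
  have h2 : n2 f * ∑ n ∈ s, ‖a n‖ₑ ^ 2 ≤ N := by
    obtain ⟨M, hM, hav⟩ := SQW_avg hh ψ s a
    have h3 : (M : ℝ≥0∞) * (n2 f * ∑ n ∈ s, ‖a n‖ₑ ^ 2) ≤ M * N := by
      calc (M : ℝ≥0∞) * (n2 f * ∑ n ∈ s, ‖a n‖ₑ ^ 2)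
          = ∫⁻ x, ‖f x‖ₑ ^ 2 * (M * ∑ n ∈ s, ‖a n‖ₑ ^ 2) := by
            rw [lintegral_mul_const _ hfm]
            unfold n2
            ring
        _ = ∫⁻ x, ∑ w ∈ Finset.range M, ‖f x‖ₑ ^ 2 *
            ‖Gs h ψ s a (x.1 + (2 * Real.pi / M * w) / h, x.2)‖ₑ ^ 2 := by
            refine lintegral_congr fun x => ?_
            rw [← hav x, Finset.mul_sum]
        _ = ∑ w ∈ Finset.range M, ∫⁻ x, ‖f x‖ₑ ^ 2 *
            ‖Gs h ψ s a (x.1 + (2 * Real.pi / M * w) / h, x.2)‖ₑ ^ 2 :=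
            lintegral_finsetSum _ fun w _ => hfm.mul (SQW_meas h ψ s a _)
        _ ≤ ∑ w ∈ Finset.range M, N := Finset.sum_le_sum fun w _ => hN _
        _ = M * N := by
            rw [Finset.sum_const, Finset.card_range, nsmul_eq_mul]
    exact (ENNReal.mul_le_mul_iff_right (by exact_mod_cast hM.ne') (by simp)).1 h3
  refine ⟨⟨fun i => ?_, fun n hn => ?_⟩, h2⟩
  · obtain ⟨K, v, w, hw0, hw, hA⟩ := h1 s i
    have hm : ∀ j : ℤ, AEMeasurable (fun x : ℝ × ℝ => ‖f x‖ₑ ^ 2 *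
        ‖blk s (fun n => a n * u (-(h * n * x.1 + ψ n * x.2))) i j‖ₑ ^ 2) volume := fun j =>
      (hfm.mul (SQA_meas h ψ s a i j)).aemeasurable
    rw [← lintegral_tsum hm]
    calc ∫⁻ x, ∑' j : ℤ, ‖f x‖ₑ ^ 2 *
          ‖blk s (fun n => a n * u (-(h * n * x.1 + ψ n * x.2))) i j‖ₑ ^ 2
        ≤ ∫⁻ x, ∑ k ∈ Finset.range K, ENNReal.ofReal (w k) * (‖f x‖ₑ ^ 2 *
            ‖Gs h ψ s a (x.1 + v k / h, x.2)‖ₑ ^ 2) := by
          refine lintegral_mono fun x => ?_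
          rw [ENNReal.tsum_mul_left]
          refine (mul_le_mul_right (hA _) _).trans (le_of_eq ?_)
          rw [Finset.mul_sum]
          refine Finset.sum_congr rfl fun k _ => ?_
          rw [SQW_shift hh ψ s a x]
          ring
      _ = ∑ k ∈ Finset.range K, ENNReal.ofReal (w k) * ∫⁻ x, ‖f x‖ₑ ^ 2 *
            ‖Gs h ψ s a (x.1 + v k / h, x.2)‖ₑ ^ 2 := by
          have hk : ∀ k : ℕ, Measurable fun x : ℝ × ℝ => ‖f x‖ₑ ^ 2 *
              ‖Gs h ψ s a (x.1 + v k / h, x.2)‖ₑ ^ 2 := fun k => hfm.mul (SQW_meas h ψ s a _)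
          rw [lintegral_finsetSum _ fun k _ => (hk k).const_mul _]
          refine Finset.sum_congr rfl fun k _ => ?_
          rw [lintegral_const_mul _ (hk k)]
      _ ≤ ∑ k ∈ Finset.range K, ENNReal.ofReal (w k) * N :=
          Finset.sum_le_sum fun k _ => mul_le_mul_right (hN _) _
      _ = ENNReal.ofReal (∑ k ∈ Finset.range K, w k) * N := by
          rw [← Finset.sum_mul, ENNReal.ofReal_sum_of_nonneg fun k _ => hw0 k]
      _ ≤ ENNReal.ofReal ((i + 3) ^ 2) * N :=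
          mul_le_mul_left (ENNReal.ofReal_le_ofReal hw) _
  · refine le_trans ?_ h2
    rw [mul_comm]
    exact mul_le_mul_right (Finset.single_le_sum (f := fun n => ‖a n‖ₑ ^ 2)
      (fun _ _ => zero_le) hn) _

end Wey
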