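import Pool.Agent.Wey.SLB
import Pool.Agent.Wey.REP
import Pool.Agent.Wey.CNV
import Pool.Agent.Wey.SLI
import Pool.Agent.Wey.NEA
import Pool.Agent.Wey.DEC
import Pool.Agent.Wey.DYA
import Pool.Agent.Wey.HAT
import Pool.Agent.Wey.BES
import Pool.Agent.Wey.SQA
import Pool.Agent.Wey.SQB
import Pool.Agent.Wey.FAR
import Pool.Agent.Wey.WIE
import Pool.Agent.Wey.CUT
import Pool.Agent.Wey.IN1
import Pool.Agent.Wey.IN2
import Pool.Agent.Wey.ASM
import Pool.Agent.Wey.ROT
import Pool.Agent.Wey.POL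
import Pool.Agent.Wey.BEW
import Pool.Agent.Wey.SQW
import Pool.Agent.Wey.ASW
import Pool.Agent.Wey.ROW

/-!
# MP_5ab805_an: exponential sums as partners of every function, assembly (helper91)
-/

set_option autoImplicit false

namespace Wey

/-- the theorem in the disc, in every frame, with a chirp -/
theorem rot : T_ROT :=
  p_ROT (p_ASM (p_CUT (p_SLB (p_SLI p_REP p_CNV) p_NEA (p_DYA p_DEC) p_HAT p_FAR) p_WIE)
    (p_SQA p_BES) p_SQB p_IN1 p_IN2)

/-- the weighted theorem in the disc, in every frame, with a chirp -/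
theorem row : T_ROW :=
  p_ROW (p_ASW (p_CUT (p_SLB (p_SLI p_REP p_CNV) p_NEA (p_DYA p_DEC) p_HAT p_FAR) p_WIE)
    (p_SQW p_BEW) p_SQB p_IN1 p_IN2)

end Wey
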