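import Pool.Agent.TriL.Defs

/-!
# MP_5ab805_an, exponential sums as partners of every function: definitions (helper91)
-/

set_option autoImplicit false

namespace Wey

open MeasureTheory Set Filter
open scoped ENNReal NNReal Topology
open Pool.Agent.Restr (u E QQ)
open TriL (Sq n2)

/-- `|x|²` -/
def nq (x : ℝ × ℝ) : ℝ := x.1 ^ 2 + x.2 ^ 2

/-- `λ(t) = 1 / (4 (1 + i t))` -/
noncomputable def lam (t : ℝ) : ℂ := 1 / (4 * (1 + (t : ℂ) * Complex.I))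

/-- the exponential sum `∑ a_n exp(i(h n x₁ + ψ_n x₂))` -/
noncomputable def Gs (h : ℝ) (ψ : ℤ → ℝ) (s : Finset ℤ) (a : ℤ → ℂ) (x : ℝ × ℝ) : ℂ :=
  ∑ n ∈ s, a n * u (-(h * n * x.1 + ψ n * x.2))

/-- Fourier transform on the plane -/
noncomputable def hat (F : ℝ × ℝ → ℂ) (y : ℝ × ℝ) : ℂ :=
  ∫ x : ℝ × ℝ, u (y.1 * x.1 + y.2 * x.2) * F x

/-- multiplication by `exp(|x|²)` -/
noncomputable def gup (f : ℝ × ℝ → ℂ) (x : ℝ × ℝ) : ℂ := ((Real.exp (nq x) : ℝ) : ℂ) * f x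

/-- multiplication by `exp(-|x|²)` -/
noncomputable def gdn (f : ℝ × ℝ → ℂ) (x : ℝ × ℝ) : ℂ := ((Real.exp (-nq x) : ℝ) : ℂ) * f x

/-- `ν_n(σ) = |σ - 2 z_n|²`, `z_n = (h n, ψ_n)` -/
def nu (h : ℝ) (ψ : ℤ → ℝ) (σ : ℝ × ℝ) (n : ℤ) : ℝ :=
  (σ.1 - 2 * (h * n)) ^ 2 + (σ.2 - 2 * ψ n) ^ 2

/-- the coefficients `a_n F^(σ - z_n)` -/
noncomputable def cf (h : ℝ) (ψ : ℤ → ℝ) (a : ℤ → ℂ) (F : ℝ × ℝ → ℂ) (σ : ℝ × ℝ) (n : ℤ) : ℂ :=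
  a n * hat F (σ.1 - h * n, σ.2 - ψ n)

/-- the function of `t` and `σ` to which Plancherel reduces the product -/
noncomputable def BB (h : ℝ) (ψ : ℤ → ℝ) (s : Finset ℤ) (a : ℤ → ℂ) (F : ℝ × ℝ → ℂ) (t : ℝ)
    (σ : ℝ × ℝ) : ℂ :=
  ∑ n ∈ s, cf h ψ a F σ n * Complex.exp (-(lam t / 2 * ((nu h ψ σ n : ℝ) : ℂ)))

/-- sum over the part of `s` in the dyadic interval `{n : n / 2^i = j}` -/
noncomputable def blk (s : Finset ℤ) (c : ℤ → ℂ) (i : ℕ) (j : ℤ) : ℂ :=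
  ∑ n ∈ s with n / 2 ^ i = j, c n

/-- annular complexity at most `m`: every annulus centred anywhere picks out of `s` at most `m`
runs -/
def Ann (m : ℕ) (h : ℝ) (ψ : ℤ → ℝ) (s : Finset ℤ) : Prop := ∀ c d a b : ℝ,
  ∃ P : Fin m → Set ℤ, (∀ i, (P i).OrdConnected) ∧ (∀ i j, i ≠ j → Disjoint (P i) (P j)) ∧
    ∀ n ∈ s, (a < (h * n - c) ^ 2 + (ψ n - d) ^ 2 ∧ (h * n - c) ^ 2 + (ψ n - d) ^ 2 ≤ b) ↔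
      ∃ i, n ∈ P i

/-- times of size about `2^k` -/
def Tk (k : ℕ) : Set ℝ := if k = 0 then {t | |t| ≤ 2} else {t | 2 ^ k ≤ |t| ∧ |t| ≤ 2 ^ (k + 1)}

/-- slab of times of size about `2^k` -/
def Sl (k : ℕ) : Set (ℝ × ℝ × ℝ) := {ξ | ξ.2.2 ∈ Tk k}

/-- the square function bound for the pair `f`, `Gs h ψ s a`: only `|f|` enters -/
def SQ (h : ℝ) (ψ : ℤ → ℝ) (s : Finset ℤ) (a : ℤ → ℂ) (f : ℝ × ℝ → ℂ) (N : ℝ≥0∞) : Prop :=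
  (∀ i : ℕ, ∑' j : ℤ, ∫⁻ x, ‖f x‖ₑ ^ 2 *
    ‖blk s (fun n => a n * u (-(h * n * x.1 + ψ n * x.2))) i j‖ₑ ^ 2 ≤
      ENNReal.ofReal ((i + 3) ^ 2) * N) ∧
  ∀ n ∈ s, ‖a n‖ₑ ^ 2 * n2 f ≤ N

/-- `χ` has an absolutely convergent Fourier integral of norm at most `K` -/
def Wi (K : ℝ≥0) (χ : ℝ × ℝ → ℂ) : Prop := ∃ κ : ℝ × ℝ → ℂ, Integrable κ ∧ ∫⁻ w, ‖κ w‖ₑ ≤ K ∧
  ∀ x, χ x = ∫ w : ℝ × ℝ, u (-(w.1 * x.1 + w.2 * x.2)) * κ w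

/-- the exponential sum is bounded by one on the strip -/
def Bd (h : ℝ) (ψ : ℤ → ℝ) (s : Finset ℤ) (a : ℤ → ℂ) : Prop :=
  ∀ x : ℝ × ℝ, |x.2| ≤ 1 / 2 → ‖Gs h ψ s a x‖ ≤ 1

/-- `|Ef| |E(χG)|` -/
noncomputable def XX (h : ℝ) (ψ : ℤ → ℝ) (s : Finset ℤ) (a : ℤ → ℂ) (χ f : ℝ × ℝ → ℂ)
    (ξ : ℝ × ℝ × ℝ) : ℝ≥0∞ :=
  ‖E f ξ‖ₑ * ‖E (fun x => χ x * Gs h ψ s a x) ξ‖ₑ

end Wey
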