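import Pool.Agent.Wey.Targets

/-!
# MP_5ab805_an, exponential sums as partners of every function: weighted form, targets (helper91)
-/

set_option autoImplicit false

namespace Wey

open MeasureTheory Set Filter
open scoped ENNReal NNReal Topology
open Pool.Agent.Restr (u E QQ)
open TriL (Sq n2)

/-- the square of `f`, integrated against the square of any translate of the sum in the first
variable, is at most `N` -/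
def NB (h : ℝ) (ψ : ℤ → ℝ) (s : Finset ℤ) (a : ℤ → ℂ) (f : ℝ × ℝ → ℂ) (N : ℝ≥0∞) : Prop :=
  ∀ v : ℝ, ∫⁻ x : ℝ × ℝ, ‖f x‖ₑ ^ 2 * ‖Gs h ψ s a (x.1 + v, x.2)‖ₑ ^ 2 ≤ N

/-- BEW: the square function of the dyadic blocks at `0` is at most an average of the square of the
trigonometric polynomial (points and weights do not depend on the coefficients) -/
def T_BEW : Prop := ∀ (s : Finset ℤ) (i : ℕ), ∃ (K : ℕ) (v w : ℕ → ℝ), (∀ k, 0 ≤ w k) ∧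
  ∑ k ∈ Finset.range K, w k ≤ (i + 3) ^ 2 ∧ ∀ A : ℤ → ℂ,
  ∑' j : ℤ, ‖blk s A i j‖ₑ ^ 2 ≤
    ∑ k ∈ Finset.range K, ENNReal.ofReal (w k) * ‖∑ n ∈ s, A n * u (-(n * v k))‖ₑ ^ 2

/-- SQW (from BEW) -/
def T_SQW : Prop := ∀ (h : ℝ) (ψ : ℤ → ℝ) (s : Finset ℤ) (a : ℤ → ℂ) (f : ℝ × ℝ → ℂ) (N : ℝ≥0∞),
  1 ≤ h → Sq f → NB h ψ s a f N → SQ h ψ s a f N ∧ n2 f * ∑ n ∈ s, ‖a n‖ₑ ^ 2 ≤ N

/-- ASW (from CUT, SQW, SQB, IN1, IN2): the weighted theorem on the square -/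
def T_ASW : Prop := ∀ q : ℝ, 3 < q → q < 4 → ∃ C : ℝ≥0, ∀ (m : ℕ) (h : ℝ) (ψ : ℤ → ℝ)
  (s : Finset ℤ) (a : ℤ → ℂ) (χ : ℝ × ℝ → ℂ) (K : ℝ≥0), 1 ≤ m → 1 ≤ h → Ann m h ψ s →
  Wi K χ → (∀ x, x ∉ QQ → χ x = 0) →
  ∀ (f : ℝ × ℝ → ℂ) (B : ℝ≥0∞), Sq f → NB h ψ s a f (B ^ 2) →
    eLpNorm (fun ξ => E f ξ * E (fun x => χ x * Gs h ψ s a x) ξ) (ENNReal.ofReal (q / 2)) volume ≤
      C * K * NNReal.sqrt m * B ∧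
    ∀ g : ℝ × ℝ → ℂ, Sq g →
    eLpNorm (fun ξ => E f ξ * E g ξ * E (fun x => χ x * Gs h ψ s a x) ξ)
      (ENNReal.ofReal (q / 3)) volume ≤ C * K * NNReal.sqrt m * B * eLpNorm g 2 volume

/-- ROW (from ASW): the weighted theorem in the disc, in every frame, with a chirp -/
def T_ROW : Prop := ∀ q : ℝ, 3 < q → q < 4 → ∃ C : ℝ≥0, ∀ (m : ℕ) (h : ℝ) (ψ : ℤ → ℝ)
  (s : Finset ℤ) (a : ℤ → ℂ) (χ : ℝ × ℝ → ℂ) (K : ℝ≥0) (e : ℝ × ℝ) (c : ℝ), 1 ≤ m → 1 ≤ h →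
  Ann m h ψ s → Wi K χ → (∀ x : ℝ × ℝ, 1 / 4 < x.1 ^ 2 + x.2 ^ 2 → χ x = 0) →
  e.1 ^ 2 + e.2 ^ 2 = 1 →
  ∀ (f : ℝ × ℝ → ℂ) (B : ℝ≥0∞), InD f →
    (∀ v : ℝ, ∫⁻ x : ℝ × ℝ, ‖f x‖ₑ ^ 2 *
      ‖Gs h ψ s a (x.1 * e.1 + x.2 * e.2 + v, x.1 * e.2 - x.2 * e.1)‖ₑ ^ 2 ≤ B ^ 2) →
    eLpNorm (fun ξ => E f ξ * E (gfun c e h ψ s a χ) ξ) (ENNReal.ofReal (q / 2)) volume ≤
      C * K * NNReal.sqrt m * B ∧
    ∀ g : ℝ × ℝ → ℂ, InD g →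
    eLpNorm (fun ξ => E f ξ * E g ξ * E (gfun c e h ψ s a χ) ξ)
      (ENNReal.ofReal (q / 3)) volume ≤ C * K * NNReal.sqrt m * B * eLpNorm g 2 volume

end Wey
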